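import Pool.Agent.H76.Dasbach.Table

/-!
# Fast checks
-/

namespace Pool.Agent.H76.Dasbach

open Finset

/-- sum over a list, for kernel evaluation -/
noncomputable def sumL {α : Type} (f : α → ℕ) (l : List α) : ℕ :=
  @List.rec α (fun _ => ℕ) 0 (fun a _ ih => Nat.add (f a) ih) l

/-- universal check over a list, for kernel evaluation -/
noncomputable def allL {α : Type} (p : α → Bool) (l : List α) : Bool :=
  @List.rec α (fun _ => Bool) true (fun a _ ih => cond (p a) ih false) l

lemma sumL_eq {α : Type} (f : α → ℕ) (l : List α) : sumL f l = (l.map f).sum := by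
  induction l with
  | nil => rfl
  | cons a l ih =>
    rw [List.map_cons, List.sum_cons, ← ih]
    rfl

lemma allL_iff {α : Type} (p : α → Bool) (l : List α) :
    allL p l = true ↔ ∀ x ∈ l, p x = true := by
  induction l with
  | nil => simp [allL]
  | cons a l ih =>
    have h : allL p (a :: l) = cond (p a) (allL p l) false := rfl
    rw [h]
    cases hp : p a
    · simp [hp]
    · simp [hp, ih]

/-- Data for fast checks. -/
structure Code (L : Type) where
  elems : List L
  roots : List L
  carts : List L
  st : L → L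
  eq : L → L → Bool
  tp : L → L → L → ℕ
  tm : L → L → L → ℕ

namespace Code

variable {L : Type} (c : Code L)

/-- indicator -/
noncomputable def ind (a b : L) : ℕ := cond (c.eq a b) 1 0

/-- square of the structure constant -/
noncomputable def sq (a b d : L) : ℕ :=
  Nat.add (Nat.mul (Nat.sub (c.tp a b d) (c.tm a b d)) (Nat.sub (c.tp a b d) (c.tm a b d)))
    (Nat.mul (Nat.sub (c.tm a b d) (c.tp a b d)) (Nat.sub (c.tm a b d) (c.tp a b d)))

/-- check of the bubble table -/
noncomputable def chkQ (t : Tables L) : Bool :=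
  allL (fun x => allL (fun l => allL (fun m => Nat.beq (c.sq l m x)
    (sumL (fun lm => cond (c.eq lm.1 l) (c.ind lm.2 m) 0) (t.tq x))) c.elems) c.elems) c.roots

/-- check of the connection table -/
noncomputable def chkN (t : Tables L) : Bool :=
  allL (fun x => cond (allL (fun z => Nat.beq (sumL (fun a => c.sq x a z) c.elems)
    (sumL (fun y => c.ind y z) (t.tn x))) c.roots)
    (allL (fun z => Nat.beq 0 (sumL (fun y => c.ind y z) (t.tn x))) c.carts) false) c.roots

/-- positive part of the inner product of two roots -/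
noncomputable def ipP (x l : L) : ℕ :=
  sumL (fun z => Nat.add (Nat.mul (c.tp x (c.st x) z) (c.tp l (c.st l) z))
    (Nat.mul (c.tm x (c.st x) z) (c.tm l (c.st l) z))) c.carts

/-- negative part of the inner product of two roots -/
noncomputable def ipM (x l : L) : ℕ :=
  sumL (fun z => Nat.add (Nat.mul (c.tp x (c.st x) z) (c.tm l (c.st l) z))
    (Nat.mul (c.tm x (c.st x) z) (c.tp l (c.st l) z))) c.carts

/-- check of the Cartan table -/
noncomputable def chkK (t : Tables L) : Bool :=
  allL (fun x => allL (fun l => Nat.beq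
    (Nat.add (Nat.mul (Nat.sub (c.ipP x l) (c.ipM x l)) (Nat.sub (c.ipP x l) (c.ipM x l)))
      (Nat.mul (Nat.sub (c.ipM x l) (c.ipP x l)) (Nat.sub (c.ipM x l) (c.ipP x l))))
    (sumL (fun lk => cond (c.eq lk.1 l) lk.2 0) (t.tk x))) c.elems) c.roots

/-- check of the action of the Cartan subalgebra -/
noncomputable def chkD : Bool :=
  allL (fun z => allL (fun a => allL (fun b => cond (Nat.beq (c.sq a b z) 0) true
    (c.eq b (c.st a))) c.elems) c.elems) c.carts

/-- check that all structure constants are `0`, `1` or `-1` -/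
noncomputable def chkC : Bool :=
  allL (fun x => allL (fun l => allL (fun m => Nat.ble (c.sq l m x) 1) c.elems) c.elems) c.elems

end Code

namespace LieData

variable {L : Type} [Fintype L] [DecidableEq L] {D : LieData ℤ L}
variable {cart : L → Prop} [DecidablePred cart]

/-- The code describes the Lie algebra. -/
structure IsCode (D : LieData ℤ L) (cart : L → Prop) (c : Code L) : Prop where
  elems : ∀ x, x ∈ c.elems
  nodup : c.elems.Nodup
  roots_nodup : c.roots.Nodup
  roots : ∀ x, x ∈ c.roots ↔ ¬ cart x
  carts_nodup : c.carts.Nodup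
  carts : ∀ x, x ∈ c.carts ↔ cart x
  st : ∀ x, c.st x = D.star x
  eq : ∀ a b, c.eq a b = true ↔ a = b
  T : ∀ a b d, D.T a b d = (c.tp a b d : ℤ) - (c.tm a b d : ℤ)

lemma sub_sq_eq (p m : ℕ) : ((p : ℤ) - m) ^ 2
    = ((Nat.add (Nat.mul (Nat.sub p m) (Nat.sub p m)) (Nat.mul (Nat.sub m p) (Nat.sub m p)) : ℕ)
      : ℤ) := by
  show ((p : ℤ) - m) ^ 2 = (((p - m) * (p - m) + (m - p) * (m - p) : ℕ) : ℤ)
  rcases le_total p m with h | h
  · rw [Nat.sub_eq_zero_of_le h]
    push_cast [Nat.cast_sub h]
    ring
  · rw [Nat.sub_eq_zero_of_le h]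
    push_cast [Nat.cast_sub h]
    ring

variable {c : Code L}

lemma IsCode.ind_eq (hc : D.IsCode cart c) (a b : L) : c.ind a b = if a = b then 1 else 0 := by
  unfold Code.ind
  by_cases h : a = b
  · rw [(hc.eq a b).2 h, if_pos h]; rfl
  · have : c.eq a b = false := by
      rw [← Bool.not_eq_true, hc.eq]; exact h
    rw [this, if_neg h]; rfl

lemma IsCode.cond_eq (hc : D.IsCode cart c) (a b : L) (n : ℕ) :
    cond (c.eq a b) n 0 = if a = b then n else 0 := by
  by_cases h : a = b
  · rw [(hc.eq a b).2 h, if_pos h]; rfl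
  · have : c.eq a b = false := by
      rw [← Bool.not_eq_true, hc.eq]; exact h
    rw [this, if_neg h]; rfl

lemma IsCode.sq_eq (hc : D.IsCode cart c) (a b d : L) : D.T a b d ^ 2 = (c.sq a b d : ℤ) := by
  rw [hc.T, sub_sq_eq]
  rfl

omit [DecidableEq L] in
lemma sum_list (s : List L) (hs : s.Nodup) (hm : ∀ x, x ∈ s) (f : L → ℤ) :
    ∑ x, f x = (s.map f).sum := by
  classical
  rw [← List.sum_toFinset f hs]
  refine Finset.sum_congr ?_ fun _ _ => rfl
  ext x
  simp [hm x]

lemma isTables_of_code {t : Tables L} (hc : D.IsCode cart c) (hr : t.roots = c.roots)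
    (hst : t.st = c.st) (h1 : c.chkQ t = true) (h2 : c.chkN t = true) (h3 : c.chkK t = true)
    (h4 : c.chkD = true) : D.IsTables cart t := by
  refine ⟨?_, ?_, ?_, ?_, ?_, ?_, ?_⟩
  · rw [hr]; exact hc.roots_nodup
  · rw [hr]; exact hc.roots
  · intro x; rw [hst, hc.st]
  · intro x hx l m
    unfold Code.chkQ at h1
    simp only [allL_iff] at h1
    have := Nat.eq_of_beq_eq_true (h1 x ((hc.roots x).2 hx) l (hc.elems l) m (hc.elems m))
    rw [hc.sq_eq, this, sumL_eq]
    congr 3
    funext lm
    rw [hc.ind_eq, hc.cond_eq]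
    by_cases e1 : lm.1 = l <;> by_cases e2 : lm.2 = m <;> simp [e1, e2]
  · intro x hx z
    unfold Code.chkN at h2
    rw [allL_iff] at h2
    have h := h2 x ((hc.roots x).2 hx)
    rw [Bool.cond_false_right, Bool.and_eq_true, allL_iff, allL_iff] at h
    by_cases hz : cart z
    · rw [if_pos hz]
      have := Nat.eq_of_beq_eq_true (h.2 z ((hc.carts z).2 hz))
      rw [sumL_eq] at this
      simp only [hc.ind_eq] at this
      rw [← this]; rfl
    · rw [if_neg hz]
      have := Nat.eq_of_beq_eq_true (h.1 z ((hc.roots z).2 hz))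
      rw [sumL_eq, sumL_eq] at this
      simp only [hc.ind_eq] at this
      rw [← this]
      unfold nn
      rw [sum_list c.elems hc.nodup hc.elems]
      simp only [hc.sq_eq]
      rw [Nat.cast_list_sum, List.map_map]
      rfl
  · intro a b z hz hT
    unfold Code.chkD at h4
    simp only [allL_iff] at h4
    have := h4 z ((hc.carts z).2 hz) a (hc.elems a) b (hc.elems b)
    by_cases h : Nat.beq (c.sq a b z) 0 = true
    · exfalso
      apply hT
      have h' := Nat.eq_of_beq_eq_true h
      have h'' := hc.sq_eq a b z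
      rw [h'] at h''
      exact pow_eq_zero_iff (two_ne_zero) |>.1 (by simpa using h'')
    · rw [Bool.not_eq_true] at h
      rw [h] at this
      have := (hc.eq _ _).1 this
      rw [this, hc.st]
  · intro x hx l
    unfold Code.chkK at h3
    simp only [allL_iff] at h3
    have := Nat.eq_of_beq_eq_true (h3 x ((hc.roots x).2 hx) l (hc.elems l))
    rw [sumL_eq] at this
    simp only [hc.cond_eq] at this
    rw [← this, ← sub_sq_eq]
    congr 1
    have e1 : ∑ z, (if cart z then D.T x (D.star x) z * D.T l (D.star l) z else 0)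
        = (c.carts.map (fun z => D.T x (D.star x) z * D.T l (D.star l) z)).sum := by
      have := sum_roots (R := ℤ) (fun z => ¬ cart z) c.carts hc.carts_nodup
        (by intro z; rw [hc.carts z]; simp) (fun z => D.T x (D.star x) z * D.T l (D.star l) z)
      rw [← this]
      refine Finset.sum_congr rfl fun z _ => ?_
      by_cases hz : cart z <;> simp [hz]
    rw [e1]
    unfold Code.ipP Code.ipM
    rw [sumL_eq, sumL_eq]
    generalize c.carts = s
    induction s with
    | nil => simp
    | cons z s ih =>
      simp only [List.map_cons, List.sum_cons, ih, Nat.cast_add]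
      have e2 : D.T x (D.star x) z * D.T l (D.star l) z
          = ((Nat.add (Nat.mul (c.tp x (c.st x) z) (c.tp l (c.st l) z))
            (Nat.mul (c.tm x (c.st x) z) (c.tm l (c.st l) z)) : ℕ) : ℤ)
          - ((Nat.add (Nat.mul (c.tp x (c.st x) z) (c.tm l (c.st l) z))
            (Nat.mul (c.tm x (c.st x) z) (c.tp l (c.st l) z)) : ℕ) : ℤ) := by
        rw [hc.T, hc.T, hc.st, hc.st]
        show _ = ((c.tp x (D.star x) z * c.tp l (D.star l) z
          + c.tm x (D.star x) z * c.tm l (D.star l) z : ℕ) : ℤ)
          - ((c.tp x (D.star x) z * c.tm l (D.star l) z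
          + c.tm x (D.star x) z * c.tp l (D.star l) z : ℕ) : ℤ)
        push_cast
        ring
      rw [e2]
      ring

end LieData

end Pool.Agent.H76.Dasbach
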