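import Pool.Agent.H76.Dasbach.Count

/-!
# The core graph
-/

namespace Pool.Agent.H76.Dasbach

open Finset

/-- rot of the core graph -/
def coreRotFun : Fin 18 → Fin 18 := ![10,4,11,5,6,8,1,14,3,15,12,13,0,2,16,17,7,9]

/-- opp of the core graph -/
def coreOppFun : Fin 18 → Fin 18 := ![1,0,3,2,5,4,7,6,9,8,11,10,13,12,15,14,17,16]

/-- rot of the core graph -/
def coreRot : Equiv.Perm (Fin 18) where
  toFun := coreRotFun
  invFun := fun x => coreRotFun (coreRotFun x)
  left_inv := by decide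
  right_inv := by decide

/-- opp of the core graph -/
def coreOpp : Equiv.Perm (Fin 18) where
  toFun := coreOppFun
  invFun := coreOppFun
  left_inv := by decide
  right_inv := by decide

/-- The core graph: two bubbles joined by two edges, which are joined by a rung. -/
def core : Graph where
  H := Fin 18
  finite_H := inferInstance
  rot := coreRot
  opp := coreOpp
  rot_rot_rot := by decide
  opp_opp := by decide
  opp_ne := by decide

/-- The core graph with its four marked half-edges. -/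
def mcore : MGraph (Fin 4) where
  G := core
  mark := ![(10 : Fin 18), (12 : Fin 18), (14 : Fin 18), (16 : Fin 18)]

lemma core_numUnivalent : core.numUnivalent = 0 := by
  unfold Graph.numUnivalent
  have : IsEmpty {h : core.H // core.rot h = h} := by
    constructor
    rintro ⟨h, hh⟩
    have : ∀ x : Fin 18, coreRot x ≠ x := by decide
    exact this h hh
  exact Nat.card_of_isEmpty

lemma core_numVertices : core.numVertices = 6 := by
  have h := core.three_mul_numVertices
  rw [core_numUnivalent] at h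
  have : Nat.card core.H = 18 := by
    show Nat.card (Fin 18) = 18
    simp
  omega

lemma core_connected : core.Connected := by
  refine ⟨⟨(0 : Fin 18)⟩, ?_⟩
  let Rel : Fin 18 → Fin 18 → Prop := fun a b => b = coreRot a ∨ b = coreOpp a
  have p0 : Relation.EqvGen Rel 0 0 := Relation.EqvGen.refl _
  have p10 : Relation.EqvGen Rel 0 10 := Relation.EqvGen.trans _ _ _ p0 (Relation.EqvGen.rel _ _ (Or.inl rfl))
  have p1 : Relation.EqvGen Rel 0 1 := Relation.EqvGen.trans _ _ _ p0 (Relation.EqvGen.rel _ _ (Or.inr rfl))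
  have p12 : Relation.EqvGen Rel 0 12 := Relation.EqvGen.trans _ _ _ p10 (Relation.EqvGen.rel _ _ (Or.inl rfl))
  have p11 : Relation.EqvGen Rel 0 11 := Relation.EqvGen.trans _ _ _ p10 (Relation.EqvGen.rel _ _ (Or.inr rfl))
  have p4 : Relation.EqvGen Rel 0 4 := Relation.EqvGen.trans _ _ _ p1 (Relation.EqvGen.rel _ _ (Or.inl rfl))
  have p13 : Relation.EqvGen Rel 0 13 := Relation.EqvGen.trans _ _ _ p12 (Relation.EqvGen.rel _ _ (Or.inr rfl))
  have p6 : Relation.EqvGen Rel 0 6 := Relation.EqvGen.trans _ _ _ p4 (Relation.EqvGen.rel _ _ (Or.inl rfl))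
  have p5 : Relation.EqvGen Rel 0 5 := Relation.EqvGen.trans _ _ _ p4 (Relation.EqvGen.rel _ _ (Or.inr rfl))
  have p2 : Relation.EqvGen Rel 0 2 := Relation.EqvGen.trans _ _ _ p13 (Relation.EqvGen.rel _ _ (Or.inl rfl))
  have p7 : Relation.EqvGen Rel 0 7 := Relation.EqvGen.trans _ _ _ p6 (Relation.EqvGen.rel _ _ (Or.inr rfl))
  have p8 : Relation.EqvGen Rel 0 8 := Relation.EqvGen.trans _ _ _ p5 (Relation.EqvGen.rel _ _ (Or.inl rfl))
  have p3 : Relation.EqvGen Rel 0 3 := Relation.EqvGen.trans _ _ _ p2 (Relation.EqvGen.rel _ _ (Or.inr rfl))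
  have p14 : Relation.EqvGen Rel 0 14 := Relation.EqvGen.trans _ _ _ p7 (Relation.EqvGen.rel _ _ (Or.inl rfl))
  have p9 : Relation.EqvGen Rel 0 9 := Relation.EqvGen.trans _ _ _ p8 (Relation.EqvGen.rel _ _ (Or.inr rfl))
  have p16 : Relation.EqvGen Rel 0 16 := Relation.EqvGen.trans _ _ _ p14 (Relation.EqvGen.rel _ _ (Or.inl rfl))
  have p15 : Relation.EqvGen Rel 0 15 := Relation.EqvGen.trans _ _ _ p14 (Relation.EqvGen.rel _ _ (Or.inr rfl))
  have p17 : Relation.EqvGen Rel 0 17 := Relation.EqvGen.trans _ _ _ p16 (Relation.EqvGen.rel _ _ (Or.inr rfl))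
  have hall : ∀ x : Fin 18, Relation.EqvGen Rel 0 x := by
    intro x
    fin_cases x
    · exact p0
    · exact p1
    · exact p2
    · exact p3
    · exact p4
    · exact p5
    · exact p6
    · exact p7
    · exact p8
    · exact p9
    · exact p10
    · exact p11
    · exact p12
    · exact p13
    · exact p14
    · exact p15
    · exact p16
    · exact p17
  intro x y
  exact Relation.EqvGen.trans _ _ _ (Relation.EqvGen.symm _ _ (hall x)) (hall y)

lemma sum_fin_succ {R : Type} [AddCommMonoid R] {L : Type} [Fintype L] {n : ℕ}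
    (f : (Fin (n + 1) → L) → R) :
    ∑ a : Fin (n + 1) → L, f a = ∑ x : L, ∑ a : Fin n → L, f (Fin.cons x a) := by
  rw [← Fintype.sum_equiv (Fin.consEquiv (fun _ : Fin (n + 1) => L))
    (fun x => f (Fin.cons x.1 x.2)) f (fun x => rfl), Fintype.sum_prod_type]

namespace LieData

variable {R : Type} [CommRing R] {L : Type} [Fintype L] [DecidableEq L] (D : LieData R L)

/-- the labelling of the half-edges given by a labelling of the edges -/
def spread (a : Fin 9 → L) : Fin 18 → L :=
  ![a 0, D.star (a 0), a 1, D.star (a 1), a 2, D.star (a 2), a 3, D.star (a 3), a 4,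
    D.star (a 4), a 5, D.star (a 5), a 6, D.star (a 6), a 7, D.star (a 7), a 8, D.star (a 8)]

/-- restriction to edges -/
def gather (φ : Fin 18 → L) : Fin 9 → L :=
  ![φ 0, φ 2, φ 4, φ 6, φ 8, φ 10, φ 12, φ 14, φ 16]

lemma compat_core (φ : Fin 18 → L) : D.Compat coreOpp φ ↔ φ = D.spread (gather φ) := by
  constructor
  · intro h
    funext x
    fin_cases x
    · rfl
    · exact h 0
    · rfl
    · exact h 2
    · rfl
    · exact h 4
    · rfl
    · exact h 6
    · rfl
    · exact h 8
    · rfl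
    · exact h 10
    · rfl
    · exact h 12
    · rfl
    · exact h 14
    · rfl
    · exact h 16
  · intro h x
    rw [h]
    generalize gather φ = a
    fin_cases x
    · rfl
    · exact (D.star_star _).symm
    · rfl
    · exact (D.star_star _).symm
    · rfl
    · exact (D.star_star _).symm
    · rfl
    · exact (D.star_star _).symm
    · rfl
    · exact (D.star_star _).symm
    · rfl
    · exact (D.star_star _).symm
    · rfl
    · exact (D.star_star _).symm
    · rfl
    · exact (D.star_star _).symm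
    · rfl
    · exact (D.star_star _).symm

lemma gather_spread (a : Fin 9 → L) : gather (D.spread a) = a := by
  funext x
  fin_cases x <;> rfl

lemma tri (a b c : L) : D.T a b c * (D.T b c a * D.T c a b) = D.T a b c := by
  have c1 := D.cyc a b c
  have c2 := D.cyc b c a
  have q := D.cube a b c
  rw [← c2, ← c1]
  calc _ = (D.T a b c) ^ 3 := by ring
    _ = _ := q

lemma prod_core (φ : Fin 18 → L) : ∏ h, D.vt coreRot φ h =
    D.T (φ 10) (φ 12) (φ 0) * D.T (φ 11) (φ 13) (φ 2) * D.T (φ 1) (φ 4) (φ 6)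
      * D.T (φ 3) (φ 5) (φ 8) * D.T (φ 7) (φ 14) (φ 16) * D.T (φ 9) (φ 15) (φ 17) := by
  have hv : ∀ h, D.vt coreRot φ h = D.T (φ h) (φ (coreRot h)) (φ (coreRot (coreRot h))) := by
    intro h
    unfold vt
    rw [if_neg]
    revert h
    decide
  simp only [hv]
  rw [← D.tri (φ 10) (φ 12) (φ 0), ← D.tri (φ 11) (φ 13) (φ 2), ← D.tri (φ 1) (φ 4) (φ 6),
    ← D.tri (φ 3) (φ 5) (φ 8), ← D.tri (φ 7) (φ 14) (φ 16), ← D.tri (φ 9) (φ 15) (φ 17)]
  simp only [Fin.prod_univ_succ, Fin.prod_univ_zero]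
  show D.T (φ 0) (φ 10) (φ 12) * (D.T (φ 1) (φ 4) (φ 6) * (D.T (φ 2) (φ 11) (φ 13) *
    (D.T (φ 3) (φ 5) (φ 8) * (D.T (φ 4) (φ 6) (φ 1) * (D.T (φ 5) (φ 8) (φ 3) *
    (D.T (φ 6) (φ 1) (φ 4) * (D.T (φ 7) (φ 14) (φ 16) * (D.T (φ 8) (φ 3) (φ 5) *
    (D.T (φ 9) (φ 15) (φ 17) * (D.T (φ 10) (φ 12) (φ 0) * (D.T (φ 11) (φ 13) (φ 2) *
    (D.T (φ 12) (φ 0) (φ 10) * (D.T (φ 13) (φ 2) (φ 11) * (D.T (φ 14) (φ 16) (φ 7) *
    (D.T (φ 15) (φ 17) (φ 9) * (D.T (φ 16) (φ 7) (φ 14) * (D.T (φ 17) (φ 9) (φ 15) *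
    1))))))))))))))))) = _
  ring

/-- The state sum of the core as a sum over labellings of the edges. -/
lemma Z_core (Ω : (Fin 18 → L) → R) : D.Z coreRot coreOpp Ω =
    ∑ x, ∑ y, ∑ a, ∑ z, ∑ w, ∑ l, ∑ m, ∑ l', ∑ m',
      D.T l m x * D.T (D.star l) (D.star m) y * D.T (D.star x) a z
      * D.T (D.star y) (D.star a) w * D.T (D.star z) l' m' * D.T (D.star w) (D.star l') (D.star m')
      * Ω (D.spread ![x, y, a, z, w, l, m, l', m']) := by
  unfold Z
  rw [← Finset.sum_filter]
  have h1 : ∑ φ ∈ Finset.univ.filter (fun φ : Fin 18 → L => D.Compat coreOpp φ),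
      (∏ h, D.vt coreRot φ h) * Ω φ = ∑ a : Fin 9 → L,
        (∏ h, D.vt coreRot (D.spread a) h) * Ω (D.spread a) := by
    refine Finset.sum_bij' (fun φ _ => gather φ) (fun a _ => D.spread a) ?_ ?_ ?_ ?_ ?_
    · intros; simp
    · intro a _
      simp only [Finset.mem_filter, Finset.mem_univ, true_and, compat_core, gather_spread]
    · intro φ hφ
      simp only [Finset.mem_filter, Finset.mem_univ, true_and, compat_core] at hφ
      exact hφ.symm
    · intro a _
      exact D.gather_spread a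
    · intro φ hφ
      simp only [Finset.mem_filter, Finset.mem_univ, true_and, compat_core] at hφ
      rw [← hφ]
  rw [h1]
  simp only [prod_core]
  simp only [sum_fin_succ, Fintype.sum_unique]
  rfl

end LieData

end Pool.Agent.H76.Dasbach
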