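import Pool.Agent.H76.Dasbach.Hair

/-!
# Counting vertices; graphs with marked half-edges
-/

namespace Pool.Agent.H76.Dasbach

open Finset

section count

variable {H : Type}

lemma sameCycle_iff_of_cube (rot : Equiv.Perm H) (h3 : ∀ x, rot (rot (rot x)) = x) (x y : H) :
    rot.SameCycle x y ↔ y = x ∨ y = rot x ∨ y = rot (rot x) := by
  constructor
  · rintro ⟨i, rfl⟩
    have hpow : rot ^ (3 : ℤ) = 1 := by
      ext z
      have : (rot ^ (3 : ℤ)) z = rot (rot (rot z)) := by
        rw [show (3 : ℤ) = ((3 : ℕ) : ℤ) by norm_num, zpow_natCast]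
        rfl
      rw [this, h3]; rfl
    have hi : i = 3 * (i / 3) + i % 3 := (Int.mul_ediv_add_emod i 3).symm
    have h0 : 0 ≤ i % 3 := Int.emod_nonneg _ (by norm_num)
    have h1 : i % 3 < 3 := Int.emod_lt_of_pos _ (by norm_num)
    have h2 : rot ^ i = rot ^ (i % 3) := by
      conv_lhs => rw [hi]
      rw [zpow_add, zpow_mul, hpow, one_zpow, one_mul]
    rw [h2]
    have : i % 3 = 0 ∨ i % 3 = 1 ∨ i % 3 = 2 := by omega
    rcases this with h | h | h
    · left; rw [h]; simp
    · right; left; rw [h]; simp
    · right; right; rw [h]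
      rw [show (2 : ℤ) = ((2 : ℕ) : ℤ) by norm_num, zpow_natCast]
      rfl
  · rintro (rfl | rfl | rfl)
    · exact ⟨0, by simp⟩
    · exact ⟨1, by simp⟩
    · exact ⟨2, by rw [show (2 : ℤ) = ((2 : ℕ) : ℤ) by norm_num, zpow_natCast]; rfl⟩

/-- three times the number of orbits -/
lemma three_mul_orbits [Finite H] (rot : Equiv.Perm H) (h3 : ∀ x, rot (rot (rot x)) = x) :
    3 * Nat.card (Quotient (Equiv.Perm.SameCycle.setoid rot))
      = Nat.card H + 2 * Nat.card {h : H // rot h = h} := by
  classical
  let _ := Fintype.ofFinite H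
  let s := Equiv.Perm.SameCycle.setoid rot
  let _ : Fintype (Quotient s) := Fintype.ofFinite _
  rw [Nat.card_eq_fintype_card, Nat.card_eq_fintype_card, Nat.card_eq_fintype_card]
  let π : H → Quotient s := Quotient.mk s
  have hfib : ∀ q : Quotient s, ∑ h : H, (if π h = q then (1 + if rot h = h then 2 else 0) else 0)
      = 3 := by
    intro q
    obtain ⟨x, rfl⟩ := Quotient.exists_rep q
    have hiff : ∀ h, π h = Quotient.mk s x ↔ (h = x ∨ h = rot x ∨ h = rot (rot x)) := by
      intro h
      rw [← sameCycle_iff_of_cube rot h3 x h]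
      constructor
      · intro e
        exact (Quotient.exact e).symm
      · intro e
        exact Quotient.sound e.symm
    simp only [hiff]
    by_cases hx : rot x = x
    · have : ∀ h, (h = x ∨ h = rot x ∨ h = rot (rot x)) ↔ h = x := by
        intro h; rw [hx, hx]; tauto
      simp only [this]
      rw [Finset.sum_ite_eq' Finset.univ x]
      simp [hx]
    · obtain ⟨n1, n2, n3, n4, n5, n6⟩ := LieData.rot_facts h3 hx
      rw [← Finset.sum_filter]
      have : Finset.univ.filter (fun h => h = x ∨ h = rot x ∨ h = rot (rot x))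
          = {x, rot x, rot (rot x)} := by
        ext h; simp
      rw [this, Finset.sum_insert (by simp [n4, n5]), Finset.sum_insert (by simp [n6]),
        Finset.sum_singleton, h3, if_neg hx, if_neg n3, if_neg n5]
      norm_num
  have h1 : ∑ q : Quotient s, ∑ h : H, (if π h = q then (1 + if rot h = h then 2 else 0) else 0)
      = Fintype.card H + 2 * Fintype.card {h : H // rot h = h} := by
    rw [Finset.sum_comm]
    simp only [Finset.sum_ite_eq, Finset.mem_univ, if_true]
    rw [Finset.sum_add_distrib, ← Finset.sum_filter, Finset.sum_const, Finset.sum_const,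
      Fintype.card_subtype]
    simp [mul_comm]
  rw [← h1, Finset.sum_congr rfl (fun q _ => hfib q)]
  simp [mul_comm]
  rfl

end count

lemma Graph.three_mul_numVertices (G : Graph) :
    3 * G.numVertices = Nat.card G.H + 2 * G.numUnivalent :=
  three_mul_orbits G.rot G.rot_rot_rot

/-- A graph with marked half-edges. -/
structure MGraph (ι : Type) : Type 1 where
  G : Graph
  mark : ι → G.H

namespace MGraph

variable {ι : Type}

/-- Attach a leg at the edge of the half-edge `h`. -/
noncomputable def _root_.Pool.Agent.H76.Dasbach.Graph.addHair (G : Graph) (h : G.H) : Graph where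
  H := G.H ⊕ Fin 4
  finite_H := inferInstance
  rot := hairRot G.rot
  opp := hairOpp G.opp h
  rot_rot_rot := by
    rintro (x | i)
    · simp [G.rot_rot_rot]
    · simp [hairRot4_cube]
  opp_opp := hairOpp_hairOpp G.opp_opp G.opp_ne h
  opp_ne := hairOpp_ne G.opp_opp G.opp_ne h

/-- Attach a leg at a mark. -/
noncomputable def addHair (M : MGraph ι) (i : ι) : MGraph ι where
  G := M.G.addHair (M.mark i)
  mark := fun j => Sum.inl (M.mark j)

lemma card_addHair (G : Graph) (h : G.H) : Nat.card (G.addHair h).H = Nat.card G.H + 4 := by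
  show Nat.card (G.H ⊕ Fin 4) = _
  rw [Nat.card_sum]; simp

lemma numUnivalent_addHair (G : Graph) (h : G.H) :
    (G.addHair h).numUnivalent = G.numUnivalent + 1 := by
  unfold Graph.numUnivalent
  have e : {x : (G.addHair h).H // (G.addHair h).rot x = x} ≃
      {x : G.H // G.rot x = x} ⊕ {i : Fin 4 // hairRot4 i = i} :=
    { toFun := fun x => match x with
        | ⟨Sum.inl k, hk⟩ => Sum.inl ⟨k, by
            have : Sum.inl (G.rot k) = (Sum.inl k : G.H ⊕ Fin 4) := hk
            exact Sum.inl_injective this⟩
        | ⟨Sum.inr i, hi⟩ => Sum.inr ⟨i, by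
            have : Sum.inr (hairRot4 i) = (Sum.inr i : G.H ⊕ Fin 4) := hi
            exact Sum.inr_injective this⟩
      invFun := fun x => match x with
        | Sum.inl k => ⟨Sum.inl k.1, congrArg Sum.inl k.2⟩
        | Sum.inr i => ⟨Sum.inr i.1, congrArg Sum.inr i.2⟩
      left_inv := by
        rintro ⟨x | x, hx⟩ <;> rfl
      right_inv := by
        rintro (x | x) <;> rfl }
  rw [Nat.card_congr e, Nat.card_sum]
  congr 1
  rw [Nat.card_eq_fintype_card]
  decide

lemma numVertices_addHair (G : Graph) (h : G.H) :
    (G.addHair h).numVertices = G.numVertices + 2 := by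
  have h1 := G.three_mul_numVertices
  have h2 := (G.addHair h).three_mul_numVertices
  rw [card_addHair, numUnivalent_addHair] at h2
  omega

lemma connected_addHair (G : Graph) (h : G.H) (hG : G.Connected) : (G.addHair h).Connected := by
  obtain ⟨⟨x0⟩, hc⟩ := hG
  set Rel : (G.addHair h).H → (G.addHair h).H → Prop :=
    fun a b => b = (G.addHair h).rot a ∨ b = (G.addHair h).opp a with hRel
  have hi : ∀ x y : G.H, Relation.EqvGen Rel (Sum.inl x) (Sum.inl y) := by
    have r01 : Relation.EqvGen Rel (Sum.inr 0) (Sum.inr 1) := by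
      refine Relation.EqvGen.symm _ _ (Relation.EqvGen.rel _ _ (Or.inl ?_))
      show _ = hairRot G.rot _
      rw [hairRot_inr, hairRot4_1]
    have roph : Relation.EqvGen Rel (Sum.inl h) (Sum.inl (G.opp h)) := by
      refine Relation.EqvGen.trans _ (Sum.inr 0) _ (Relation.EqvGen.rel _ _ (Or.inr ?_)) ?_
      · show _ = hairOpp G.opp h _
        rw [hairOpp_h G.opp_opp G.opp_ne]
      · refine Relation.EqvGen.trans _ _ _ r01 (Relation.EqvGen.rel _ _ (Or.inr ?_))
        show _ = hairOpp G.opp h _
        rw [hairOpp_1 G.opp_opp G.opp_ne]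
    intro x y
    induction hc x y with
    | rel a b hab =>
      rcases hab with hab | hab
      · refine Relation.EqvGen.rel _ _ (Or.inl ?_)
        rw [hab]; rfl
      · by_cases e1 : a = h
        · rw [hab, e1]; exact roph
        · by_cases e2 : a = G.opp h
          · rw [hab, e2, G.opp_opp]; exact Relation.EqvGen.symm _ _ roph
          · refine Relation.EqvGen.rel _ _ (Or.inr ?_)
            show _ = hairOpp G.opp h _
            rw [hairOpp_inl G.opp_opp G.opp_ne h e1 e2, hab]
    | refl a => exact Relation.EqvGen.refl _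
    | symm a b _ ih => exact Relation.EqvGen.symm _ _ ih
    | trans a b c _ _ ih1 ih2 => exact Relation.EqvGen.trans _ _ _ ih1 ih2
  have h0 : Relation.EqvGen Rel (Sum.inl h) (Sum.inr 0) := by
    refine Relation.EqvGen.rel _ _ (Or.inr ?_)
    show _ = hairOpp G.opp h _
    rw [hairOpp_h G.opp_opp G.opp_ne]
  have h2 : Relation.EqvGen Rel (Sum.inl h) (Sum.inr 2) := by
    refine Relation.EqvGen.trans _ _ _ h0 (Relation.EqvGen.rel _ _ (Or.inl ?_))
    show _ = hairRot G.rot _
    rw [hairRot_inr, hairRot4_0]
  have h1 : Relation.EqvGen Rel (Sum.inl h) (Sum.inr 1) := by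
    refine Relation.EqvGen.trans _ _ _ h2 (Relation.EqvGen.rel _ _ (Or.inl ?_))
    show _ = hairRot G.rot _
    rw [hairRot_inr, hairRot4_2]
  have h3 : Relation.EqvGen Rel (Sum.inl h) (Sum.inr 3) := by
    refine Relation.EqvGen.trans _ _ _ h2 (Relation.EqvGen.rel _ _ (Or.inr ?_))
    show _ = hairOpp G.opp h _
    rw [hairOpp_2 G.opp_opp G.opp_ne]
  have hall : ∀ x : G.H ⊕ Fin 4, Relation.EqvGen Rel (Sum.inl h) x := by
    rintro (x | i)
    · exact hi h x
    · fin_cases i
      · exact h0
      · exact h1
      · exact h2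
      · exact h3
  exact ⟨⟨Sum.inl x0⟩, fun x y =>
    Relation.EqvGen.trans _ _ _ (Relation.EqvGen.symm _ _ (hall x)) (hall y)⟩

/-- Attach several legs. -/
noncomputable def addHairs (M : MGraph ι) (l : List ι) : MGraph ι := l.foldr (fun i N => N.addHair i) M

lemma addHairs_connected (M : MGraph ι) (hM : M.G.Connected) (l : List ι) :
    (M.addHairs l).G.Connected := by
  induction l with
  | nil => exact hM
  | cons i l ih => exact connected_addHair _ _ ih

lemma addHairs_numVertices (M : MGraph ι) (l : List ι) :
    (M.addHairs l).G.numVertices = M.G.numVertices + 2 * l.length := by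
  induction l with
  | nil => rfl
  | cons i l ih =>
    have : (M.addHairs (i :: l)).G.numVertices = (M.addHairs l).G.numVertices + 2 :=
      numVertices_addHair _ _
    rw [this, ih, List.length_cons]; ring

lemma addHairs_numUnivalent (M : MGraph ι) (l : List ι) :
    (M.addHairs l).G.numUnivalent = M.G.numUnivalent + l.length := by
  induction l with
  | nil => rfl
  | cons i l ih =>
    have : (M.addHairs (i :: l)).G.numUnivalent = (M.addHairs l).G.numUnivalent + 1 :=
      numUnivalent_addHair _ _
    rw [this, ih, List.length_cons]; ring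

section value

variable {R : Type} [CommRing R] {L : Type} [Fintype L] [DecidableEq L]

/-- The state sum of a marked graph with a weight depending on the labels of the marks. -/
noncomputable def V (D : LieData R L) (M : MGraph ι) (g : (ι → L) → R) : R :=
  @LieData.Z R _ L _ _ D M.G.H (Fintype.ofFinite M.G.H) (Classical.decEq _) M.G.rot M.G.opp
    (fun φ => g (fun i => φ (M.mark i)))

lemma V_eq (D : LieData R L) (M : MGraph ι) (g : (ι → L) → R) (i : Fintype M.G.H)
    (j : DecidableEq M.G.H) :
    V D M g = @LieData.Z R _ L _ _ D M.G.H i j M.G.rot M.G.opp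
      (fun φ => g (fun i => φ (M.mark i))) := by
  unfold V
  have h1 : i = Fintype.ofFinite M.G.H := Subsingleton.elim _ _
  have h2 : j = Classical.decEq _ := Subsingleton.elim _ _
  rw [h1, h2]

lemma V_addHair (D : LieData R L) (M : MGraph ι) (i : ι) (g : (ι → L) → R) :
    V D (M.addHair i) g = V D M (fun l => D.wt (l i) * g l) := by
  let i1 := Fintype.ofFinite M.G.H
  let i2 : DecidableEq M.G.H := Graph.instDecEqH M.G
  have h1 : V D (M.addHair i) g = @LieData.Z R _ L _ _ D (M.G.H ⊕ Fin 4) _ _
      (hairRot M.G.rot) (hairOpp M.G.opp (M.mark i))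
      (fun φ => g (fun j => φ (Sum.inl (M.mark j)))) :=
    V_eq D (M.addHair i) g (inferInstanceAs (Fintype (M.G.H ⊕ Fin 4)))
      (inferInstanceAs (DecidableEq (M.G.H ⊕ Fin 4)))
  rw [h1, V_eq D M _ i1 i2]
  exact LieData.Z_hair M.G.rot M.G.opp M.G.opp_opp M.G.opp_ne (M.mark i)
    (fun φ => g (fun j => φ (M.mark j)))

lemma V_addHairs (D : LieData R L) (M : MGraph ι) (l : List ι) (g : (ι → L) → R) :
    V D (M.addHairs l) g = V D M (fun f => (l.map (fun i => D.wt (f i))).prod * g f) := by
  induction l generalizing g with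
  | nil => simp [addHairs]
  | cons i l ih =>
    have h1 : V D (M.addHairs (i :: l)) g = V D ((M.addHairs l).addHair i) g := rfl
    rw [h1, V_addHair, ih]
    congr 1
    funext f
    rw [List.map_cons, List.prod_cons]
    ring

lemma W_eq_V (D : LieData ℤ L) (M : MGraph ι) : D.W M.G = V D M (fun _ => 1) := rfl

end value

end MGraph

end Pool.Agent.H76.Dasbach
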