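import Mathlib

/-!
# The space of uni-trivalent (Jacobi) diagrams

Definitions of vertex-oriented uni-trivalent graphs, of the space `𝓑` of such graphs modulo the
relations AS and IHX, and of the numbers `β_{d,u}`.
-/

namespace Pool.Agent.H76.Dasbach

open Finsupp

/-- A finite vertex-oriented uni-trivalent graph, given by its half-edges.

* `H` is the finite set of half-edges (an edge consists of two half-edges);
* `opp h` is the other half of the edge containing the half-edge `h`
  (a fixed-point-free involution, so multiple edges and loops are allowed);
* `rot h` is the half-edge which follows `h` in the cyclic order at the vertex of `h`.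

The vertices are the orbits of `rot`.  As `rot` has order dividing three, every vertex has either
one half-edge (a univalent vertex) or three half-edges with a cyclic order (a trivalent vertex). -/
structure Graph : Type 1 where
  /-- the set of half-edges -/
  H : Type
  finite_H : Finite H
  /-- next half-edge at the same vertex -/
  rot : Equiv.Perm H
  /-- other half of the same edge -/
  opp : Equiv.Perm H
  rot_rot_rot : ∀ h, rot (rot (rot h)) = h
  opp_opp : ∀ h, opp (opp h) = h
  opp_ne : ∀ h, opp h ≠ h

namespace Graph

instance (G : Graph) : Finite G.H := G.finite_H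

noncomputable instance instDecEqH (G : Graph) : DecidableEq G.H := Classical.decEq _

/-- Two vertex-oriented graphs are isomorphic if there is a bijection between their half-edges
which preserves the edges, the vertices and the cyclic orders at the vertices. -/
def IsIso (G G' : Graph) : Prop :=
  ∃ e : G.H ≃ G'.H, (∀ h, e (G.rot h) = G'.rot (e h)) ∧ ∀ h, e (G.opp h) = G'.opp (e h)

/-- The vertices: the orbits of `rot`. -/
def Vertex (G : Graph) : Type := Quotient (Equiv.Perm.SameCycle.setoid G.rot)

/-- The number of vertices. -/
noncomputable def numVertices (G : Graph) : ℕ := Nat.card G.Vertex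

/-- The number of univalent vertices: a univalent vertex is a one-element orbit of `rot`,
i.e. a half-edge fixed by `rot`. -/
noncomputable def numUnivalent (G : Graph) : ℕ := Nat.card {h : G.H // G.rot h = h}

/-- A graph is connected if it is nonempty and any two half-edges can be joined by a chain of
half-edges in which consecutive ones lie at the same vertex or form an edge. -/
def Connected (G : Graph) : Prop :=
  Nonempty G.H ∧ ∀ x y : G.H, Relation.EqvGen (fun a b => b = G.rot a ∨ b = G.opp a) x y

/-- Change the incidence of half-edges and vertices by a permutation `τ` of the half-edges: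
the edges stay the same, and a vertex with half-edges `(a, b, c)` (in cyclic order) is replaced
by a vertex with half-edges `(τ a, τ b, τ c)` (in cyclic order). -/
def reattach (G : Graph) (τ : Equiv.Perm G.H) : Graph where
  H := G.H
  finite_H := G.finite_H
  rot := τ * G.rot * τ⁻¹
  opp := G.opp
  rot_rot_rot h := by simp [G.rot_rot_rot]
  opp_opp := G.opp_opp
  opp_ne := G.opp_ne

/-- Reversal of the cyclic order at the (trivalent) vertex `(h, a, b)` of `h`: it becomes
`(h, b, a)`. -/
noncomputable def flip (G : Graph) (h : G.H) : Graph :=
  G.reattach (Equiv.swap (G.rot h) (G.rot (G.rot h)))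

/-- The edge containing `h` joins two different trivalent vertices. -/
def IsInternal (G : Graph) (h : G.H) : Prop :=
  G.rot h ≠ h ∧ G.rot (G.opp h) ≠ G.opp h ∧ G.opp h ≠ G.rot h ∧ G.opp h ≠ G.rot (G.rot h)

/-- For an internal edge `{h, h'}` with end vertices `(h, a, b)` and `(h', c, d)`, the cyclic
permutation `a ↦ b ↦ c ↦ a` of the three half-edges `a, b, c`. -/
noncomputable def ihxPerm (G : Graph) (h : G.H) : Equiv.Perm G.H :=
  Equiv.swap (G.rot h) (G.rot (G.rot h)) * Equiv.swap (G.rot (G.rot h)) (G.rot (G.opp h))

end Graph

/-- Isomorphic graphs are identified. -/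
def isoRelators : Set (Graph →₀ ℚ) :=
  {x | ∃ G G' : Graph, G.IsIso G' ∧ x = single G 1 - single G' 1}

/-- The relation AS: reversing the cyclic order at one trivalent vertex multiplies the graph
by `-1`. -/
def asRelators : Set (Graph →₀ ℚ) :=
  {x | ∃ (G : Graph) (h : G.H), G.rot h ≠ h ∧ x = single G 1 + single (G.flip h) 1}

/-- The relation IHX.  Let `{h, h'}` be an edge whose ends are two different trivalent vertices
`(h, a, b)` and `(h', c, d)` (half-edges in cyclic order).  The three graphs which have there the
pairs of vertices `(h, a, b), (h', c, d)` and `(h, b, c), (h', a, d)` and `(h, c, a), (h', b, d)`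
and are otherwise identical add up to zero.  (In the usual pictures, with all vertices oriented
counterclockwise, this is `I = H - X`.) -/
def ihxRelators : Set (Graph →₀ ℚ) :=
  {x | ∃ (G : Graph) (h : G.H), G.IsInternal h ∧
    x = single G 1 + single (G.reattach (G.ihxPerm h)) 1
      + single (G.reattach (G.ihxPerm h * G.ihxPerm h)) 1}

/-- The subspace of relations. -/
noncomputable def relations : Submodule ℚ (Graph →₀ ℚ) :=
  Submodule.span ℚ (isoRelators ∪ asRelators ∪ ihxRelators)

/-- The space `𝓑` of vertex-oriented uni-trivalent graphs modulo isomorphism, AS and IHX. -/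
abbrev B : Type 1 := (Graph →₀ ℚ) ⧸ relations

/-- The class of a graph in `𝓑`. -/
noncomputable def cls (G : Graph) : B := relations.mkQ (single G 1)

/-- The subspace of `𝓑` spanned by the connected graphs with `2 d` vertices, exactly `u` of which
are univalent. -/
noncomputable def Bconn (d u : ℕ) : Submodule ℚ B :=
  Submodule.span ℚ {x | ∃ G : Graph, G.Connected ∧ G.numVertices = 2 * d ∧ G.numUnivalent = u ∧
    x = cls G}

/-- `β_{d,u}`, the dimension of that subspace. -/
noncomputable def beta (d u : ℕ) : ℕ := Module.finrank ℚ (Bconn d u)

end Pool.Agent.H76.Dasbach
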