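import Pool.Agent.H76.Dasbach.Core

/-!
# Evaluation of the state sum of the core for a root space decomposition
-/

namespace Pool.Agent.H76.Dasbach

open Finset

namespace LieData

variable {R : Type} [CommRing R] {L : Type} [Fintype L] [DecidableEq L] (D : LieData R L)

/-- Properties of a basis adapted to a root space decomposition. -/
structure IsRooted (cart : L → Prop) : Prop where
  tstar : ∀ a b c, D.T (D.star a) (D.star b) (D.star c) = - D.T a b c
  rt : ∀ l m x y, D.T l m x ≠ 0 → D.T (D.star l) (D.star m) y ≠ 0 →
    (cart x ∧ cart y) ∨ (¬ cart x ∧ y = D.star x)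
  cstar : ∀ x, cart x → D.star x = x
  czero : ∀ x a y, cart x → cart y → D.T x a y = 0

/-- bubble -/
def bub (g h : L → R) (x y : L) : R :=
  ∑ l, ∑ m, D.T l m x * D.T (D.star l) (D.star m) y * (g l * h m)

/-- bubble at a root -/
def qq (g h : L → R) (x : L) : R := ∑ l, ∑ m, D.T l m x ^ 2 * (g l * h m)

/-- bubble at the Cartan subalgebra -/
def cc (g h : L → R) (x y : L) : R := ∑ l, ∑ m, D.T l m x * D.T l m y * (g l * h m)

/-- number of connecting labels -/
def nn (x z : L) : R := ∑ a, D.T x a z ^ 2

/-- the quadratic form of the Cartan part of a bubble on the roots -/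
def ck (cart : L → Prop) [DecidablePred cart] (g h : L → R) (x : L) : R :=
  ∑ l, ∑ m, (∑ a, (∑ z, if cart z then D.T a (D.star x) z * D.T l m z else 0) ^ 2) * (g l * h m)

variable {D} {cart : L → Prop} [DecidablePred cart]

lemma sum_star {M : Type} [AddCommMonoid M] (f : L → M) : ∑ x, f (D.star x) = ∑ x, f x := by
  refine Finset.sum_bij' (fun z _ => D.star z) (fun z _ => D.star z) ?_ ?_ ?_ ?_ ?_
  · intros; simp
  · intros; simp
  · intros; simp [D.star_star]
  · intros; simp [D.star_star]
  · intros; rfl

lemma IsRooted.not_cart_star (hD : D.IsRooted cart) {x : L} (hx : ¬ cart x) :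
    ¬ cart (D.star x) := by
  intro h
  have := hD.cstar _ h
  rw [D.star_star] at this
  exact hx (this ▸ h)

lemma bub_eq (hD : D.IsRooted cart) (g h : L → R) (x y : L) :
    D.bub g h x y = (if ¬ cart x ∧ y = D.star x then - D.qq g h x else 0)
      + (if cart x ∧ cart y then - D.cc g h x y else 0) := by
  by_cases h1 : ¬ cart x ∧ y = D.star x
  · rw [if_pos h1, if_neg (fun h' => h1.1 h'.1), add_zero]
    unfold bub qq
    rw [← Finset.sum_neg_distrib]
    refine Finset.sum_congr rfl fun l _ => ?_
    rw [← Finset.sum_neg_distrib]
    refine Finset.sum_congr rfl fun m _ => ?_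
    rw [h1.2, hD.tstar]
    ring
  · rw [if_neg h1, zero_add]
    by_cases h2 : cart x ∧ cart y
    · rw [if_pos h2]
      unfold bub cc
      rw [← Finset.sum_neg_distrib]
      refine Finset.sum_congr rfl fun l _ => ?_
      rw [← Finset.sum_neg_distrib]
      refine Finset.sum_congr rfl fun m _ => ?_
      have : D.T (D.star l) (D.star m) y = - D.T l m y := by
        rw [← hD.tstar, hD.cstar y h2.2]
      rw [this]
      ring
    · rw [if_neg h2]
      unfold bub
      refine Finset.sum_eq_zero fun l _ => Finset.sum_eq_zero fun m _ => ?_
      by_cases e1 : D.T l m x = 0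
      · rw [e1]; ring
      · by_cases e2 : D.T (D.star l) (D.star m) y = 0
        · rw [e2]; ring
        · exfalso
          rcases hD.rt l m x y e1 e2 with h' | h'
          · exact h2 h'
          · exact h1 h'

lemma sum_bub (hD : D.IsRooted cart) (g h : L → R) (F : L → L → R) :
    ∑ x, ∑ y, D.bub g h x y * F x y
      = - (∑ x, (if cart x then 0 else D.qq g h x * F x (D.star x)))
        - ∑ x, ∑ y, (if cart x ∧ cart y then D.cc g h x y * F x y else 0) := by
  rw [← Finset.sum_neg_distrib, ← Finset.sum_sub_distrib]
  refine Finset.sum_congr rfl fun x _ => ?_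
  simp only [bub_eq hD, add_mul, Finset.sum_add_distrib]
  rw [sub_eq_add_neg]
  congr 1
  · by_cases hx : cart x
    · simp [hx]
    · simp only [hx, not_false_eq_true, true_and, if_false, ite_mul, zero_mul]
      rw [Finset.sum_ite_eq' Finset.univ (D.star x)]
      simp
  · rw [← Finset.sum_neg_distrib]
    refine Finset.sum_congr rfl fun y _ => ?_
    split_ifs <;> ring

/-- The sum obtained from `Z_core`. -/
lemma core_sum (g h g' h' : L → R) :
    (∑ x, ∑ y, ∑ a, ∑ z, ∑ w, ∑ l, ∑ m, ∑ l', ∑ m',
      D.T l m x * D.T (D.star l) (D.star m) y * D.T (D.star x) a z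
      * D.T (D.star y) (D.star a) w * D.T (D.star z) l' m' * D.T (D.star w) (D.star l') (D.star m')
      * (g l * h m * g' l' * h' m'))
    = ∑ x, ∑ y, D.bub g h x y * ∑ z, ∑ w, D.bub g' h' z w *
        ∑ a, D.T (D.star x) a (D.star z) * D.T (D.star y) (D.star a) (D.star w) := by
  refine Finset.sum_congr rfl fun x _ => Finset.sum_congr rfl fun y _ => ?_
  have h1 : ∀ z w, D.bub g' h' (D.star z) (D.star w)
      = ∑ l', ∑ m', D.T (D.star z) l' m' * D.T (D.star w) (D.star l') (D.star m')
        * (g' l' * h' m') := by
    intro z w
    unfold bub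
    refine Finset.sum_congr rfl fun l _ => Finset.sum_congr rfl fun m _ => ?_
    rw [D.cyc (D.star z) l m, D.cyc (D.star w) (D.star l) (D.star m)]
  have h2 : ∑ z, ∑ w, D.bub g' h' z w *
        ∑ a, D.T (D.star x) a (D.star z) * D.T (D.star y) (D.star a) (D.star w)
      = ∑ z, ∑ w, D.bub g' h' (D.star z) (D.star w) *
        ∑ a, D.T (D.star x) a z * D.T (D.star y) (D.star a) w := by
    rw [← sum_star (D := D)]
    refine Finset.sum_congr rfl fun z _ => ?_
    rw [← sum_star (D := D)]
    refine Finset.sum_congr rfl fun w _ => ?_
    rw [D.star_star, D.star_star]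
  rw [h2]
  have h3 : ∀ a z w, ∑ l, ∑ m, ∑ l', ∑ m',
      D.T l m x * D.T (D.star l) (D.star m) y * D.T (D.star x) a z
      * D.T (D.star y) (D.star a) w * D.T (D.star z) l' m' * D.T (D.star w) (D.star l') (D.star m')
      * (g l * h m * g' l' * h' m')
      = D.bub g h x y * (D.bub g' h' (D.star z) (D.star w) *
        (D.T (D.star x) a z * D.T (D.star y) (D.star a) w)) := by
    intro a z w
    rw [h1]
    unfold bub
    rw [Finset.sum_mul]
    refine Finset.sum_congr rfl fun l _ => ?_
    rw [Finset.sum_mul]
    refine Finset.sum_congr rfl fun m _ => ?_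
    rw [Finset.sum_mul, Finset.mul_sum]
    refine Finset.sum_congr rfl fun l' _ => ?_
    rw [Finset.sum_mul, Finset.mul_sum]
    refine Finset.sum_congr rfl fun m' _ => ?_
    ring
  simp only [h3]
  rw [Finset.mul_sum, Finset.sum_comm]
  refine Finset.sum_congr rfl fun z _ => ?_
  rw [Finset.mul_sum, Finset.sum_comm]
  refine Finset.sum_congr rfl fun w _ => ?_
  rw [Finset.mul_sum, Finset.mul_sum]

/-- Evaluation of the core. -/
lemma core_eval (hD : D.IsRooted cart) (g h g' h' : L → R) :
    (∑ x, ∑ y, D.bub g h x y * ∑ z, ∑ w, D.bub g' h' z w *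
        ∑ a, D.T (D.star x) a (D.star z) * D.T (D.star y) (D.star a) (D.star w))
      = - (∑ x, (if cart x then 0 else D.qq g h x *
            ∑ z, (if cart z then 0 else D.qq g' h' z * D.nn x z)))
        - (∑ x, (if cart x then 0 else D.qq g h x * D.ck cart g' h' x))
        - (∑ x, (if cart x then 0 else D.qq g' h' x * D.ck cart g h x)) := by
  rw [sum_bub hD g h]
  simp only [sum_bub hD g' h']
  -- first part
  have hA : ∀ x, ¬ cart x →
      (- (∑ z, if cart z then 0 else D.qq g' h' z *
          ∑ a, D.T (D.star x) a (D.star z) * D.T (D.star (D.star x)) (D.star a)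
            (D.star (D.star z)))
        - ∑ z, ∑ w, if cart z ∧ cart w then D.cc g' h' z w *
          ∑ a, D.T (D.star x) a (D.star z) * D.T (D.star (D.star x)) (D.star a) (D.star w)
          else 0)
      = (∑ z, (if cart z then 0 else D.qq g' h' z * D.nn x z)) + D.ck cart g' h' x := by
    intro x hx
    rw [sub_eq_add_neg]
    congr 1
    · rw [← Finset.sum_neg_distrib]
      refine Finset.sum_congr rfl fun z _ => ?_
      split_ifs with hz
      · simp
      · rw [← mul_neg]
        congr 1
        unfold nn
        rw [← sum_star (D := D) (fun a => D.T x a z ^ 2), ← Finset.sum_neg_distrib]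
        refine Finset.sum_congr rfl fun a _ => ?_
        have : D.T (D.star x) a (D.star z) = - D.T x (D.star a) z := by
          rw [← hD.tstar x (D.star a) z, D.star_star]
        rw [this, D.star_star, D.star_star]
        ring
    · unfold ck
      have e1 : ∀ z w, (if cart z ∧ cart w then D.cc g' h' z w *
          ∑ a, D.T (D.star x) a (D.star z) * D.T (D.star (D.star x)) (D.star a) (D.star w)
          else 0) = - ∑ l, ∑ m, ∑ a, (if cart z then D.T a (D.star x) z * D.T l m z else 0)
            * (if cart w then D.T a (D.star x) w * D.T l m w else 0) * (g' l * h' m) := by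
        intro z w
        by_cases hz : cart z
        swap
        · simp [hz]
        by_cases hw : cart w
        swap
        · simp [hw]
        simp only [hz, hw, and_self, if_true]
        unfold cc
        rw [Finset.sum_mul, ← Finset.sum_neg_distrib]
        refine Finset.sum_congr rfl fun l _ => ?_
        rw [Finset.sum_mul, ← Finset.sum_neg_distrib]
        refine Finset.sum_congr rfl fun m _ => ?_
        rw [Finset.mul_sum, ← Finset.sum_neg_distrib]
        refine Finset.sum_congr rfl fun a _ => ?_
        have t1 : D.T (D.star x) a (D.star z) = - D.T a (D.star x) z := by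
          rw [hD.cstar z hz, ← D.anti]
        have t2 : D.T (D.star (D.star x)) (D.star a) (D.star w) = D.T a (D.star x) w := by
          rw [hD.tstar, ← D.anti]
        rw [t1, t2]
        ring
      simp only [e1, Finset.sum_neg_distrib, neg_neg]
      have e2 : ∀ l m a, (∑ z, if cart z then D.T a (D.star x) z * D.T l m z else 0) ^ 2
          = ∑ z, ∑ w, (if cart z then D.T a (D.star x) z * D.T l m z else 0)
            * (if cart w then D.T a (D.star x) w * D.T l m w else 0) := by
        intro l m a
        rw [pow_two, Finset.sum_mul_sum]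
      simp only [e2, Finset.sum_mul]
      calc _ = ∑ z, ∑ l, ∑ w, ∑ m, ∑ a, (if cart z then D.T a (D.star x) z * D.T l m z else 0)
            * (if cart w then D.T a (D.star x) w * D.T l m w else 0) * (g' l * h' m) :=
            Finset.sum_congr rfl fun z _ => Finset.sum_comm
        _ = ∑ l, ∑ z, ∑ w, ∑ m, ∑ a, (if cart z then D.T a (D.star x) z * D.T l m z else 0)
            * (if cart w then D.T a (D.star x) w * D.T l m w else 0) * (g' l * h' m) :=
            Finset.sum_comm
        _ = ∑ l, ∑ z, ∑ m, ∑ w, ∑ a, (if cart z then D.T a (D.star x) z * D.T l m z else 0)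
            * (if cart w then D.T a (D.star x) w * D.T l m w else 0) * (g' l * h' m) :=
            Finset.sum_congr rfl fun l _ => Finset.sum_congr rfl fun z _ => Finset.sum_comm
        _ = ∑ l, ∑ m, ∑ z, ∑ w, ∑ a, (if cart z then D.T a (D.star x) z * D.T l m z else 0)
            * (if cart w then D.T a (D.star x) w * D.T l m w else 0) * (g' l * h' m) :=
            Finset.sum_congr rfl fun l _ => Finset.sum_comm
        _ = ∑ l, ∑ m, ∑ z, ∑ a, ∑ w, (if cart z then D.T a (D.star x) z * D.T l m z else 0)
            * (if cart w then D.T a (D.star x) w * D.T l m w else 0) * (g' l * h' m) :=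
            Finset.sum_congr rfl fun l _ => Finset.sum_congr rfl fun m _ =>
              Finset.sum_congr rfl fun z _ => Finset.sum_comm
        _ = _ := Finset.sum_congr rfl fun l _ => Finset.sum_congr rfl fun m _ => Finset.sum_comm
  -- second part
  have hB : ∀ x y, cart x → cart y →
      (- (∑ z, if cart z then 0 else D.qq g' h' z *
          ∑ a, D.T (D.star x) a (D.star z) * D.T (D.star y) (D.star a)
            (D.star (D.star z)))
        - ∑ z, ∑ w, if cart z ∧ cart w then D.cc g' h' z w *
          ∑ a, D.T (D.star x) a (D.star z) * D.T (D.star y) (D.star a) (D.star w)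
          else 0)
      = ∑ z, (if cart z then 0 else D.qq g' h' z *
          ∑ a, D.T a (D.star z) x * D.T a (D.star z) y) := by
    intro x y hx hy
    have e0 : ∑ z, ∑ w, (if cart z ∧ cart w then D.cc g' h' z w *
          ∑ a, D.T (D.star x) a (D.star z) * D.T (D.star y) (D.star a) (D.star w)
          else 0) = 0 := by
      refine Finset.sum_eq_zero fun z _ => Finset.sum_eq_zero fun w _ => ?_
      split_ifs with hzw
      · rw [hD.cstar x hx, hD.cstar z hzw.1]
        simp [hD.czero x _ z hx hzw.1]
      · rfl
    rw [e0, sub_zero, ← Finset.sum_neg_distrib]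
    refine Finset.sum_congr rfl fun z _ => ?_
    split_ifs with hz
    · simp
    · rw [← mul_neg, ← Finset.sum_neg_distrib]
      congr 1
      refine Finset.sum_congr rfl fun a _ => ?_
      have t1 : D.T (D.star x) a (D.star z) = D.T a (D.star z) x := by
        rw [hD.cstar x hx, D.cyc]
      have t2 : D.T (D.star y) (D.star a) (D.star (D.star z)) = - D.T a (D.star z) y := by
        rw [hD.tstar, D.cyc]
      rw [t1, t2]
      ring
  have hA' : ∑ x, (if cart x then 0 else D.qq g h x *
      (- (∑ z, if cart z then 0 else D.qq g' h' z *
          ∑ a, D.T (D.star x) a (D.star z) * D.T (D.star (D.star x)) (D.star a)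
            (D.star (D.star z)))
        - ∑ z, ∑ w, if cart z ∧ cart w then D.cc g' h' z w *
          ∑ a, D.T (D.star x) a (D.star z) * D.T (D.star (D.star x)) (D.star a) (D.star w)
          else 0))
      = (∑ x, (if cart x then 0 else D.qq g h x *
            ∑ z, (if cart z then 0 else D.qq g' h' z * D.nn x z)))
        + (∑ x, (if cart x then 0 else D.qq g h x * D.ck cart g' h' x)) := by
    rw [← Finset.sum_add_distrib]
    refine Finset.sum_congr rfl fun x _ => ?_
    by_cases hx : cart x
    · simp [hx]
    · rw [if_neg hx, if_neg hx, if_neg hx, hA x hx, mul_add]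
  have hB' : ∑ x, ∑ y, (if cart x ∧ cart y then D.cc g h x y *
      (- (∑ z, if cart z then 0 else D.qq g' h' z *
          ∑ a, D.T (D.star x) a (D.star z) * D.T (D.star y) (D.star a)
            (D.star (D.star z)))
        - ∑ z, ∑ w, if cart z ∧ cart w then D.cc g' h' z w *
          ∑ a, D.T (D.star x) a (D.star z) * D.T (D.star y) (D.star a) (D.star w)
          else 0) else 0)
      = ∑ x, (if cart x then 0 else D.qq g' h' x * D.ck cart g h x) := by
    have e1 : ∀ x y, (if cart x ∧ cart y then D.cc g h x y *
      (- (∑ z, if cart z then 0 else D.qq g' h' z *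
          ∑ a, D.T (D.star x) a (D.star z) * D.T (D.star y) (D.star a)
            (D.star (D.star z)))
        - ∑ z, ∑ w, if cart z ∧ cart w then D.cc g' h' z w *
          ∑ a, D.T (D.star x) a (D.star z) * D.T (D.star y) (D.star a) (D.star w)
          else 0) else 0)
      = ∑ z, (if cart z then 0 else D.qq g' h' z * ∑ l, ∑ m, ∑ a,
          (if cart x then D.T a (D.star z) x * D.T l m x else 0)
            * (if cart y then D.T a (D.star z) y * D.T l m y else 0) * (g l * h m)) := by
      intro x y
      by_cases hx : cart x
      swap
      · simp [hx]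
      by_cases hy : cart y
      swap
      · simp [hy]
      rw [if_pos ⟨hx, hy⟩, hB x y hx hy, Finset.mul_sum]
      refine Finset.sum_congr rfl fun z _ => ?_
      split_ifs with hz
      · simp
      · unfold cc
        rw [mul_left_comm]
        congr 1
        rw [Finset.sum_mul]
        refine Finset.sum_congr rfl fun l _ => ?_
        rw [Finset.sum_mul]
        refine Finset.sum_congr rfl fun m _ => ?_
        rw [Finset.mul_sum]
        refine Finset.sum_congr rfl fun a _ => ?_
        ring
    simp only [e1]
    calc _ = ∑ x, ∑ z, ∑ y, (if cart z then 0 else D.qq g' h' z * ∑ l, ∑ m, ∑ a,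
          (if cart x then D.T a (D.star z) x * D.T l m x else 0)
            * (if cart y then D.T a (D.star z) y * D.T l m y else 0) * (g l * h m)) :=
          Finset.sum_congr rfl fun x _ => Finset.sum_comm
      _ = ∑ z, ∑ x, ∑ y, (if cart z then 0 else D.qq g' h' z * ∑ l, ∑ m, ∑ a,
          (if cart x then D.T a (D.star z) x * D.T l m x else 0)
            * (if cart y then D.T a (D.star z) y * D.T l m y else 0) * (g l * h m)) :=
          Finset.sum_comm
      _ = _ := by
          refine Finset.sum_congr rfl fun z _ => ?_
          by_cases hz : cart z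
          · simp [hz]
          · simp only [if_neg hz, ← Finset.mul_sum]
            congr 1
            unfold ck
            have e2 : ∀ l m a, (∑ x, if cart x then D.T a (D.star z) x * D.T l m x else 0) ^ 2
                = ∑ x, ∑ y, (if cart x then D.T a (D.star z) x * D.T l m x else 0)
                  * (if cart y then D.T a (D.star z) y * D.T l m y else 0) := by
              intro l m a
              rw [pow_two, Finset.sum_mul_sum]
            simp only [e2, Finset.sum_mul]
            calc _ = ∑ x, ∑ l, ∑ y, ∑ m, ∑ a,
                  (if cart x then D.T a (D.star z) x * D.T l m x else 0)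
                  * (if cart y then D.T a (D.star z) y * D.T l m y else 0) * (g l * h m) :=
                  Finset.sum_congr rfl fun x _ => Finset.sum_comm
              _ = ∑ l, ∑ x, ∑ y, ∑ m, ∑ a,
                  (if cart x then D.T a (D.star z) x * D.T l m x else 0)
                  * (if cart y then D.T a (D.star z) y * D.T l m y else 0) * (g l * h m) :=
                  Finset.sum_comm
              _ = ∑ l, ∑ x, ∑ m, ∑ y, ∑ a,
                  (if cart x then D.T a (D.star z) x * D.T l m x else 0)
                  * (if cart y then D.T a (D.star z) y * D.T l m y else 0) * (g l * h m) :=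
                  Finset.sum_congr rfl fun l _ => Finset.sum_congr rfl fun x _ => Finset.sum_comm
              _ = ∑ l, ∑ m, ∑ x, ∑ y, ∑ a,
                  (if cart x then D.T a (D.star z) x * D.T l m x else 0)
                  * (if cart y then D.T a (D.star z) y * D.T l m y else 0) * (g l * h m) :=
                  Finset.sum_congr rfl fun l _ => Finset.sum_comm
              _ = ∑ l, ∑ m, ∑ x, ∑ a, ∑ y,
                  (if cart x then D.T a (D.star z) x * D.T l m x else 0)
                  * (if cart y then D.T a (D.star z) y * D.T l m y else 0) * (g l * h m) :=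
                  Finset.sum_congr rfl fun l _ => Finset.sum_congr rfl fun m _ =>
                    Finset.sum_congr rfl fun x _ => Finset.sum_comm
              _ = _ := Finset.sum_congr rfl fun l _ => Finset.sum_congr rfl fun m _ =>
                    Finset.sum_comm
  rw [hA', hB']
  ring

end LieData

end Pool.Agent.H76.Dasbach
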