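import Pool.Agent.H76.Dasbach.Weight

/-!
# The functionals on `𝓑`
-/

namespace Pool.Agent.H76.Dasbach

open Finset

namespace LieData

variable {L : Type} [Fintype L] [DecidableEq L]

lemma Z_inst {R : Type} [CommRing R] (D : LieData R L) {H : Type} (i1 i2 : Fintype H)
    (j1 j2 : DecidableEq H) (rot opp : Equiv.Perm H) (Ω : (H → L) → R) :
    @Z R _ L _ _ D H i1 j1 rot opp Ω = @Z R _ L _ _ D H i2 j2 rot opp Ω := by
  have h1 : i1 = i2 := Subsingleton.elim _ _
  have h2 : j1 = j2 := Subsingleton.elim _ _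
  subst h1
  subst h2
  rfl

/-- The value of the weight system on a graph. -/
noncomputable def W (D : LieData ℤ L) (G : Graph) : ℤ :=
  @Z ℤ _ L _ _ D G.H (Fintype.ofFinite G.H) (Classical.decEq _) G.rot G.opp (fun _ => 1)

lemma W_eq (D : LieData ℤ L) (G : Graph) (i : Fintype G.H) (j : DecidableEq G.H) :
    D.W G = @Z ℤ _ L _ _ D G.H i j G.rot G.opp (fun _ => 1) := Z_inst D _ _ _ _ _ _ _

/-- The linear functional on formal combinations of graphs. -/
noncomputable def Wlin (D : LieData ℤ L) : (Graph →₀ ℚ) →ₗ[ℚ] ℚ :=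
  Finsupp.linearCombination ℚ (fun G => (D.W G : ℚ))

lemma Wlin_single (D : LieData ℤ L) (G : Graph) : D.Wlin (Finsupp.single G 1) = D.W G := by
  simp [Wlin]

lemma relations_le_ker [Nonempty L] (D : LieData ℤ L) : relations ≤ LinearMap.ker D.Wlin := by
  unfold relations
  rw [Submodule.span_le]
  rintro x ((⟨G, G', ⟨e, hr, ho⟩, rfl⟩ | ⟨G, h, hh, rfl⟩) | ⟨G, h, ⟨h1, h2, h3, h4⟩, rfl⟩)
  · simp only [SetLike.mem_coe, LinearMap.mem_ker, map_sub, Wlin_single]
    have : D.W G' = D.W G := by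
      let i1 := Fintype.ofFinite G.H
      let i2 := Fintype.ofFinite G'.H
      rw [W_eq D G' i2 (Classical.decEq _), W_eq D G i1 (Classical.decEq _)]
      exact Z_iso (D := D) G.rot G.opp G'.rot G'.opp e hr ho (fun _ => 1)
    rw [this, sub_self]
  · simp only [SetLike.mem_coe, LinearMap.mem_ker, map_add, Wlin_single]
    have : D.W (G.flip h) = - D.W G := by
      let i1 := Fintype.ofFinite G.H
      rw [W_eq D (G.flip h) i1 (Graph.instDecEqH G), W_eq D G i1 (Graph.instDecEqH G)]
      exact Z_as (D := D) G.rot G.opp G.rot_rot_rot hh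
    rw [this]
    push_cast
    ring
  · simp only [SetLike.mem_coe, LinearMap.mem_ker, map_add, Wlin_single]
    let i1 := Fintype.ofFinite G.H
    have := Z_ihx (D := D) G.rot G.opp G.rot_rot_rot G.opp_opp G.opp_ne h1 h2 h3 h4
      (G.ihxPerm h) rfl
    rw [W_eq D G i1 (Graph.instDecEqH G),
      W_eq D (G.reattach (G.ihxPerm h)) i1 (Graph.instDecEqH G),
      W_eq D (G.reattach (G.ihxPerm h * G.ihxPerm h)) i1 (Graph.instDecEqH G)]
    exact_mod_cast this

/-- The functional on `𝓑`. -/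
noncomputable def WB [Nonempty L] (D : LieData ℤ L) : B →ₗ[ℚ] ℚ :=
  relations.liftQ D.Wlin D.relations_le_ker

lemma WB_cls [Nonempty L] (D : LieData ℤ L) (G : Graph) : D.WB (cls G) = D.W G := by
  unfold WB cls
  rw [Submodule.mkQ_apply, Submodule.liftQ_apply, Wlin_single]

end LieData

end Pool.Agent.H76.Dasbach
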