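import Pool.Agent.H76.Dasbach.Table

/-!
# The Lie algebra `gl_n`
-/

namespace Pool.Agent.H76.Dasbach

open Finset

section trace

variable {I : Type} [Fintype I] [DecidableEq I] {R : Type} [CommRing R]

lemma trace_cyc4 (A B C D : Matrix I I R) :
    Matrix.trace (A * B * C * D) = Matrix.trace (B * C * D * A) := by
  rw [Matrix.mul_assoc, Matrix.mul_assoc, Matrix.trace_mul_comm, ← Matrix.mul_assoc]

lemma trace_jacobi (A B C D : Matrix I I R) :
    Matrix.trace ((A * B - B * A) * (C * D - D * C)) + Matrix.trace ((B * C - C * B) * (A * D - D * A))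
      + Matrix.trace ((C * A - A * C) * (B * D - D * B)) = 0 := by
  have e : ∀ A B C D : Matrix I I R, (A * B - B * A) * (C * D - D * C)
      = A * B * C * D - A * B * D * C - B * A * C * D + B * A * D * C := by
    intros; noncomm_ring
  rw [e, e, e]
  simp only [Matrix.trace_add, Matrix.trace_sub]
  have h1 := trace_cyc4 A B C D
  have h2 := trace_cyc4 C A B D
  have h3 := trace_cyc4 B A C D
  have h4 := trace_cyc4 C B A D
  have h5 := trace_cyc4 B C A D
  have h6 := trace_cyc4 A C B D
  linear_combination h1 + h2 - h3 - h4 + h5 - h6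

end trace

section gl

variable {I : Type} [Fintype I] [DecidableEq I] {R : Type} [CommRing R]

/-- trace of the product of three elementary matrices -/
def glP (R : Type) [CommRing R] (a b c : I × I) : R :=
  if a.2 = b.1 ∧ b.2 = c.1 ∧ c.2 = a.1 then 1 else 0

omit [Fintype I] in
lemma glP_cyc (a b c : I × I) : glP R a b c = glP R b c a := by
  unfold glP
  refine if_congr ?_ rfl rfl
  tauto

/-- elementary matrix -/
def EE (R : Type) [CommRing R] (a : I × I) : Matrix I I R := Matrix.of fun i j =>
  if a.1 = i ∧ a.2 = j then 1 else 0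

lemma EE_mul (a b : I × I) (i j : I) :
    (EE R a * EE R b) i j = if a.1 = i ∧ a.2 = b.1 ∧ b.2 = j then 1 else 0 := by
  rw [Matrix.mul_apply, Finset.sum_eq_single a.2]
  · simp only [EE, Matrix.of_apply]
    by_cases h1 : a.1 = i <;> by_cases h2 : a.2 = b.1 <;> by_cases h3 : b.2 = j <;>
      simp [h1, h2, h3, eq_comm]
    intro h4
    exact absurd h4.symm h2
  · intro k _ hk
    simp [EE, Ne.symm hk]
  · intro h'; exact absurd (Finset.mem_univ _) h'

lemma glT_eq (l a b : I × I) : glP R l a b - glP R a l b
    = (EE R a * EE R b - EE R b * EE R a) l.2 l.1 := by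
  rw [Matrix.sub_apply, EE_mul, EE_mul]
  unfold glP
  congr 1
  · refine if_congr ?_ rfl rfl
    constructor
    · rintro ⟨h1, h2, h3⟩; exact ⟨h1.symm, h2, h3⟩
    · rintro ⟨h1, h2, h3⟩; exact ⟨h1.symm, h2, h3⟩
  · refine if_congr ?_ rfl rfl
    constructor
    · rintro ⟨h1, h2, h3⟩; exact ⟨h2.symm, h3, h1⟩
    · rintro ⟨h1, h2, h3⟩; exact ⟨h3, h1.symm, h2⟩

/-- The Lie algebra `gl` with a diagonal matrix `x`. -/
def glData (x : I → R) : LieData R (I × I) where
  star := Prod.swap
  star_star := Prod.swap_swap
  T a b c := glP R a b c - glP R b a c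
  cyc a b c := by rw [glP_cyc a b c, ← glP_cyc c b a]
  anti a b c := by ring
  cube a b c := by
    unfold glP
    split_ifs <;> ring
  jacobi a b c d := by
    have h : ∀ X Y : Matrix I I R, ∑ l : I × I, X l.2 l.1 * Y l.1 l.2 = Matrix.trace (X * Y) := by
      intro X Y
      rw [Fintype.sum_prod_type, Finset.sum_comm]
      rfl
    simp only [glT_eq, Finset.sum_add_distrib, Prod.fst_swap, Prod.snd_swap]
    rw [h, h, h]
    exact trace_jacobi _ _ _ _
  u l := if l.1 = l.2 then x l.1 else 0
  wt l := x l.1 - x l.2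
  hair a b := by
    rw [Fintype.sum_prod_type]
    simp only [mul_ite, mul_zero, Finset.sum_ite_eq, Finset.mem_univ, if_true, Prod.swap_prod_mk,
      sub_mul, Finset.sum_sub_distrib]
    have h1 : ∑ i, glP R a b (i, i) * x i = if b = Prod.swap a then x a.1 else 0 := by
      rw [Finset.sum_eq_single a.1]
      · unfold glP
        by_cases h : b = Prod.swap a
        · subst h; simp
        · rw [if_neg h, if_neg]
          · ring
          · rintro ⟨h1, h2, h3⟩
            exact h (Prod.ext h1.symm h2)
      · intro i _ hi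
        unfold glP
        rw [if_neg]
        · ring
        · rintro ⟨h1, h2, h3⟩
          exact hi h3
      · intro h'; exact absurd (Finset.mem_univ _) h'
    have h2 : ∑ i, glP R b a (i, i) * x i = if b = Prod.swap a then x a.2 else 0 := by
      rw [Finset.sum_eq_single a.2]
      · unfold glP
        by_cases h : b = Prod.swap a
        · subst h; simp
        · rw [if_neg h, if_neg]
          · ring
          · rintro ⟨h1, h2, h3⟩
            exact h (Prod.ext h3.symm h1)
      · intro i _ hi
        unfold glP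
        rw [if_neg]
        · ring
        · rintro ⟨h1, h2, h3⟩
          exact hi h2.symm
      · intro h'; exact absurd (Finset.mem_univ _) h'
    rw [h1, h2]
    split_ifs <;> ring

omit [Fintype I] in
lemma glP_ne (a b c : I × I) (h : glP R a b c ≠ 0) : a.2 = b.1 ∧ b.2 = c.1 ∧ c.2 = a.1 := by
  unfold glP at h
  by_contra h'
  rw [if_neg h'] at h
  exact h rfl

lemma gl_weight (x : I → R) (c : I → ℤ) (l m y : I × I) (h : (glData x).T l m y ≠ 0) :
    (c l.1 - c l.2) + (c m.1 - c m.2) + (c y.1 - c y.2) = 0 := by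
  have : glP R l m y ≠ 0 ∨ glP R m l y ≠ 0 := by
    by_contra h'
    push Not at h'
    apply h
    show glP R l m y - glP R m l y = 0
    rw [h'.1, h'.2, sub_zero]
  rcases this with h1 | h1
  · obtain ⟨e1, e2, e3⟩ := glP_ne _ _ _ h1
    rw [e1, e2, e3]; ring
  · obtain ⟨e1, e2, e3⟩ := glP_ne _ _ _ h1
    rw [e1, e2, e3]; ring

end gl

end Pool.Agent.H76.Dasbach
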