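import Pool.Agent.H76.Dasbach.GL
import Pool.Agent.H76.Dasbach.Code

/-!
# The Lie algebra `gl_5`: tables
-/

namespace Pool.Agent.H76.Dasbach

open Finset

/-- Five indices. -/
inductive I5 : Type
  | i0 | i1 | i2 | i3 | i4
  deriving DecidableEq

namespace I5

instance : Fintype I5 where
  elems := {i0, i1, i2, i3, i4}
  complete := by intro x; cases x <;> decide

/-- number of an index -/
def idx : I5 → ℕ
  | i0 => 0
  | i1 => 1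
  | i2 => 2
  | i3 => 3
  | i4 => 4

lemma idx_inj : ∀ a b : I5, idx a = idx b → a = b := by decide

end I5

/-- Cartan labels -/
def cart5 (l : I5 × I5) : Prop := l.1 = l.2

instance : DecidablePred cart5 := fun l => inferInstanceAs (Decidable (l.1 = l.2))

/-- roots of `gl_5` -/
def roots5 : List (I5 × I5) := [(.i0, .i1), (.i0, .i2), (.i0, .i3), (.i0, .i4), (.i1, .i0), (.i1, .i2), (.i1, .i3), (.i1, .i4), (.i2, .i0), (.i2, .i1), (.i2, .i3), (.i2, .i4), (.i3, .i0), (.i3, .i1), (.i3, .i2), (.i3, .i4), (.i4, .i0), (.i4, .i1), (.i4, .i2), (.i4, .i3)]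

/-- bubble table -/
def tq5 (x : I5 × I5) : List ((I5 × I5) × (I5 × I5)) :=
  [((x.2, .i0), (.i0, x.1)), ((.i0, x.1), (x.2, .i0)),
    ((x.2, .i1), (.i1, x.1)), ((.i1, x.1), (x.2, .i1)),
    ((x.2, .i2), (.i2, x.1)), ((.i2, x.1), (x.2, .i2)),
    ((x.2, .i3), (.i3, x.1)), ((.i3, x.1), (x.2, .i3)),
    ((x.2, .i4), (.i4, x.1)), ((.i4, x.1), (x.2, .i4))]

/-- connection table -/
def tn5 : I5 × I5 → List (I5 × I5)
  | (.i0, .i0) => []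
  | (.i0, .i1) => [(.i1, .i0), (.i1, .i0), (.i1, .i2), (.i1, .i3), (.i1, .i4), (.i2, .i0), (.i3, .i0), (.i4, .i0)]
  | (.i0, .i2) => [(.i1, .i0), (.i2, .i0), (.i2, .i0), (.i2, .i1), (.i2, .i3), (.i2, .i4), (.i3, .i0), (.i4, .i0)]
  | (.i0, .i3) => [(.i1, .i0), (.i2, .i0), (.i3, .i0), (.i3, .i0), (.i3, .i1), (.i3, .i2), (.i3, .i4), (.i4, .i0)]
  | (.i0, .i4) => [(.i1, .i0), (.i2, .i0), (.i3, .i0), (.i4, .i0), (.i4, .i0), (.i4, .i1), (.i4, .i2), (.i4, .i3)]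
  | (.i1, .i0) => [(.i0, .i1), (.i0, .i1), (.i0, .i2), (.i0, .i3), (.i0, .i4), (.i2, .i1), (.i3, .i1), (.i4, .i1)]
  | (.i1, .i1) => []
  | (.i1, .i2) => [(.i0, .i1), (.i2, .i0), (.i2, .i1), (.i2, .i1), (.i2, .i3), (.i2, .i4), (.i3, .i1), (.i4, .i1)]
  | (.i1, .i3) => [(.i0, .i1), (.i2, .i1), (.i3, .i0), (.i3, .i1), (.i3, .i1), (.i3, .i2), (.i3, .i4), (.i4, .i1)]
  | (.i1, .i4) => [(.i0, .i1), (.i2, .i1), (.i3, .i1), (.i4, .i0), (.i4, .i1), (.i4, .i1), (.i4, .i2), (.i4, .i3)]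
  | (.i2, .i0) => [(.i0, .i1), (.i0, .i2), (.i0, .i2), (.i0, .i3), (.i0, .i4), (.i1, .i2), (.i3, .i2), (.i4, .i2)]
  | (.i2, .i1) => [(.i0, .i2), (.i1, .i0), (.i1, .i2), (.i1, .i2), (.i1, .i3), (.i1, .i4), (.i3, .i2), (.i4, .i2)]
  | (.i2, .i2) => []
  | (.i2, .i3) => [(.i0, .i2), (.i1, .i2), (.i3, .i0), (.i3, .i1), (.i3, .i2), (.i3, .i2), (.i3, .i4), (.i4, .i2)]
  | (.i2, .i4) => [(.i0, .i2), (.i1, .i2), (.i3, .i2), (.i4, .i0), (.i4, .i1), (.i4, .i2), (.i4, .i2), (.i4, .i3)]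
  | (.i3, .i0) => [(.i0, .i1), (.i0, .i2), (.i0, .i3), (.i0, .i3), (.i0, .i4), (.i1, .i3), (.i2, .i3), (.i4, .i3)]
  | (.i3, .i1) => [(.i0, .i3), (.i1, .i0), (.i1, .i2), (.i1, .i3), (.i1, .i3), (.i1, .i4), (.i2, .i3), (.i4, .i3)]
  | (.i3, .i2) => [(.i0, .i3), (.i1, .i3), (.i2, .i0), (.i2, .i1), (.i2, .i3), (.i2, .i3), (.i2, .i4), (.i4, .i3)]
  | (.i3, .i3) => []
  | (.i3, .i4) => [(.i0, .i3), (.i1, .i3), (.i2, .i3), (.i4, .i0), (.i4, .i1), (.i4, .i2), (.i4, .i3), (.i4, .i3)]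
  | (.i4, .i0) => [(.i0, .i1), (.i0, .i2), (.i0, .i3), (.i0, .i4), (.i0, .i4), (.i1, .i4), (.i2, .i4), (.i3, .i4)]
  | (.i4, .i1) => [(.i0, .i4), (.i1, .i0), (.i1, .i2), (.i1, .i3), (.i1, .i4), (.i1, .i4), (.i2, .i4), (.i3, .i4)]
  | (.i4, .i2) => [(.i0, .i4), (.i1, .i4), (.i2, .i0), (.i2, .i1), (.i2, .i3), (.i2, .i4), (.i2, .i4), (.i3, .i4)]
  | (.i4, .i3) => [(.i0, .i4), (.i1, .i4), (.i2, .i4), (.i3, .i0), (.i3, .i1), (.i3, .i2), (.i3, .i4), (.i3, .i4)]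
  | (.i4, .i4) => []

/-- Cartan table -/
def tk5 : I5 × I5 → List ((I5 × I5) × ℕ)
  | (.i0, .i0) => []
  | (.i0, .i1) => [((.i0, .i1), 4), ((.i0, .i2), 1), ((.i0, .i3), 1), ((.i0, .i4), 1), ((.i1, .i0), 4), ((.i1, .i2), 1), ((.i1, .i3), 1), ((.i1, .i4), 1), ((.i2, .i0), 1), ((.i2, .i1), 1), ((.i3, .i0), 1), ((.i3, .i1), 1), ((.i4, .i0), 1), ((.i4, .i1), 1)]
  | (.i0, .i2) => [((.i0, .i1), 1), ((.i0, .i2), 4), ((.i0, .i3), 1), ((.i0, .i4), 1), ((.i1, .i0), 1), ((.i1, .i2), 1), ((.i2, .i0), 4), ((.i2, .i1), 1), ((.i2, .i3), 1), ((.i2, .i4), 1), ((.i3, .i0), 1), ((.i3, .i2), 1), ((.i4, .i0), 1), ((.i4, .i2), 1)]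
  | (.i0, .i3) => [((.i0, .i1), 1), ((.i0, .i2), 1), ((.i0, .i3), 4), ((.i0, .i4), 1), ((.i1, .i0), 1), ((.i1, .i3), 1), ((.i2, .i0), 1), ((.i2, .i3), 1), ((.i3, .i0), 4), ((.i3, .i1), 1), ((.i3, .i2), 1), ((.i3, .i4), 1), ((.i4, .i0), 1), ((.i4, .i3), 1)]
  | (.i0, .i4) => [((.i0, .i1), 1), ((.i0, .i2), 1), ((.i0, .i3), 1), ((.i0, .i4), 4), ((.i1, .i0), 1), ((.i1, .i4), 1), ((.i2, .i0), 1), ((.i2, .i4), 1), ((.i3, .i0), 1), ((.i3, .i4), 1), ((.i4, .i0), 4), ((.i4, .i1), 1), ((.i4, .i2), 1), ((.i4, .i3), 1)]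
  | (.i1, .i0) => [((.i0, .i1), 4), ((.i0, .i2), 1), ((.i0, .i3), 1), ((.i0, .i4), 1), ((.i1, .i0), 4), ((.i1, .i2), 1), ((.i1, .i3), 1), ((.i1, .i4), 1), ((.i2, .i0), 1), ((.i2, .i1), 1), ((.i3, .i0), 1), ((.i3, .i1), 1), ((.i4, .i0), 1), ((.i4, .i1), 1)]
  | (.i1, .i1) => []
  | (.i1, .i2) => [((.i0, .i1), 1), ((.i0, .i2), 1), ((.i1, .i0), 1), ((.i1, .i2), 4), ((.i1, .i3), 1), ((.i1, .i4), 1), ((.i2, .i0), 1), ((.i2, .i1), 4), ((.i2, .i3), 1), ((.i2, .i4), 1), ((.i3, .i1), 1), ((.i3, .i2), 1), ((.i4, .i1), 1), ((.i4, .i2), 1)]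
  | (.i1, .i3) => [((.i0, .i1), 1), ((.i0, .i3), 1), ((.i1, .i0), 1), ((.i1, .i2), 1), ((.i1, .i3), 4), ((.i1, .i4), 1), ((.i2, .i1), 1), ((.i2, .i3), 1), ((.i3, .i0), 1), ((.i3, .i1), 4), ((.i3, .i2), 1), ((.i3, .i4), 1), ((.i4, .i1), 1), ((.i4, .i3), 1)]
  | (.i1, .i4) => [((.i0, .i1), 1), ((.i0, .i4), 1), ((.i1, .i0), 1), ((.i1, .i2), 1), ((.i1, .i3), 1), ((.i1, .i4), 4), ((.i2, .i1), 1), ((.i2, .i4), 1), ((.i3, .i1), 1), ((.i3, .i4), 1), ((.i4, .i0), 1), ((.i4, .i1), 4), ((.i4, .i2), 1), ((.i4, .i3), 1)]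
  | (.i2, .i0) => [((.i0, .i1), 1), ((.i0, .i2), 4), ((.i0, .i3), 1), ((.i0, .i4), 1), ((.i1, .i0), 1), ((.i1, .i2), 1), ((.i2, .i0), 4), ((.i2, .i1), 1), ((.i2, .i3), 1), ((.i2, .i4), 1), ((.i3, .i0), 1), ((.i3, .i2), 1), ((.i4, .i0), 1), ((.i4, .i2), 1)]
  | (.i2, .i1) => [((.i0, .i1), 1), ((.i0, .i2), 1), ((.i1, .i0), 1), ((.i1, .i2), 4), ((.i1, .i3), 1), ((.i1, .i4), 1), ((.i2, .i0), 1), ((.i2, .i1), 4), ((.i2, .i3), 1), ((.i2, .i4), 1), ((.i3, .i1), 1), ((.i3, .i2), 1), ((.i4, .i1), 1), ((.i4, .i2), 1)]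
  | (.i2, .i2) => []
  | (.i2, .i3) => [((.i0, .i2), 1), ((.i0, .i3), 1), ((.i1, .i2), 1), ((.i1, .i3), 1), ((.i2, .i0), 1), ((.i2, .i1), 1), ((.i2, .i3), 4), ((.i2, .i4), 1), ((.i3, .i0), 1), ((.i3, .i1), 1), ((.i3, .i2), 4), ((.i3, .i4), 1), ((.i4, .i2), 1), ((.i4, .i3), 1)]
  | (.i2, .i4) => [((.i0, .i2), 1), ((.i0, .i4), 1), ((.i1, .i2), 1), ((.i1, .i4), 1), ((.i2, .i0), 1), ((.i2, .i1), 1), ((.i2, .i3), 1), ((.i2, .i4), 4), ((.i3, .i2), 1), ((.i3, .i4), 1), ((.i4, .i0), 1), ((.i4, .i1), 1), ((.i4, .i2), 4), ((.i4, .i3), 1)]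
  | (.i3, .i0) => [((.i0, .i1), 1), ((.i0, .i2), 1), ((.i0, .i3), 4), ((.i0, .i4), 1), ((.i1, .i0), 1), ((.i1, .i3), 1), ((.i2, .i0), 1), ((.i2, .i3), 1), ((.i3, .i0), 4), ((.i3, .i1), 1), ((.i3, .i2), 1), ((.i3, .i4), 1), ((.i4, .i0), 1), ((.i4, .i3), 1)]
  | (.i3, .i1) => [((.i0, .i1), 1), ((.i0, .i3), 1), ((.i1, .i0), 1), ((.i1, .i2), 1), ((.i1, .i3), 4), ((.i1, .i4), 1), ((.i2, .i1), 1), ((.i2, .i3), 1), ((.i3, .i0), 1), ((.i3, .i1), 4), ((.i3, .i2), 1), ((.i3, .i4), 1), ((.i4, .i1), 1), ((.i4, .i3), 1)]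
  | (.i3, .i2) => [((.i0, .i2), 1), ((.i0, .i3), 1), ((.i1, .i2), 1), ((.i1, .i3), 1), ((.i2, .i0), 1), ((.i2, .i1), 1), ((.i2, .i3), 4), ((.i2, .i4), 1), ((.i3, .i0), 1), ((.i3, .i1), 1), ((.i3, .i2), 4), ((.i3, .i4), 1), ((.i4, .i2), 1), ((.i4, .i3), 1)]
  | (.i3, .i3) => []
  | (.i3, .i4) => [((.i0, .i3), 1), ((.i0, .i4), 1), ((.i1, .i3), 1), ((.i1, .i4), 1), ((.i2, .i3), 1), ((.i2, .i4), 1), ((.i3, .i0), 1), ((.i3, .i1), 1), ((.i3, .i2), 1), ((.i3, .i4), 4), ((.i4, .i0), 1), ((.i4, .i1), 1), ((.i4, .i2), 1), ((.i4, .i3), 4)]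
  | (.i4, .i0) => [((.i0, .i1), 1), ((.i0, .i2), 1), ((.i0, .i3), 1), ((.i0, .i4), 4), ((.i1, .i0), 1), ((.i1, .i4), 1), ((.i2, .i0), 1), ((.i2, .i4), 1), ((.i3, .i0), 1), ((.i3, .i4), 1), ((.i4, .i0), 4), ((.i4, .i1), 1), ((.i4, .i2), 1), ((.i4, .i3), 1)]
  | (.i4, .i1) => [((.i0, .i1), 1), ((.i0, .i4), 1), ((.i1, .i0), 1), ((.i1, .i2), 1), ((.i1, .i3), 1), ((.i1, .i4), 4), ((.i2, .i1), 1), ((.i2, .i4), 1), ((.i3, .i1), 1), ((.i3, .i4), 1), ((.i4, .i0), 1), ((.i4, .i1), 4), ((.i4, .i2), 1), ((.i4, .i3), 1)]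
  | (.i4, .i2) => [((.i0, .i2), 1), ((.i0, .i4), 1), ((.i1, .i2), 1), ((.i1, .i4), 1), ((.i2, .i0), 1), ((.i2, .i1), 1), ((.i2, .i3), 1), ((.i2, .i4), 4), ((.i3, .i2), 1), ((.i3, .i4), 1), ((.i4, .i0), 1), ((.i4, .i1), 1), ((.i4, .i2), 4), ((.i4, .i3), 1)]
  | (.i4, .i3) => [((.i0, .i3), 1), ((.i0, .i4), 1), ((.i1, .i3), 1), ((.i1, .i4), 1), ((.i2, .i3), 1), ((.i2, .i4), 1), ((.i3, .i0), 1), ((.i3, .i1), 1), ((.i3, .i2), 1), ((.i3, .i4), 4), ((.i4, .i0), 1), ((.i4, .i1), 1), ((.i4, .i2), 1), ((.i4, .i3), 4)]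
  | (.i4, .i4) => []

/-- The tables for `gl_5`. -/
def tab5 : Tables (I5 × I5) where
  roots := roots5
  st := Prod.swap
  tq := tq5
  tn := tn5
  tk := tk5

/-- separating coordinates -/
def c5 : I5 → ℤ
  | .i0 => 0
  | .i1 => 1
  | .i2 => 10
  | .i3 => 100
  | .i4 => 1000

lemma c5_sep : ∀ x y : I5 × I5, (c5 x.1 - c5 x.2) + (c5 y.1 - c5 y.2) = 0 →
    (cart5 x ∧ cart5 y) ∨ (¬ cart5 x ∧ y = Prod.swap x) := by decide +kernel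

lemma gl5_rooted (x : I5 → ℤ) : (glData x).IsRooted cart5 where
  tstar a b c := by
    show glP ℤ (Prod.swap a) (Prod.swap b) (Prod.swap c)
      - glP ℤ (Prod.swap b) (Prod.swap a) (Prod.swap c) = -(glP ℤ a b c - glP ℤ b a c)
    have h : ∀ a b c : I5 × I5, glP ℤ (Prod.swap a) (Prod.swap b) (Prod.swap c) = glP ℤ b a c := by
      intro a b c
      unfold glP
      refine if_congr ?_ rfl rfl
      simp only [Prod.fst_swap, Prod.snd_swap]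
      constructor
      · rintro ⟨h1, h2, h3⟩; exact ⟨h1.symm, h3.symm, h2.symm⟩
      · rintro ⟨h1, h2, h3⟩; exact ⟨h1.symm, h3.symm, h2.symm⟩
    rw [h, h]; ring
  rt l m y z h1 h2 := by
    have e1 := gl_weight x c5 l m y h1
    have e2 := gl_weight x c5 _ _ z h2
    apply c5_sep
    have e3 : ((glData x).star l) = Prod.swap l := rfl
    have e4 : ((glData x).star m) = Prod.swap m := rfl
    rw [e3, e4] at e2
    simp only [Prod.fst_swap, Prod.snd_swap] at e2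
    linarith
  cstar y h := by
    have : y.1 = y.2 := h
    exact Prod.ext this.symm this
  czero y a z h1 h2 := by
    have e1 : y.1 = y.2 := h1
    have e2 : z.1 = z.2 := h2
    show glP ℤ y a z - glP ℤ a y z = 0
    unfold glP
    have : (y.2 = a.1 ∧ a.2 = z.1 ∧ z.2 = y.1) ↔ (a.2 = y.1 ∧ y.2 = z.1 ∧ z.2 = a.1) := by
      rw [e1, e2]
      constructor
      · rintro ⟨p1, p2, p3⟩; exact ⟨by rw [p2, p3], p3.symm, by rw [← p1, p3]⟩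
      · rintro ⟨p1, p2, p3⟩; exact ⟨by rw [p2, p3], by rw [p1, p2], p2.symm⟩
    rw [if_congr this rfl rfl, sub_self]

/-- coded equality -/
noncomputable def eq5 (a b : I5 × I5) : Bool :=
  cond (Nat.beq a.1.idx b.1.idx) (Nat.beq a.2.idx b.2.idx) false

lemma eq5_iff (a b : I5 × I5) : eq5 a b = true ↔ a = b := by
  unfold eq5
  rw [Bool.cond_false_right, Bool.and_eq_true]
  constructor
  · rintro ⟨h1, h2⟩
    exact Prod.ext (I5.idx_inj _ _ (Nat.eq_of_beq_eq_true h1))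
      (I5.idx_inj _ _ (Nat.eq_of_beq_eq_true h2))
  · rintro rfl
    exact ⟨Nat.beq_refl _, Nat.beq_refl _⟩

/-- coded positive part -/
noncomputable def tp5 (a b c : I5 × I5) : ℕ :=
  cond (Nat.beq a.2.idx b.1.idx) (cond (Nat.beq b.2.idx c.1.idx)
    (cond (Nat.beq c.2.idx a.1.idx) 1 0) 0) 0

lemma tp5_eq (a b c : I5 × I5) : glP ℤ a b c = (tp5 a b c : ℤ) := by
  unfold glP tp5
  have h : ∀ (x y : I5) (n : ℕ), cond (Nat.beq x.idx y.idx) n 0 = if x = y then n else 0 := by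
    intro x y n
    by_cases e : x = y
    · subst e; rw [if_pos rfl, Nat.beq_refl]; rfl
    · rw [if_neg e]
      have : Nat.beq x.idx y.idx = false := by
        rw [← Bool.not_eq_true]
        exact fun h => e (I5.idx_inj _ _ (Nat.eq_of_beq_eq_true h))
      rw [this]; rfl
  rw [h, h, h]
  by_cases e1 : a.2 = b.1 <;> by_cases e2 : b.2 = c.1 <;> by_cases e3 : c.2 = a.1 <;>
    simp [e1, e2, e3]

/-- Codes for `gl_5`. -/
noncomputable def code5 : Code (I5 × I5) where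
  elems := [.i0, .i1, .i2, .i3, .i4] ×ˢ [.i0, .i1, .i2, .i3, .i4]
  roots := roots5
  carts := [(.i0, .i0), (.i1, .i1), (.i2, .i2), (.i3, .i3), (.i4, .i4)]
  st := Prod.swap
  eq := eq5
  tp := tp5
  tm a b c := tp5 b a c

lemma gl5_code (x : I5 → ℤ) : (glData x).IsCode cart5 code5 where
  elems := by decide
  nodup := by decide
  roots_nodup := by decide
  roots := by decide
  carts_nodup := by decide
  carts := by decide
  st _ := rfl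
  eq := eq5_iff
  T a b c := by
    show glP ℤ a b c - glP ℤ b a c = _
    rw [tp5_eq, tp5_eq]
    rfl

lemma chkQ5 : code5.chkQ tab5 = true := by decide +kernel

lemma chkN5 : code5.chkN tab5 = true := by decide +kernel

lemma chkK5 : code5.chkK tab5 = true := by decide +kernel

lemma chkD5 : code5.chkD = true := by decide +kernel

lemma gl5_tables (x : I5 → ℤ) : (glData x).IsTables cart5 tab5 :=
  LieData.isTables_of_code (gl5_code x) rfl rfl chkQ5 chkN5 chkK5 chkD5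

end Pool.Agent.H76.Dasbach
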