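import Pool.Agent.H76.Dasbach.Functional

/-!
# Attaching a leg to an edge
-/

namespace Pool.Agent.H76.Dasbach

open Finset

section raw

variable {H : Type} [DecidableEq H]

/-- The cyclic order `0 → 2 → 1 → 0` at the new trivalent vertex, `3` is the new univalent
vertex. -/
def hairRot4 : Equiv.Perm (Fin 4) := Equiv.swap 0 1 * Equiv.swap 0 2

/-- new rot -/
def hairRot (rot : Equiv.Perm H) : Equiv.Perm (H ⊕ Fin 4) := Equiv.Perm.sumCongr rot hairRot4

/-- the pairing `0 ↔ 1`, `2 ↔ 3` -/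
def hairOpp4 : Equiv.Perm (Fin 4) := Equiv.swap 0 1 * Equiv.swap 2 3

/-- new opp -/
def hairOpp (opp : Equiv.Perm H) (h : H) : Equiv.Perm (H ⊕ Fin 4) :=
  Equiv.swap (Sum.inl (opp h)) (Sum.inr 0) * Equiv.Perm.sumCongr opp hairOpp4 *
    Equiv.swap (Sum.inl (opp h)) (Sum.inr 0)

lemma hairRot4_0 : hairRot4 0 = 2 := by decide
lemma hairRot4_1 : hairRot4 1 = 0 := by decide
lemma hairRot4_2 : hairRot4 2 = 1 := by decide
lemma hairRot4_3 : hairRot4 3 = 3 := by decide

lemma hairRot4_cube : ∀ i, hairRot4 (hairRot4 (hairRot4 i)) = i := by decide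

@[simp] lemma hairRot_inl (rot : Equiv.Perm H) (k : H) :
    hairRot rot (Sum.inl k) = Sum.inl (rot k) := rfl

@[simp] lemma hairRot_inr (rot : Equiv.Perm H) (i : Fin 4) :
    hairRot rot (Sum.inr i) = Sum.inr (hairRot4 i) := rfl

section opp

variable {opp : Equiv.Perm H} (hopp : ∀ x, opp (opp x) = x) (hne : ∀ x, opp x ≠ x) (h : H)

include hopp hne

lemma hairOpp_h : hairOpp opp h (Sum.inl h) = Sum.inr 0 := by
  unfold hairOpp
  simp only [Equiv.Perm.mul_apply]
  have s1 : Equiv.swap (Sum.inl (opp h)) (Sum.inr (0 : Fin 4)) (Sum.inl h) = Sum.inl h :=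
    Equiv.swap_apply_of_ne_of_ne (by simpa using (hne h).symm) (by simp)
  rw [s1]
  simp

lemma hairOpp_0 : hairOpp opp h (Sum.inr 0) = Sum.inl h := by
  unfold hairOpp
  simp only [Equiv.Perm.mul_apply]
  have s1 : Equiv.swap (Sum.inl (opp h)) (Sum.inr (0 : Fin 4)) (Sum.inl h) = Sum.inl h :=
    Equiv.swap_apply_of_ne_of_ne (by simpa using (hne h).symm) (by simp)
  rw [Equiv.swap_apply_right]
  simp only [Equiv.Perm.sumCongr_apply, Sum.map_inl, hopp]
  rw [s1]

lemma hairOpp_1 : hairOpp opp h (Sum.inr 1) = Sum.inl (opp h) := by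
  unfold hairOpp
  simp only [Equiv.Perm.mul_apply]
  have s1 : Equiv.swap (Sum.inl (opp h)) (Sum.inr (0 : Fin 4)) (Sum.inr 1) = Sum.inr 1 :=
    Equiv.swap_apply_of_ne_of_ne (by simp) (by simp)
  rw [s1]
  have : hairOpp4 1 = 0 := by decide
  simp only [Equiv.Perm.sumCongr_apply, Sum.map_inr, this]
  rw [Equiv.swap_apply_right]

lemma hairOpp_h' : hairOpp opp h (Sum.inl (opp h)) = Sum.inr 1 := by
  unfold hairOpp
  simp only [Equiv.Perm.mul_apply]
  have s1 : Equiv.swap (Sum.inl (opp h)) (Sum.inr (0 : Fin 4)) (Sum.inr 1) = Sum.inr 1 :=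
    Equiv.swap_apply_of_ne_of_ne (by simp) (by simp)
  rw [Equiv.swap_apply_left]
  have : hairOpp4 0 = 1 := by decide
  simp only [Equiv.Perm.sumCongr_apply, Sum.map_inr, this]
  rw [s1]

lemma hairOpp_2 : hairOpp opp h (Sum.inr 2) = Sum.inr 3 := by
  unfold hairOpp
  simp only [Equiv.Perm.mul_apply]
  have s1 : Equiv.swap (Sum.inl (opp h)) (Sum.inr (0 : Fin 4)) (Sum.inr 2) = Sum.inr 2 :=
    Equiv.swap_apply_of_ne_of_ne (by simp) (by simp)
  have s2 : Equiv.swap (Sum.inl (opp h)) (Sum.inr (0 : Fin 4)) (Sum.inr 3) = Sum.inr 3 :=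
    Equiv.swap_apply_of_ne_of_ne (by simp) (by simp)
  rw [s1]
  have : hairOpp4 2 = 3 := by decide
  simp only [Equiv.Perm.sumCongr_apply, Sum.map_inr, this]
  rw [s2]

lemma hairOpp_3 : hairOpp opp h (Sum.inr 3) = Sum.inr 2 := by
  unfold hairOpp
  simp only [Equiv.Perm.mul_apply]
  have s1 : Equiv.swap (Sum.inl (opp h)) (Sum.inr (0 : Fin 4)) (Sum.inr 2) = Sum.inr 2 :=
    Equiv.swap_apply_of_ne_of_ne (by simp) (by simp)
  have s2 : Equiv.swap (Sum.inl (opp h)) (Sum.inr (0 : Fin 4)) (Sum.inr 3) = Sum.inr 3 :=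
    Equiv.swap_apply_of_ne_of_ne (by simp) (by simp)
  rw [s2]
  have : hairOpp4 3 = 2 := by decide
  simp only [Equiv.Perm.sumCongr_apply, Sum.map_inr, this]
  rw [s1]

lemma hairOpp_inl {k : H} (h1 : k ≠ h) (h2 : k ≠ opp h) :
    hairOpp opp h (Sum.inl k) = Sum.inl (opp k) := by
  unfold hairOpp
  simp only [Equiv.Perm.mul_apply]
  have h3 : opp k ≠ opp h := fun e => h1 (opp.injective e)
  have s1 : Equiv.swap (Sum.inl (opp h)) (Sum.inr (0 : Fin 4)) (Sum.inl k) = Sum.inl k :=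
    Equiv.swap_apply_of_ne_of_ne (by simpa using h2) (by simp)
  have s2 : Equiv.swap (Sum.inl (opp h)) (Sum.inr (0 : Fin 4)) (Sum.inl (opp k))
      = Sum.inl (opp k) :=
    Equiv.swap_apply_of_ne_of_ne (by simpa using h3) (by simp)
  rw [s1]
  simp only [Equiv.Perm.sumCongr_apply, Sum.map_inl]
  rw [s2]

lemma hairOpp_hairOpp (x : H ⊕ Fin 4) : hairOpp opp h (hairOpp opp h x) = x := by
  have hi : ∀ i, hairOpp4 (hairOpp4 i) = i := by decide
  unfold hairOpp
  simp only [Equiv.Perm.mul_apply, Equiv.swap_apply_self]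
  have : ∀ y : H ⊕ Fin 4, Equiv.Perm.sumCongr opp hairOpp4 (Equiv.Perm.sumCongr opp hairOpp4 y)
      = y := by
    rintro (y | y)
    · simp [hopp]
    · simp [hi]
  rw [this, Equiv.swap_apply_self]

lemma hairOpp_ne (x : H ⊕ Fin 4) : hairOpp opp h x ≠ x := by
  rcases x with k | i
  · by_cases h1 : k = h
    · subst h1; rw [hairOpp_h hopp hne]; simp
    · by_cases h2 : k = opp h
      · subst h2; rw [hairOpp_h' hopp hne]; simp
      · rw [hairOpp_inl hopp hne h h1 h2]; simpa using hne k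
  · fin_cases i
    · show hairOpp opp h (Sum.inr 0) ≠ Sum.inr 0
      rw [hairOpp_0 hopp hne]; simp
    · show hairOpp opp h (Sum.inr 1) ≠ Sum.inr 1
      rw [hairOpp_1 hopp hne]; simp
    · show hairOpp opp h (Sum.inr 2) ≠ Sum.inr 2
      rw [hairOpp_2 hopp hne]; simp
    · show hairOpp opp h (Sum.inr 3) ≠ Sum.inr 3
      rw [hairOpp_3 hopp hne]; simp

end opp

end raw

namespace LieData

variable {R : Type} [CommRing R] {L : Type} [Fintype L] [DecidableEq L] {D : LieData R L}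
variable {H : Type} [Fintype H] [DecidableEq H]

/-- Compatibility away from the edge of `h`. -/
def CompatOff (D : LieData R L) (opp : Equiv.Perm H) (h : H) (φ : H → L) : Prop :=
  ∀ k, k ≠ h → k ≠ opp h → φ (opp k) = D.star (φ k)

instance (opp : Equiv.Perm H) (h : H) : DecidablePred (D.CompatOff opp h) := fun φ => by
  unfold CompatOff; infer_instance

omit [Fintype H] in
lemma compat_iff_off (opp : Equiv.Perm H) (hopp : ∀ x, opp (opp x) = x) (h : H) (φ : H → L) :
    D.Compat opp φ ↔ D.CompatOff opp h φ ∧ φ (opp h) = D.star (φ h) := by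
  constructor
  · intro hc
    exact ⟨fun k _ _ => hc k, hc h⟩
  · rintro ⟨h1, h2⟩ k
    by_cases e1 : k = h
    · rw [e1, h2]
    · by_cases e2 : k = opp h
      · rw [e2, hopp, h2, D.star_star]
      · exact h1 k e1 e2

lemma hair' (a b : L) : ∑ z, D.T a b z * D.u (D.star z) = if b = D.star a then D.wt a else 0 := by
  rw [← D.hair a b]
  refine Finset.sum_bij' (fun z _ => D.star z) (fun z _ => D.star z) ?_ ?_ ?_ ?_ ?_
  · intros; simp
  · intros; simp
  · intros; simp [D.star_star]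
  · intros; simp [D.star_star]
  · intros; simp [D.star_star]

lemma compat_hair (opp : Equiv.Perm H) (hopp : ∀ x, opp (opp x) = x) (hne : ∀ x, opp x ≠ x)
    (h : H) (φ : H → L) (ψ : Fin 4 → L) :
    D.Compat (hairOpp opp h) (Sum.elim φ ψ) ↔ D.CompatOff opp h φ ∧
      (ψ 0 = D.star (φ h) ∧ ψ 1 = D.star (φ (opp h)) ∧ ψ 3 = D.star (ψ 2)) := by
  constructor
  · intro hc
    refine ⟨fun k h1 h2 => ?_, ?_, ?_, ?_⟩
    · have := hc (Sum.inl k)
      rw [hairOpp_inl hopp hne h h1 h2] at this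
      simpa using this
    · have := hc (Sum.inl h)
      rw [hairOpp_h hopp hne h] at this
      simpa using this
    · have := hc (Sum.inl (opp h))
      rw [hairOpp_h' hopp hne h] at this
      simpa using this
    · have := hc (Sum.inr 2)
      rw [hairOpp_2 hopp hne h] at this
      simpa using this
  · rintro ⟨h1, h2, h3, h4⟩ x
    rcases x with k | i
    · by_cases e1 : k = h
      · subst e1; rw [hairOpp_h hopp hne]; simpa using h2
      · by_cases e2 : k = opp h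
        · subst e2; rw [hairOpp_h' hopp hne]; simpa using h3
        · rw [hairOpp_inl hopp hne h e1 e2]; simpa using h1 k e1 e2
    · fin_cases i
      · show Sum.elim φ ψ (hairOpp opp h (Sum.inr 0)) = D.star (Sum.elim φ ψ (Sum.inr 0))
        rw [hairOpp_0 hopp hne]; simp [h2, D.star_star]
      · show Sum.elim φ ψ (hairOpp opp h (Sum.inr 1)) = D.star (Sum.elim φ ψ (Sum.inr 1))
        rw [hairOpp_1 hopp hne]; simp [h3, D.star_star]
      · show Sum.elim φ ψ (hairOpp opp h (Sum.inr 2)) = D.star (Sum.elim φ ψ (Sum.inr 2))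
        rw [hairOpp_2 hopp hne]; simp [h4]
      · show Sum.elim φ ψ (hairOpp opp h (Sum.inr 3)) = D.star (Sum.elim φ ψ (Sum.inr 3))
        rw [hairOpp_3 hopp hne]; simp [h4, D.star_star]

lemma vt_hair_inl (rot : Equiv.Perm H) (φ : H → L) (ψ : Fin 4 → L) (k : H) :
    D.vt (hairRot rot) (Sum.elim φ ψ) (Sum.inl k) = D.vt rot φ k := by
  unfold vt
  simp

lemma prod_hair_inr (rot : Equiv.Perm H) (φ : H → L) (ψ : Fin 4 → L) :
    ∏ i : Fin 4, D.vt (hairRot rot) (Sum.elim φ ψ) (Sum.inr i)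
      = D.T (ψ 1) (ψ 0) (ψ 2) * D.u (ψ 3) := by
  have c1 := D.cyc (ψ 1) (ψ 0) (ψ 2)
  have c2 := D.cyc (ψ 0) (ψ 2) (ψ 1)
  have q1 := D.cube (ψ 1) (ψ 0) (ψ 2)
  have d0 : ¬ ((2 : Fin 4) = 0) := by decide
  have d1 : ¬ ((0 : Fin 4) = 1) := by decide
  have d2 : ¬ ((1 : Fin 4) = 2) := by decide
  rw [Fin.prod_univ_four]
  unfold vt
  simp only [hairRot_inr, hairRot4_0, hairRot4_1, hairRot4_2, hairRot4_3, Sum.inr.injEq,
    Sum.elim_inr, if_true, if_neg d0, if_neg d1, if_neg d2]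
  rw [← c2, ← c1]
  calc _ = (D.T (ψ 1) (ψ 0) (ψ 2)) ^ 3 * D.u (ψ 3) := by ring
    _ = _ := by rw [q1]

/-- The effect of attaching a leg. -/
lemma Z_hair (rot opp : Equiv.Perm H) (hopp : ∀ x, opp (opp x) = x) (hne : ∀ x, opp x ≠ x)
    (h : H) (Ω : (H → L) → R) :
    D.Z (hairRot rot) (hairOpp opp h) (fun φ => Ω (φ ∘ Sum.inl))
      = D.Z rot opp (fun φ => D.wt (φ h) * Ω φ) := by
  unfold Z
  rw [← Fintype.sum_equiv (Equiv.sumArrowEquivProdArrow H (Fin 4) L).symm
    (fun x => if D.Compat (hairOpp opp h) (Sum.elim x.1 x.2) then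
      (∏ k, D.vt (hairRot rot) (Sum.elim x.1 x.2) k) * Ω x.1 else 0) _ (fun x => rfl)]
  rw [Fintype.sum_prod_type]
  refine Finset.sum_congr rfl ?_
  intro φ _
  simp only [compat_hair opp hopp hne, Fintype.prod_sum_type, vt_hair_inl, prod_hair_inr,
    compat_iff_off opp hopp h φ]
  by_cases hoff : D.CompatOff opp h φ
  swap
  · simp [hoff]
  simp only [hoff, true_and]
  rw [← Finset.sum_filter]
  have : ∑ ψ ∈ Finset.univ.filter (fun ψ : Fin 4 → L => ψ 0 = D.star (φ h) ∧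
      ψ 1 = D.star (φ (opp h)) ∧ ψ 3 = D.star (ψ 2)),
      ((∏ k, D.vt rot φ k) * (D.T (ψ 1) (ψ 0) (ψ 2) * D.u (ψ 3)) * Ω φ)
      = ∑ z : L, ((∏ k, D.vt rot φ k) *
        (D.T (D.star (φ (opp h))) (D.star (φ h)) z * D.u (D.star z)) * Ω φ) := by
    refine Finset.sum_bij' (fun ψ _ => ψ 2)
      (fun z _ => ![D.star (φ h), D.star (φ (opp h)), z, D.star z]) ?_ ?_ ?_ ?_ ?_
    · intros; simp
    · intros; simp
    · intro ψ hψ
      simp only [Finset.mem_filter, Finset.mem_univ, true_and] at hψ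
      obtain ⟨e0, e1, e3⟩ := hψ
      ext i
      fin_cases i
      · simpa using e0.symm
      · simpa using e1.symm
      · rfl
      · simpa using e3.symm
    · intros; rfl
    · intro ψ hψ
      simp only [Finset.mem_filter, Finset.mem_univ, true_and] at hψ
      obtain ⟨e0, e1, e3⟩ := hψ
      rw [e0, e1, e3]
  rw [this, ← Finset.sum_mul, ← Finset.mul_sum, hair', D.star_star]
  by_cases e : φ (opp h) = D.star (φ h)
  · rw [if_pos e, if_pos (by rw [e]), e, D.star_star]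
    ring
  · rw [if_neg e, if_neg (fun e' => e e'.symm)]
    ring

end LieData

end Pool.Agent.H76.Dasbach
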