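import Pool.Agent.H76.Dasbach.NumCheck

/-!
# `β_{23,20} ≥ 39`
-/

namespace Pool.Agent.H76.Dasbach

open Finset

/-- functional number `i` -/
noncomputable def fn39 (i : Fin 39) : Func := (dataL.getD i dflt).1

/-- values of functional number `i` -/
noncomputable def row39 (i : Fin 39) : List ℕ := (dataL.getD i dflt).2

/-- diagram number `j` -/
def ds39 (j : Fin 39) : ℕ × ℕ × ℕ := dsL.getD j (0, 0, 0)

/-- graph number `j` -/
noncomputable def gr39 (j : Fin 39) : Graph :=
  gr (esL.getD (ds39 j).2.1 (0, 0)) (esL.getD (ds39 j).2.2 (0, 0))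

lemma ds39_spec : ∀ j : Fin 39, ds39 j ∈ dsL ∧ (ds39 j).1 = j ∧ (ds39 j).2.1 < esL.length ∧
    (ds39 j).2.2 < esL.length := by decide +kernel

lemma es39_spec : ∀ j : Fin 39, (esL.getD (ds39 j).2.1 (0, 0)).1 + (esL.getD (ds39 j).2.1 (0, 0)).2
    + (esL.getD (ds39 j).2.2 (0, 0)).1 + (esL.getD (ds39 j).2.2 (0, 0)).2 = 20 := by
  decide +kernel

lemma data_mem (i : Fin 39) : dataL.getD i dflt ∈ dataL := by
  have h : (i : ℕ) < dataL.length := i.2
  rw [List.getD_eq_getElem _ _ h]
  exact List.getElem_mem h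

lemma val39 (i j : Fin 39) :
    (((fn39 i).W (gr39 j) : ℤ) : ZMod NN) = - (((row39 i).getD j 0 : ℕ) : ZMod NN) := by
  have h1 := chk_small
  have h2 := chk_rows
  rw [allL_iff] at h1 h2
  obtain ⟨d1, d2, d3, d4⟩ := ds39_spec j
  have := (fn39 i).chk_spec (row39 i) (h1 _ (data_mem i)) (h2 _ (data_mem i)) (ds39 j) d1 d3 d4
  rw [d2] at this
  exact this

/-- the inverse matrix -/
noncomputable def inv39 (k i : Fin 39) : ZMod NN := - (((invL.getD k []).getD i 0 : ℕ) : ZMod NN)

lemma inv_spec (k j : Fin 39) :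
    ∑ i, inv39 k i * (((fn39 i).W (gr39 j) : ℤ) : ZMod NN) = if k = j then 1 else 0 := by
  have h := chk_inv
  unfold chkInv at h
  simp only [allL_iff] at h
  have hix : ixL = List.range 39 := by decide +kernel
  have hmem : ∀ i : Fin 39, (i : ℕ) ∈ ixL := by
    intro i
    rw [hix, List.mem_range]
    exact i.2
  have h1 := Nat.eq_of_beq_eq_true (h k (hmem k) j (hmem j))
  rw [sumL_eq, hix] at h1
  have h2 := congrArg (fun n : ℕ => (n : ZMod NN)) h1
  have h3 : ((Nat.mod (List.map (fun i => Nat.mul (getL 0 i (getL [] k invL))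
      (getL 0 j (getL dflt i dataL).2)) (List.range 39)).sum NN : ℕ) : ZMod NN)
      = (((List.map (fun i => Nat.mul (getL 0 i (getL [] k invL))
      (getL 0 j (getL dflt i dataL).2)) (List.range 39)).sum : ℕ) : ZMod NN) :=
    ZMod.natCast_mod _ _
  have h4 : (List.map (fun i => Nat.mul (getL 0 i (getL [] k invL))
      (getL 0 j (getL dflt i dataL).2)) (List.range 39)).sum
      = ∑ i : Fin 39, ((invL.getD k []).getD i 0) * ((row39 i).getD j 0) := by
    have h7 : ∑ i : Fin 39, ((invL.getD k []).getD i 0) * ((row39 i).getD j 0)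
        = ∑ i ∈ Finset.range 39, ((invL.getD k []).getD i 0) * (((dataL.getD i dflt).2).getD j 0) :=
      (Finset.sum_range (fun i => ((invL.getD k []).getD i 0)
        * (((dataL.getD i dflt).2).getD j 0))).symm
    rw [h7, ← List.sum_toFinset _ List.nodup_range]
    refine Finset.sum_congr ?_ fun i _ => ?_
    · ext x; simp
    · rw [getL_eq, getL_eq, getL_eq, getL_eq]
      rfl
  have h5 : ∑ i, inv39 k i * (((fn39 i).W (gr39 j) : ℤ) : ZMod NN)
      = ((∑ i : Fin 39, ((invL.getD k []).getD i 0) * ((row39 i).getD j 0) : ℕ) : ZMod NN) := by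
    rw [Nat.cast_sum]
    refine Finset.sum_congr rfl fun i _ => ?_
    rw [val39, Nat.cast_mul]
    unfold inv39
    ring
  rw [h5, ← h4, ← h3]
  refine h2.trans ?_
  have h6 : Nat.beq (k : ℕ) (j : ℕ) = decide (k = j) := by
    by_cases e : k = j
    · subst e; simp
    · rw [decide_eq_false e]
      rw [← Bool.not_eq_true]
      exact fun h => e (Fin.ext (Nat.eq_of_beq_eq_true h))
  show ((cond (Nat.beq (k : ℕ) (j : ℕ)) 1 0 : ℕ) : ZMod NN) = _
  rw [h6]
  by_cases e : k = j
  · simp [e]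
  · simp [e]

lemma cls_gr39_mem (j : Fin 39) : cls (gr39 j) ∈ Bconn 23 20 := by
  refine Submodule.subset_span ⟨gr39 j, gr_connected _ _, ?_, ?_, rfl⟩
  · unfold gr39
    rw [gr_numVertices, es39_spec]
  · unfold gr39
    rw [gr_numUnivalent, es39_spec]

theorem beta_ge : 39 ≤ beta 23 20 := by
  have hli : LinearIndependent ℚ (fun j : Fin 39 => cls (gr39 j)) :=
    linInd_of_pairing _ (fun i => (fn39 i).WB) (fun i j => (fn39 i).W (gr39 j))
      (fun i j => (fn39 i).WB_cls _) NN (by decide) inv39 inv_spec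
  have hli' : LinearIndependent ℚ (fun j : Fin 39 => (⟨cls (gr39 j), cls_gr39_mem j⟩ : Bconn 23 20)) :=
    LinearIndependent.of_comp (Bconn 23 20).subtype hli
  have := hli'.fintype_card_le_finrank
  rw [Fintype.card_fin] at this
  exact this

end Pool.Agent.H76.Dasbach
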