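import Pool.Agent.H76.Dasbach.Code

/-!
# Evaluation with forced intermediate values
-/

namespace Pool.Agent.H76.Dasbach

open Finset

/-- Force the evaluation of a natural number. -/
noncomputable def force {α : Type} (n : ℕ) (k : ℕ → α) : α :=
  @Nat.rec (fun _ => α) (k 0) (fun m _ => k (Nat.succ m)) n

lemma force_eq {α : Type} (n : ℕ) (k : ℕ → α) : force n k = k n := by
  cases n <;> rfl

/-- the modulus -/
def NN : ℕ := 10007

/-- Values of a bubble. -/
structure Trip (L : Type) where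
  Q : L → ℕ
  N : L → ℕ
  K : L → ℕ

section

variable {L : Type} (t : Tables L)
variable (memo : (L → ℕ) → ((L → ℕ) → Bool) → Bool)

/-- power -/
noncomputable def pw (d : L → ℕ) (p : ℕ) (l : L) : ℕ := Nat.mod (Nat.pow (d l) p) NN

/-- bubble at a root -/
noncomputable def nq (g h : L → ℕ) (x : L) : ℕ :=
  sumL (fun lm => Nat.mul (g lm.1) (h lm.2)) (t.tq x)

/-- sum over the connected roots -/
noncomputable def nnn (q : L → ℕ) (x : L) : ℕ := sumL q (t.tn x)

/-- Cartan part -/
noncomputable def nk (g h : L → ℕ) (x : L) : ℕ :=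
  sumL (fun lk => Nat.mul lk.2 (Nat.mul (g lk.1) (h (t.st lk.1)))) (t.tk x)

/-- The values of a bubble with `e.1`, `e.2` legs. -/
noncomputable def bubT (d : L → ℕ) (e : ℕ × ℕ) (k : Trip L → Bool) : Bool :=
  memo (pw d e.1) fun g => memo (pw d e.2) fun h => memo (nq t g h) fun Q =>
    memo (nnn t Q) fun N => memo (nk t g h) fun K => k ⟨Q, N, K⟩

/-- The values of several bubbles. -/
noncomputable def bubTs (d : L → ℕ) (es : List (ℕ × ℕ)) : (List (Trip L) → Bool) → Bool :=
  @List.rec (ℕ × ℕ) (fun _ => (List (Trip L) → Bool) → Bool) (fun k => k [])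
    (fun e _ ih k => bubT t memo d e fun T => ih fun Ts => k (T :: Ts)) es

/-- The value of a diagram. -/
noncomputable def dval (A B : Trip L) : ℕ :=
  sumL (fun x => Nat.add (Nat.mul (A.Q x) (Nat.add (B.N x) (B.K x))) (Nat.mul (B.Q x) (A.K x)))
    t.roots

/-- list access -/
noncomputable def getL {α : Type} (dflt : α) (n : ℕ) : List α → α :=
  @Nat.rec (fun _ => List α → α) (fun l => @List.rec α (fun _ => α) dflt (fun a _ _ => a) l)
    (fun _ ih l => ih (@List.rec α (fun _ => List α) [] (fun _ tl _ => tl) l)) n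

/-- Check of one row. -/
noncomputable def chkRow (d : L → ℕ) (es : List (ℕ × ℕ)) (ds : List (ℕ × ℕ × ℕ)) (row : List ℕ) :
    Bool :=
  bubTs t memo d es fun Ts => allL (fun nij =>
    Nat.beq (Nat.mod (dval t (getL ⟨fun _ => 0, fun _ => 0, fun _ => 0⟩ nij.2.1 Ts)
      (getL ⟨fun _ => 0, fun _ => 0, fun _ => 0⟩ nij.2.2 Ts)) NN) (getL 0 nij.1 row)) ds

/-- The triple of a bubble. -/
noncomputable def mkT (d : L → ℕ) (e : ℕ × ℕ) : Trip L where
  Q := nq t (pw d e.1) (pw d e.2)
  N := nnn t (nq t (pw d e.1) (pw d e.2))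
  K := nk t (pw d e.1) (pw d e.2)

lemma getL_eq {α : Type} (dflt : α) (n : ℕ) (l : List α) : getL dflt n l = l.getD n dflt := by
  induction n generalizing l with
  | zero => cases l <;> rfl
  | succ n ih =>
    cases l with
    | nil =>
      have : getL dflt (n + 1) ([] : List α) = getL dflt n [] := rfl
      rw [this, ih]; simp
    | cons a l =>
      have : getL dflt (n + 1) (a :: l) = getL dflt n l := rfl
      rw [this, ih]; simp

variable {memo} (hmemo : ∀ f k, memo f k = k f)

include hmemo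

lemma bubT_eq (d : L → ℕ) (e : ℕ × ℕ) (k : Trip L → Bool) :
    bubT t memo d e k = k (mkT t d e) := by
  unfold bubT
  rw [hmemo, hmemo, hmemo, hmemo, hmemo]
  rfl

lemma bubTs_eq (d : L → ℕ) (es : List (ℕ × ℕ)) (k : List (Trip L) → Bool) :
    bubTs t memo d es k = k (es.map (mkT t d)) := by
  induction es generalizing k with
  | nil => rfl
  | cons e es ih =>
    have : bubTs t memo d (e :: es) k
        = bubT t memo d e fun T => bubTs t memo d es fun Ts => k (T :: Ts) := rfl
    rw [this, bubT_eq t hmemo, ih]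
    rfl

lemma chkRow_spec {d : L → ℕ} {es : List (ℕ × ℕ)} {ds : List (ℕ × ℕ × ℕ)} {row : List ℕ}
    (h : chkRow t memo d es ds row = true) (nij : ℕ × ℕ × ℕ) (hn : nij ∈ ds)
    (h1 : nij.2.1 < es.length) (h2 : nij.2.2 < es.length) :
    dval t (mkT t d (es.getD nij.2.1 (0, 0))) (mkT t d (es.getD nij.2.2 (0, 0))) % NN
      = row.getD nij.1 0 := by
  unfold chkRow at h
  rw [bubTs_eq t hmemo, allL_iff] at h
  have h3 := Nat.eq_of_beq_eq_true (h nij hn)
  rw [getL_eq, getL_eq, getL_eq] at h3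
  rw [← h3]
  have e1 : ∀ n, n < es.length → ∀ dflt, (es.map (mkT t d)).getD n dflt
      = mkT t d (es.getD n (0, 0)) := by
    intro n hn dflt
    rw [List.getD_eq_getElem _ _ (by simpa using hn), List.getD_eq_getElem _ _ hn,
      List.getElem_map]
  rw [e1 _ h1, e1 _ h2]
  rfl

end

section val

variable {L : Type} (t : Tables L)

lemma dval_eq (d : L → ℕ) (e e' : ℕ × ℕ) : dval t (mkT t d e) (mkT t d e')
    = t.val (pw d e.1) (pw d e.2) (pw d e'.1) (pw d e'.2) := by
  unfold dval Tables.val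
  rw [sumL_eq]
  congr 1
  refine List.map_congr_left fun x _ => ?_
  have hq : ∀ g h : L → ℕ, nq t g h = t.fq g h := by
    intro g h; funext x
    unfold nq Tables.fq
    rw [sumL_eq]; rfl
  have hn : ∀ q : L → ℕ, nnn t q = t.fn q := by
    intro g; funext x
    unfold nnn Tables.fn
    rw [sumL_eq]
  have hk : ∀ g h : L → ℕ, nk t g h = t.fk g h := by
    intro g h; funext x
    unfold nk Tables.fk
    rw [sumL_eq]; rfl
  unfold mkT
  simp only [hq, hn, hk]
  rfl

lemma val_cast (d : L → ℕ) (w : L → ℤ) (hd : ∀ l, ((d l : ℕ) : ZMod NN) = ((w l : ℤ) : ZMod NN))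
    (e e' : ℕ × ℕ) :
    ((dval t (mkT t d e) (mkT t d e') : ℕ) : ZMod NN)
      = ((t.val (fun l => w l ^ e.1) (fun l => w l ^ e.2) (fun l => w l ^ e'.1)
        (fun l => w l ^ e'.2) : ℤ) : ZMod NN) := by
  rw [dval_eq]
  have h1 := t.map_val (Nat.castRingHom (ZMod NN)) (pw d e.1) (pw d e.2) (pw d e'.1) (pw d e'.2)
  have h2 := t.map_val (Int.castRingHom (ZMod NN)) (fun l => w l ^ e.1) (fun l => w l ^ e.2)
    (fun l => w l ^ e'.1) (fun l => w l ^ e'.2)
  have h3 : ∀ p : ℕ, (fun l => (Nat.castRingHom (ZMod NN)) (pw d p l))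
      = fun l => (Int.castRingHom (ZMod NN)) (w l ^ p) := by
    intro p
    funext l
    show ((Nat.mod (Nat.pow (d l) p) NN : ℕ) : ZMod NN) = ((w l ^ p : ℤ) : ZMod NN)
    have : ((Nat.mod (Nat.pow (d l) p) NN : ℕ) : ZMod NN) = ((d l ^ p : ℕ) : ZMod NN) :=
      ZMod.natCast_mod _ _
    rw [this]
    push_cast
    rw [hd]
  rw [h3, h3, h3, h3] at h1
  exact h1.trans h2.symm

end val

end Pool.Agent.H76.Dasbach
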