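import Pool.Agent.H76.Dasbach.SO7

/-!
# The Lie algebra `so_7`: tables
-/

namespace Pool.Agent.H76.Dasbach

open Finset

/-- bubble table -/
def tq7 : L7 → List (L7 × L7)
  | .s16 => [(.s52, .s64), (.s53, .s63), (.s54, .s62), (.s55, .s61), (.s61, .s55), (.s61, .s66), (.s62, .s54), (.s63, .s53), (.s64, .s52), (.s66, .s61)]
  | .s25 => [(.s43, .s53), (.s44, .s52), (.s46, .s61), (.s52, .s44), (.s52, .s55), (.s53, .s43), (.s55, .s52), (.s56, .s62), (.s61, .s46), (.s62, .s56)]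
  | .s26 => [(.s43, .s63), (.s44, .s62), (.s45, .s61), (.s52, .s65), (.s61, .s45), (.s62, .s44), (.s62, .s66), (.s63, .s43), (.s65, .s52), (.s66, .s62)]
  | .s34 => [(.s35, .s52), (.s36, .s62), (.s43, .s44), (.s44, .s43), (.s45, .s53), (.s46, .s63), (.s52, .s35), (.s53, .s45), (.s62, .s36), (.s63, .s46)]
  | .s35 => [(.s34, .s52), (.s36, .s61), (.s43, .s54), (.s52, .s34), (.s53, .s55), (.s54, .s43), (.s55, .s53), (.s56, .s63), (.s61, .s36), (.s63, .s56)]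
  | .s36 => [(.s34, .s62), (.s35, .s61), (.s43, .s64), (.s53, .s65), (.s61, .s35), (.s62, .s34), (.s63, .s66), (.s64, .s43), (.s65, .s53), (.s66, .s63)]
  | .s43 => [(.s25, .s53), (.s26, .s63), (.s34, .s44), (.s35, .s54), (.s36, .s64), (.s44, .s34), (.s53, .s25), (.s54, .s35), (.s63, .s26), (.s64, .s36)]
  | .s44 => []
  | .s45 => [(.s26, .s61), (.s34, .s53), (.s44, .s54), (.s53, .s34), (.s54, .s44), (.s54, .s55), (.s55, .s54), (.s56, .s64), (.s61, .s26), (.s64, .s56)]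
  | .s46 => [(.s25, .s61), (.s34, .s63), (.s44, .s64), (.s54, .s65), (.s61, .s25), (.s63, .s34), (.s64, .s44), (.s64, .s66), (.s65, .s54), (.s66, .s64)]
  | .s52 => [(.s16, .s64), (.s25, .s44), (.s25, .s55), (.s26, .s65), (.s34, .s35), (.s35, .s34), (.s44, .s25), (.s55, .s25), (.s64, .s16), (.s65, .s26)]
  | .s53 => [(.s16, .s63), (.s25, .s43), (.s34, .s45), (.s35, .s55), (.s36, .s65), (.s43, .s25), (.s45, .s34), (.s55, .s35), (.s63, .s16), (.s65, .s36)]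
  | .s54 => [(.s16, .s62), (.s35, .s43), (.s43, .s35), (.s44, .s45), (.s45, .s44), (.s45, .s55), (.s46, .s65), (.s55, .s45), (.s62, .s16), (.s65, .s46)]
  | .s55 => []
  | .s56 => [(.s25, .s62), (.s35, .s63), (.s45, .s64), (.s55, .s65), (.s62, .s25), (.s63, .s35), (.s64, .s45), (.s65, .s55), (.s65, .s66), (.s66, .s65)]
  | .s61 => [(.s16, .s55), (.s16, .s66), (.s25, .s46), (.s26, .s45), (.s35, .s36), (.s36, .s35), (.s45, .s26), (.s46, .s25), (.s55, .s16), (.s66, .s16)]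
  | .s62 => [(.s16, .s54), (.s25, .s56), (.s26, .s44), (.s26, .s66), (.s34, .s36), (.s36, .s34), (.s44, .s26), (.s54, .s16), (.s56, .s25), (.s66, .s26)]
  | .s63 => [(.s16, .s53), (.s26, .s43), (.s34, .s46), (.s35, .s56), (.s36, .s66), (.s43, .s26), (.s46, .s34), (.s53, .s16), (.s56, .s35), (.s66, .s36)]
  | .s64 => [(.s16, .s52), (.s36, .s43), (.s43, .s36), (.s44, .s46), (.s45, .s56), (.s46, .s44), (.s46, .s66), (.s52, .s16), (.s56, .s45), (.s66, .s46)]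
  | .s65 => [(.s26, .s52), (.s36, .s53), (.s46, .s54), (.s52, .s26), (.s53, .s36), (.s54, .s46), (.s55, .s56), (.s56, .s55), (.s56, .s66), (.s66, .s56)]
  | .s66 => []

/-- connection table -/
def tn7 : L7 → List L7
  | .s16 => [.s52, .s53, .s54, .s61, .s61, .s62, .s63, .s64]
  | .s25 => [.s43, .s46, .s52, .s52, .s53, .s56, .s61, .s62]
  | .s26 => [.s43, .s45, .s52, .s61, .s62, .s62, .s63, .s65]
  | .s34 => [.s35, .s36, .s43, .s45, .s46, .s52, .s53, .s62, .s63]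
  | .s35 => [.s34, .s36, .s43, .s52, .s53, .s54, .s56, .s61, .s63]
  | .s36 => [.s34, .s35, .s43, .s53, .s61, .s62, .s63, .s64, .s65]
  | .s43 => [.s25, .s26, .s34, .s35, .s36, .s53, .s54, .s63, .s64]
  | .s44 => []
  | .s45 => [.s26, .s34, .s53, .s54, .s54, .s56, .s61, .s64]
  | .s46 => [.s25, .s34, .s54, .s61, .s63, .s64, .s64, .s65]
  | .s52 => [.s16, .s25, .s25, .s26, .s34, .s35, .s64, .s65]
  | .s53 => [.s16, .s25, .s34, .s35, .s36, .s43, .s45, .s63, .s65]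
  | .s54 => [.s16, .s35, .s43, .s45, .s45, .s46, .s62, .s65]
  | .s55 => []
  | .s56 => [.s25, .s35, .s45, .s62, .s63, .s64, .s65, .s65]
  | .s61 => [.s16, .s16, .s25, .s26, .s35, .s36, .s45, .s46]
  | .s62 => [.s16, .s25, .s26, .s26, .s34, .s36, .s54, .s56]
  | .s63 => [.s16, .s26, .s34, .s35, .s36, .s43, .s46, .s53, .s56]
  | .s64 => [.s16, .s36, .s43, .s45, .s46, .s46, .s52, .s56]
  | .s65 => [.s26, .s36, .s46, .s52, .s53, .s54, .s56, .s56]
  | .s66 => []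

/-- Cartan table -/
def tk7 : L7 → List (L7 × ℕ)
  | .s16 => [(.s16, 4), (.s25, 1), (.s26, 1), (.s35, 1), (.s36, 1), (.s45, 1), (.s46, 1), (.s52, 1), (.s53, 1), (.s54, 1), (.s61, 4), (.s62, 1), (.s63, 1), (.s64, 1)]
  | .s25 => [(.s16, 1), (.s25, 4), (.s26, 1), (.s34, 1), (.s35, 1), (.s43, 1), (.s46, 1), (.s52, 4), (.s53, 1), (.s56, 1), (.s61, 1), (.s62, 1), (.s64, 1), (.s65, 1)]
  | .s26 => [(.s16, 1), (.s25, 1), (.s26, 4), (.s34, 1), (.s36, 1), (.s43, 1), (.s45, 1), (.s52, 1), (.s54, 1), (.s56, 1), (.s61, 1), (.s62, 4), (.s63, 1), (.s65, 1)]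
  | .s34 => [(.s25, 1), (.s26, 1), (.s34, 1), (.s43, 1), (.s45, 1), (.s46, 1), (.s52, 1), (.s54, 1), (.s62, 1), (.s64, 1)]
  | .s35 => [(.s16, 1), (.s25, 1), (.s35, 1), (.s45, 1), (.s52, 1), (.s53, 1), (.s54, 1), (.s56, 1), (.s61, 1), (.s65, 1)]
  | .s36 => [(.s16, 1), (.s26, 1), (.s36, 1), (.s46, 1), (.s56, 1), (.s61, 1), (.s62, 1), (.s63, 1), (.s64, 1), (.s65, 1)]
  | .s43 => [(.s25, 1), (.s26, 1), (.s34, 1), (.s43, 1), (.s45, 1), (.s46, 1), (.s52, 1), (.s54, 1), (.s62, 1), (.s64, 1)]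
  | .s44 => []
  | .s45 => [(.s16, 1), (.s26, 1), (.s34, 1), (.s35, 1), (.s43, 1), (.s45, 4), (.s46, 1), (.s53, 1), (.s54, 4), (.s56, 1), (.s61, 1), (.s62, 1), (.s64, 1), (.s65, 1)]
  | .s46 => [(.s16, 1), (.s25, 1), (.s34, 1), (.s36, 1), (.s43, 1), (.s45, 1), (.s46, 4), (.s52, 1), (.s54, 1), (.s56, 1), (.s61, 1), (.s63, 1), (.s64, 4), (.s65, 1)]
  | .s52 => [(.s16, 1), (.s25, 4), (.s26, 1), (.s34, 1), (.s35, 1), (.s43, 1), (.s46, 1), (.s52, 4), (.s53, 1), (.s56, 1), (.s61, 1), (.s62, 1), (.s64, 1), (.s65, 1)]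
  | .s53 => [(.s16, 1), (.s25, 1), (.s35, 1), (.s45, 1), (.s52, 1), (.s53, 1), (.s54, 1), (.s56, 1), (.s61, 1), (.s65, 1)]
  | .s54 => [(.s16, 1), (.s26, 1), (.s34, 1), (.s35, 1), (.s43, 1), (.s45, 4), (.s46, 1), (.s53, 1), (.s54, 4), (.s56, 1), (.s61, 1), (.s62, 1), (.s64, 1), (.s65, 1)]
  | .s55 => []
  | .s56 => [(.s25, 1), (.s26, 1), (.s35, 1), (.s36, 1), (.s45, 1), (.s46, 1), (.s52, 1), (.s53, 1), (.s54, 1), (.s56, 4), (.s62, 1), (.s63, 1), (.s64, 1), (.s65, 4)]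
  | .s61 => [(.s16, 4), (.s25, 1), (.s26, 1), (.s35, 1), (.s36, 1), (.s45, 1), (.s46, 1), (.s52, 1), (.s53, 1), (.s54, 1), (.s61, 4), (.s62, 1), (.s63, 1), (.s64, 1)]
  | .s62 => [(.s16, 1), (.s25, 1), (.s26, 4), (.s34, 1), (.s36, 1), (.s43, 1), (.s45, 1), (.s52, 1), (.s54, 1), (.s56, 1), (.s61, 1), (.s62, 4), (.s63, 1), (.s65, 1)]
  | .s63 => [(.s16, 1), (.s26, 1), (.s36, 1), (.s46, 1), (.s56, 1), (.s61, 1), (.s62, 1), (.s63, 1), (.s64, 1), (.s65, 1)]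
  | .s64 => [(.s16, 1), (.s25, 1), (.s34, 1), (.s36, 1), (.s43, 1), (.s45, 1), (.s46, 4), (.s52, 1), (.s54, 1), (.s56, 1), (.s61, 1), (.s63, 1), (.s64, 4), (.s65, 1)]
  | .s65 => [(.s25, 1), (.s26, 1), (.s35, 1), (.s36, 1), (.s45, 1), (.s46, 1), (.s52, 1), (.s53, 1), (.s54, 1), (.s56, 4), (.s62, 1), (.s63, 1), (.s64, 1), (.s65, 4)]
  | .s66 => []

/-- The tables for `so_7`. -/
def tab7 : Tables L7 where
  roots := roots7
  st := L7.st
  tq := tq7
  tn := tn7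
  tk := tk7

/-- Cartan labels -/
def cart7 (l : L7) : Prop := l.fst = l.snd

instance : DecidablePred cart7 := fun l => inferInstanceAs (Decidable (l.fst = l.snd))

/-- separating coordinates -/
def c7 : I7 → ℤ
  | .j0 => -100
  | .j1 => -10
  | .j2 => -1
  | .j3 => 0
  | .j4 => 1
  | .j5 => 10
  | .j6 => 100

lemma c7_bar (i : I7) : c7 i.bar = - c7 i := by cases i <;> rfl

lemma c7_sep : ∀ x y : L7, (c7 x.fst - c7 x.snd) + (c7 y.fst - c7 y.snd) = 0 →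
    (cart7 x ∧ cart7 y) ∨ (¬ cart7 x ∧ y = x.st) := by decide +kernel

lemma T7_weight (a b c : I7 × I7) (h : T7 a b c ≠ 0) :
    (c7 a.1 - c7 a.2) + (c7 b.1 - c7 b.2) + (c7 c.1 - c7 c.2) = 0 := by
  have hP : ∀ a b c : I7 × I7, glP ℤ a b c ≠ 0 →
      (c7 a.1 - c7 a.2) + (c7 b.1 - c7 b.2) + (c7 c.1 - c7 c.2) = 0 := by
    intro a b c h
    obtain ⟨e1, e2, e3⟩ := glP_ne _ _ _ h
    rw [e1, e2, e3]; ring
  have hr : ∀ a : I7 × I7, c7 (rf a).1 - c7 (rf a).2 = c7 a.1 - c7 a.2 := by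
    intro a
    simp only [rf, c7_bar]
    ring
  by_contra hne
  apply h
  have z : ∀ a' b' c' : I7 × I7, (a' = a ∨ a' = rf a) → (b' = b ∨ b' = rf b) →
      (c' = c ∨ c' = rf c) → glP ℤ a' b' c' = 0 := by
    intro a' b' c' ha hb hc
    by_contra h'
    have := hP _ _ _ h'
    apply hne
    have ea : c7 a'.1 - c7 a'.2 = c7 a.1 - c7 a.2 := by
      rcases ha with rfl | rfl
      · rfl
      · exact hr _
    have eb : c7 b'.1 - c7 b'.2 = c7 b.1 - c7 b.2 := by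
      rcases hb with rfl | rfl
      · rfl
      · exact hr _
    have ec : c7 c'.1 - c7 c'.2 = c7 c.1 - c7 c.2 := by
      rcases hc with rfl | rfl
      · rfl
      · exact hr _
    rw [← ea, ← eb, ← ec]
    exact this
  unfold T7
  rw [z a b c (Or.inl rfl) (Or.inl rfl) (Or.inl rfl), z (rf a) b c (Or.inr rfl) (Or.inl rfl)
    (Or.inl rfl), z a (rf b) c (Or.inl rfl) (Or.inr rfl) (Or.inl rfl),
    z a b (rf c) (Or.inl rfl) (Or.inl rfl) (Or.inr rfl),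
    z (rf a) (rf b) c (Or.inr rfl) (Or.inr rfl) (Or.inl rfl),
    z (rf a) b (rf c) (Or.inr rfl) (Or.inl rfl) (Or.inr rfl),
    z a (rf b) (rf c) (Or.inl rfl) (Or.inr rfl) (Or.inr rfl),
    z (rf a) (rf b) (rf c) (Or.inr rfl) (Or.inr rfl) (Or.inr rfl)]
  ring

lemma so7_czero : ∀ x ∈ code7.carts, ∀ a ∈ L7.elems, ∀ y ∈ code7.carts,
    Nat.beq (code7.sq x a y) 0 = true := by
  have h : allL (fun x => allL (fun a => allL (fun y => Nat.beq (code7.sq x a y) 0) code7.carts)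
    L7.elems) code7.carts = true := by decide +kernel
  simpa only [allL_iff] using h

lemma carts7 (x : L7) : x ∈ code7.carts ↔ cart7 x := by
  revert x
  show ∀ x : L7, x ∈ [L7.s44, L7.s55, L7.s66] ↔ cart7 x
  decide +kernel

lemma so7_rooted (y0 y1 y2 : ℤ) : (soData y0 y1 y2).IsRooted cart7 where
  tstar a b c := by
    show T7 a.st.pr b.st.pr c.st.pr = - T7 a.pr b.pr c.pr
    rw [pr_st, pr_st, pr_st, T7_swap]
  rt l m x y h1 h2 := by
    apply c7_sep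
    have e1 := T7_weight _ _ _ h1
    have e2 := T7_weight (L7.pr l.st) (L7.pr m.st) (L7.pr y) h2
    rw [pr_st, pr_st] at e2
    simp only [Prod.fst_swap, Prod.snd_swap, L7.pr] at e1 e2
    linarith
  cstar x h := by
    show L7.st x = x
    apply L7.pr_inj
    · rw [L7.fst_st]; exact h.symm
    · rw [L7.snd_st]; exact h
  czero x a y hx hy := by
    have h := Nat.eq_of_beq_eq_true (so7_czero x ((carts7 x).2 hx) a (L7.mem_elems a) y
      ((carts7 y).2 hy))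
    have h'' := T7_sq x a y
    rw [h] at h''
    show T7 x.pr a.pr y.pr = 0
    exact pow_eq_zero_iff (two_ne_zero) |>.1 (by simpa using h'')

lemma so7_code (y0 y1 y2 : ℤ) : (soData y0 y1 y2).IsCode cart7 code7 where
  elems := L7.mem_elems
  nodup := L7.nodup_elems
  roots_nodup := by
    show roots7.Nodup
    decide +kernel
  roots := by
    show ∀ x, x ∈ roots7 ↔ ¬ cart7 x
    decide +kernel
  carts_nodup := by
    show [L7.s44, L7.s55, L7.s66].Nodup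
    decide +kernel
  carts := carts7
  st _ := rfl
  eq := eq7_iff
  T a b c := T7_code a b c

lemma chkQ7 : code7.chkQ tab7 = true := by decide +kernel

lemma chkN7 : code7.chkN tab7 = true := by decide +kernel

lemma chkK7 : code7.chkK tab7 = true := by decide +kernel

lemma so7_tables (y0 y1 y2 : ℤ) : (soData y0 y1 y2).IsTables cart7 tab7 :=
  LieData.isTables_of_code (so7_code y0 y1 y2) rfl rfl chkQ7 chkN7 chkK7 chkD7

end Pool.Agent.H76.Dasbach
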