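import Pool.Agent.H76.Dasbach.Memo
import Pool.Agent.H76.Dasbach.GL5
import Pool.Agent.H76.Dasbach.SO7T

/-!
# Memo functions and exponents
-/

namespace Pool.Agent.H76.Dasbach

open Finset

/-- exponents of the bubbles -/
def esL : List (ℕ × ℕ) :=
  [(1, 0), (2, 0), (3, 1), (4, 0), (4, 1), (5, 0), (5, 2), (5, 3), (6, 1), (7, 0), (7, 1), (7,
    3), (8, 0), (9, 0), (9, 1), (10, 0), (10, 2), (10, 3), (11, 0), (11, 1), (11, 2), (12, 0),
    (12, 1), (13, 0), (13, 3), (14, 1), (15, 0), (16, 0), (17, 1), (18, 0), (19, 0)]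

/-- the diagrams: number, first bubble, second bubble -/
def dsL : List (ℕ × ℕ × ℕ) :=
  [(0, 11, 11), (1, 14, 11), (2, 14, 14), (3, 15, 11), (4, 15, 14), (5, 15, 15), (6, 16, 7), (7,
    16, 10), (8, 16, 12), (9, 17, 6), (10, 17, 8), (11, 17, 9), (12, 18, 13), (13, 19, 7), (14,
    19, 10), (15, 19, 12), (16, 20, 6), (17, 20, 8), (18, 20, 9), (19, 21, 7), (20, 21, 10), (21,
    21, 12), (22, 22, 6), (23, 22, 8), (24, 22, 9), (25, 23, 6), (26, 23, 8), (27, 23, 9), (28,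
    24, 2), (29, 24, 3), (30, 25, 4), (31, 25, 5), (32, 26, 4), (33, 26, 5), (34, 27, 2), (35, 27,
    3), (36, 28, 1), (37, 29, 1), (38, 30, 0)]

/-- function from values -/
noncomputable def fun5 (v00 v01 v02 v03 v04 v10 v11 v12 v13 v14 v20 v21 v22 v23 v24 v30 v31 v32 v33 v34 v40 v41 v42 v43 v44 : ℕ)
    (l : I5 × I5) : ℕ :=
  @I5.rec (fun _ => ℕ)
    (@I5.rec (fun _ => ℕ) v00 v01 v02 v03 v04 l.2)
    (@I5.rec (fun _ => ℕ) v10 v11 v12 v13 v14 l.2)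
    (@I5.rec (fun _ => ℕ) v20 v21 v22 v23 v24 l.2)
    (@I5.rec (fun _ => ℕ) v30 v31 v32 v33 v34 l.2)
    (@I5.rec (fun _ => ℕ) v40 v41 v42 v43 v44 l.2) l.1

/-- memo for `gl_5` -/
noncomputable def memo5 (f : I5 × I5 → ℕ) (k : (I5 × I5 → ℕ) → Bool) : Bool :=
  force (f (.i0, .i0)) fun v00 =>
  force (f (.i0, .i1)) fun v01 =>
  force (f (.i0, .i2)) fun v02 =>
  force (f (.i0, .i3)) fun v03 =>
  force (f (.i0, .i4)) fun v04 =>
  force (f (.i1, .i0)) fun v10 =>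
  force (f (.i1, .i1)) fun v11 =>
  force (f (.i1, .i2)) fun v12 =>
  force (f (.i1, .i3)) fun v13 =>
  force (f (.i1, .i4)) fun v14 =>
  force (f (.i2, .i0)) fun v20 =>
  force (f (.i2, .i1)) fun v21 =>
  force (f (.i2, .i2)) fun v22 =>
  force (f (.i2, .i3)) fun v23 =>
  force (f (.i2, .i4)) fun v24 =>
  force (f (.i3, .i0)) fun v30 =>
  force (f (.i3, .i1)) fun v31 =>
  force (f (.i3, .i2)) fun v32 =>
  force (f (.i3, .i3)) fun v33 =>
  force (f (.i3, .i4)) fun v34 =>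
  force (f (.i4, .i0)) fun v40 =>
  force (f (.i4, .i1)) fun v41 =>
  force (f (.i4, .i2)) fun v42 =>
  force (f (.i4, .i3)) fun v43 =>
  force (f (.i4, .i4)) fun v44 =>
  k (fun5 v00 v01 v02 v03 v04 v10 v11 v12 v13 v14 v20 v21 v22 v23 v24 v30 v31 v32 v33 v34 v40 v41 v42 v43 v44)

lemma memo5_eq (f : I5 × I5 → ℕ) (k : (I5 × I5 → ℕ) → Bool) : memo5 f k = k f := by
  unfold memo5
  simp only [force_eq]
  congr 1
  funext ⟨i, j⟩
  cases i <;> cases j <;> rfl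

/-- function from values -/
noncomputable def fun7 (v16 v25 v26 v34 v35 v36 v43 v44 v45 v46 v52 v53 v54 v55 v56 v61 v62 v63 v64 v65 v66 : ℕ)
    (l : L7) : ℕ :=
  @L7.rec (fun _ => ℕ) v16 v25 v26 v34 v35 v36 v43 v44 v45 v46 v52 v53 v54 v55 v56 v61 v62 v63 v64 v65 v66 l

/-- memo for `so_7` -/
noncomputable def memo7 (f : L7 → ℕ) (k : (L7 → ℕ) → Bool) : Bool :=
  force (f .s16) fun v16 =>
  force (f .s25) fun v25 =>
  force (f .s26) fun v26 =>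
  force (f .s34) fun v34 =>
  force (f .s35) fun v35 =>
  force (f .s36) fun v36 =>
  force (f .s43) fun v43 =>
  force (f .s44) fun v44 =>
  force (f .s45) fun v45 =>
  force (f .s46) fun v46 =>
  force (f .s52) fun v52 =>
  force (f .s53) fun v53 =>
  force (f .s54) fun v54 =>
  force (f .s55) fun v55 =>
  force (f .s56) fun v56 =>
  force (f .s61) fun v61 =>
  force (f .s62) fun v62 =>
  force (f .s63) fun v63 =>
  force (f .s64) fun v64 =>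
  force (f .s65) fun v65 =>
  force (f .s66) fun v66 =>
  k (fun7 v16 v25 v26 v34 v35 v36 v43 v44 v45 v46 v52 v53 v54 v55 v56 v61 v62 v63 v64 v65 v66)

lemma memo7_eq (f : L7 → ℕ) (k : (L7 → ℕ) → Bool) : memo7 f k = k f := by
  unfold memo7
  simp only [force_eq]
  congr 1
  funext i
  cases i <;> rfl

/-- differences for `gl_5` -/
noncomputable def d5 (v0 v1 v2 v3 v4 : ℕ) (l : I5 × I5) : ℕ :=
  Nat.mod (Nat.add (@I5.rec (fun _ => ℕ) v0 v1 v2 v3 v4 l.1)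
    (Nat.sub NN (@I5.rec (fun _ => ℕ) v0 v1 v2 v3 v4 l.2))) NN

/-- differences for `so_7` -/
noncomputable def d7 (v0 v1 v2 : ℕ) (l : L7) : ℕ :=
  Nat.mod (Nat.add
    (@I7.rec (fun _ => ℕ) (Nat.sub NN v2) (Nat.sub NN v1) (Nat.sub NN v0) 0 v0 v1 v2 l.fst)
    (@I7.rec (fun _ => ℕ) v2 v1 v0 0 (Nat.sub NN v0) (Nat.sub NN v1) (Nat.sub NN v2) l.snd)) NN

/-- the integral point for `gl_5` -/
def x5 (v0 v1 v2 v3 v4 : ℕ) : I5 → ℤ
  | .i0 => v0
  | .i1 => v1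
  | .i2 => v2
  | .i3 => v3
  | .i4 => v4

lemma cast_sub_NN (a : ℕ) (h : a ≤ NN) : ((NN - a : ℕ) : ZMod NN) = - (a : ZMod NN) := by
  rw [Nat.cast_sub h, ZMod.natCast_self, zero_sub]

lemma d5_cast (v0 v1 v2 v3 v4 : ℕ) (h0 : v0 ≤ NN) (h1 : v1 ≤ NN) (h2 : v2 ≤ NN) (h3 : v3 ≤ NN)
    (h4 : v4 ≤ NN) (l : I5 × I5) : ((d5 v0 v1 v2 v3 v4 l : ℕ) : ZMod NN)
      = (((glData (x5 v0 v1 v2 v3 v4)).wt l : ℤ) : ZMod NN) := by
  obtain ⟨i, j⟩ := l
  have e : ∀ a b : ℕ, b ≤ NN → ((Nat.mod (Nat.add a (Nat.sub NN b)) NN : ℕ) : ZMod NN)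
      = (((a : ℤ) - (b : ℤ) : ℤ) : ZMod NN) := by
    intro a b hb
    have : ((Nat.mod (Nat.add a (Nat.sub NN b)) NN : ℕ) : ZMod NN)
        = ((a + (NN - b) : ℕ) : ZMod NN) := ZMod.natCast_mod _ _
    rw [this, Nat.cast_add, cast_sub_NN b hb]
    push_cast
    ring
  cases i <;> cases j <;> first
    | exact e _ _ h0
    | exact e _ _ h1
    | exact e _ _ h2
    | exact e _ _ h3
    | exact e _ _ h4

lemma d7_cast (v0 v1 v2 : ℕ) (h0 : v0 ≤ NN) (h1 : v1 ≤ NN) (h2 : v2 ≤ NN) (l : L7) :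
    ((d7 v0 v1 v2 l : ℕ) : ZMod NN) = (((soData v0 v1 v2).wt l : ℤ) : ZMod NN) := by
  have e : ∀ a b : ℕ, ((Nat.mod (Nat.add a b) NN : ℕ) : ZMod NN)
      = ((a : ℕ) : ZMod NN) + ((b : ℕ) : ZMod NN) := by
    intro a b
    have : ((Nat.mod (Nat.add a b) NN : ℕ) : ZMod NN) = ((a + b : ℕ) : ZMod NN) :=
      ZMod.natCast_mod _ _
    rw [this, Nat.cast_add]
  have c0 := cast_sub_NN v0 h0
  have c1 := cast_sub_NN v1 h1
  have c2 := cast_sub_NN v2 h2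
  unfold d7
  rw [e]
  have s0 : Nat.sub NN v0 = NN - v0 := rfl
  have s1 : Nat.sub NN v1 = NN - v1 := rfl
  have s2 : Nat.sub NN v2 = NN - v2 := rfl
  rw [s0, s1, s2]
  show _ = ((x7 v0 v1 v2 l.fst - x7 v0 v1 v2 l.snd : ℤ) : ZMod NN)
  cases l <;> simp only [L7.fst, L7.snd, x7] <;> push_cast <;> rw [sub_eq_add_neg] <;>
    simp [c0, c1, c2]

end Pool.Agent.H76.Dasbach
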