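import Pool.Agent.H76.Dasbach.Count

/-!
# Linear algebra; finiteness of the dimension; the family of graphs
-/

namespace Pool.Agent.H76.Dasbach

open Finset

section rank

lemma linInd_of_pairing {V : Type*} [AddCommGroup V] [Module ℚ V] {n : ℕ} (v : Fin n → V)
    (f : Fin n → (V →ₗ[ℚ] ℚ)) (m : Fin n → Fin n → ℤ) (hm : ∀ i j, f i (v j) = m i j)
    (N : ℕ) (hN : 1 < N) (C : Fin n → Fin n → ZMod N)
    (hC : ∀ k j, ∑ i, C k i * (m i j : ZMod N) = if k = j then 1 else 0) :
    LinearIndependent ℚ v := by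
  haveI : Fact (1 < N) := ⟨hN⟩
  haveI : Nontrivial (ZMod N) := ZMod.nontrivial N
  let M : Matrix (Fin n) (Fin n) ℤ := Matrix.of m
  have h1 : Matrix.of C * M.map (Int.castRingHom (ZMod N)) = 1 := by
    ext k j
    rw [Matrix.mul_apply, Matrix.one_apply]
    exact hC k j
  have hdet : M.det ≠ 0 := by
    intro h0
    have h2 := congrArg Matrix.det h1
    rw [Matrix.det_mul, Matrix.det_one] at h2
    have h3 : (M.map (Int.castRingHom (ZMod N))).det = 0 := by
      have := RingHom.map_det (Int.castRingHom (ZMod N)) M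
      rw [h0, map_zero] at this
      exact this.symm
    rw [h3, mul_zero] at h2
    exact zero_ne_one h2
  have hdetQ : (M.map (Int.castRingHom ℚ)).det ≠ 0 := by
    have := RingHom.map_det (Int.castRingHom ℚ) M
    have h4 : (M.map (Int.castRingHom ℚ)).det = ((M.det : ℤ) : ℚ) := this.symm
    rw [h4]
    exact_mod_cast hdet
  rw [Fintype.linearIndependent_iff]
  intro g hg
  have h5 : (M.map (Int.castRingHom ℚ)).mulVec g = 0 := by
    funext i
    have h6 := congrArg (f i) hg
    rw [map_sum, map_zero] at h6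
    simp only [map_smul, hm, smul_eq_mul] at h6
    show ∑ j, (m i j : ℚ) * g j = 0
    rw [← h6]
    refine Finset.sum_congr rfl fun j _ => mul_comm _ _
  have h7 := Matrix.eq_zero_of_mulVec_eq_zero hdetQ h5
  intro i
  rw [h7]; rfl

end rank

section findim

lemma cls_eq_of_iso {G G' : Graph} (h : G.IsIso G') : cls G = cls G' := by
  unfold cls
  rw [← sub_eq_zero, ← map_sub, Submodule.mkQ_apply, Submodule.Quotient.mk_eq_zero]
  exact Submodule.subset_span (Or.inl (Or.inl ⟨G, G', h, rfl⟩))

open Classical in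
/-- A graph on `Fin n`. -/
noncomputable def clsFin (n : ℕ) (x : Equiv.Perm (Fin n) × Equiv.Perm (Fin n)) : B :=
  if h : (∀ h, x.1 (x.1 (x.1 h)) = h) ∧ (∀ h, x.2 (x.2 h) = h) ∧ ∀ h, x.2 h ≠ h then
    cls ⟨Fin n, inferInstance, x.1, x.2, h.1, h.2.1, h.2.2⟩ else 0

lemma cls_mem (G : Graph) : cls G ∈ Set.range (clsFin (Nat.card G.H)) := by
  let e : G.H ≃ Fin (Nat.card G.H) := Finite.equivFin G.H
  refine ⟨(e.permCongr G.rot, e.permCongr G.opp), ?_⟩
  have h : (∀ h, (e.permCongr G.rot) ((e.permCongr G.rot) ((e.permCongr G.rot) h)) = h) ∧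
      (∀ h, (e.permCongr G.opp) ((e.permCongr G.opp) h) = h) ∧
      ∀ h, (e.permCongr G.opp) h ≠ h := by
    refine ⟨fun x => ?_, fun x => ?_, fun x hx => ?_⟩
    · simp [Equiv.permCongr_apply, G.rot_rot_rot]
    · simp [Equiv.permCongr_apply, G.opp_opp]
    · rw [Equiv.permCongr_apply] at hx
      apply G.opp_ne (e.symm x)
      apply e.injective
      rw [hx, Equiv.apply_symm_apply]
  unfold clsFin
  rw [dif_pos h]
  symm
  apply cls_eq_of_iso
  refine ⟨e, fun x => ?_, fun x => ?_⟩
  · simp [Equiv.permCongr_apply]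
  · simp [Equiv.permCongr_apply]

instance finite_Bconn (d u : ℕ) : Module.Finite ℚ (Bconn d u) := by
  unfold Bconn
  have hfin : Set.Finite {x : B | ∃ G : Graph, G.Connected ∧ G.numVertices = 2 * d ∧
      G.numUnivalent = u ∧ x = cls G} := by
    refine Set.Finite.subset (Set.Finite.biUnion (Set.finite_Iic (6 * d))
      (fun n _ => Set.finite_range (clsFin n))) ?_
    rintro x ⟨G, _, h1, _, rfl⟩
    refine Set.mem_biUnion (x := Nat.card G.H) ?_ (cls_mem G)
    have := G.three_mul_numVertices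
    simp only [Set.mem_Iic]
    omega
  exact Module.Finite.span_of_finite ℚ hfin

end findim

end Pool.Agent.H76.Dasbach
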