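import Pool.Agent.H76.Dasbach.GL
import Pool.Agent.H76.Dasbach.Code

/-!
# The Lie algebra `so_7`
-/

namespace Pool.Agent.H76.Dasbach

open Finset

/-- Seven indices. -/
inductive I7 : Type
  | j0 | j1 | j2 | j3 | j4 | j5 | j6
  deriving DecidableEq

namespace I7

instance : Fintype I7 where
  elems := {j0, j1, j2, j3, j4, j5, j6}
  complete := by intro x; cases x <;> decide

/-- opposite index -/
def bar : I7 → I7
  | j0 => j6
  | j1 => j5
  | j2 => j4
  | j3 => j3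
  | j4 => j2
  | j5 => j1
  | j6 => j0

lemma bar_bar (i : I7) : bar (bar i) = i := by cases i <;> rfl

/-- number of an index -/
def idx : I7 → ℕ
  | j0 => 0
  | j1 => 1
  | j2 => 2
  | j3 => 3
  | j4 => 4
  | j5 => 5
  | j6 => 6

lemma idx_inj : ∀ a b : I7, idx a = idx b → a = b := by decide

lemma sum_eq {M : Type} [AddCommMonoid M] (f : I7 → M) :
    ∑ i, f i = f j0 + (f j1 + (f j2 + (f j3 + (f j4 + (f j5 + f j6))))) := by
  show ∑ i ∈ ({j0, j1, j2, j3, j4, j5, j6} : Finset I7), f i = _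
  rw [Finset.sum_insert (by decide), Finset.sum_insert (by decide), Finset.sum_insert (by decide),
    Finset.sum_insert (by decide), Finset.sum_insert (by decide), Finset.sum_insert (by decide),
    Finset.sum_singleton]

end I7

/-- The 21 labels for `so_7`. -/
inductive L7 : Type
  | s16 | s25 | s26 | s34 | s35 | s36 | s43 | s44 | s45 | s46 | s52 | s53 | s54 | s55 | s56 | s61 | s62 | s63 | s64 | s65 | s66
  deriving DecidableEq

namespace L7

/-- list of labels -/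
def elems : List L7 := [.s16, .s25, .s26, .s34, .s35, .s36, .s43, .s44, .s45, .s46, .s52, .s53, .s54, .s55, .s56, .s61, .s62, .s63, .s64, .s65, .s66]

lemma mem_elems (x : L7) : x ∈ elems := by cases x <;> decide

lemma nodup_elems : elems.Nodup := by decide

instance : Fintype L7 where
  elems := ⟨elems, nodup_elems⟩
  complete := mem_elems

/-- first index -/
def fst : L7 → I7
  | s16 => .j1
  | s25 => .j2
  | s26 => .j2
  | s34 => .j3
  | s35 => .j3
  | s36 => .j3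
  | s43 => .j4
  | s44 => .j4
  | s45 => .j4
  | s46 => .j4
  | s52 => .j5
  | s53 => .j5
  | s54 => .j5
  | s55 => .j5
  | s56 => .j5
  | s61 => .j6
  | s62 => .j6
  | s63 => .j6
  | s64 => .j6
  | s65 => .j6
  | s66 => .j6

/-- second index -/
def snd : L7 → I7
  | s16 => .j6
  | s25 => .j5
  | s26 => .j6
  | s34 => .j4
  | s35 => .j5
  | s36 => .j6
  | s43 => .j3
  | s44 => .j4
  | s45 => .j5
  | s46 => .j6
  | s52 => .j2
  | s53 => .j3
  | s54 => .j4
  | s55 => .j5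
  | s56 => .j6
  | s61 => .j1
  | s62 => .j2
  | s63 => .j3
  | s64 => .j4
  | s65 => .j5
  | s66 => .j6

/-- transposition -/
def st : L7 → L7
  | s16 => s61
  | s25 => s52
  | s26 => s62
  | s34 => s43
  | s35 => s53
  | s36 => s63
  | s43 => s34
  | s44 => s44
  | s45 => s54
  | s46 => s64
  | s52 => s25
  | s53 => s35
  | s54 => s45
  | s55 => s55
  | s56 => s65
  | s61 => s16
  | s62 => s26
  | s63 => s36
  | s64 => s46
  | s65 => s56
  | s66 => s66

/-- as a pair -/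
def pr (a : L7) : I7 × I7 := (a.fst, a.snd)

lemma st_st (a : L7) : st (st a) = a := by cases a <;> rfl

lemma fst_st (a : L7) : (st a).fst = a.snd := by cases a <;> rfl

lemma snd_st (a : L7) : (st a).snd = a.fst := by cases a <;> rfl

lemma sum_eq {M : Type} [AddCommMonoid M] (f : L7 → M) : ∑ a, f a = (elems.map f).sum := by
  show Multiset.sum (Multiset.map f (elems : Multiset L7)) = _
  rw [Multiset.map_coe, Multiset.sum_coe]

end L7

/-- reflected pair -/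
def rf (a : I7 × I7) : I7 × I7 := (a.2.bar, a.1.bar)

lemma rf_rf (a : I7 × I7) : rf (rf a) = a := by
  unfold rf; simp [I7.bar_bar]

lemma glP_rf (a b c : I7 × I7) : glP ℤ (rf a) (rf b) (rf c) = glP ℤ c b a := by
  unfold glP rf
  have h : ∀ i j : I7, i.bar = j.bar ↔ i = j := by
    intro i j
    constructor
    · intro e; rw [← I7.bar_bar i, e, I7.bar_bar]
    · rintro rfl; rfl
  simp only [h]
  refine if_congr ?_ rfl rfl
  constructor
  · rintro ⟨h1, h2, h3⟩; exact ⟨h2.symm, h1.symm, h3.symm⟩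
  · rintro ⟨h1, h2, h3⟩; exact ⟨h2.symm, h1.symm, h3.symm⟩

/-- Structure constants on pairs. -/
def T7 (a b c : I7 × I7) : ℤ :=
  glP ℤ a b c - glP ℤ (rf a) b c - glP ℤ a (rf b) c - glP ℤ a b (rf c)
    + glP ℤ (rf a) (rf b) c + glP ℤ (rf a) b (rf c) + glP ℤ a (rf b) (rf c)
    - glP ℤ (rf a) (rf b) (rf c)

lemma T7_cyc (a b c : I7 × I7) : T7 a b c = T7 b c a := by
  unfold T7
  rw [glP_cyc a b c, glP_cyc (rf a) b c, glP_cyc a (rf b) c, glP_cyc a b (rf c),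
    glP_cyc (rf a) (rf b) c, glP_cyc (rf a) b (rf c), glP_cyc a (rf b) (rf c),
    glP_cyc (rf a) (rf b) (rf c)]
  ring

lemma glP_rf1 (a b c : I7 × I7) : glP ℤ (rf a) b c = glP ℤ a (rf c) (rf b) := by
  have := glP_rf a (rf b) (rf c)
  rw [rf_rf, rf_rf] at this
  rw [this, ← glP_cyc a (rf c) (rf b)]

lemma T7_anti (a b c : I7 × I7) : T7 b a c = - T7 a b c := by
  have h0 := glP_rf a b c
  have h1 := glP_rf b a c
  have h2 := glP_rf1 a b c
  have h3 := glP_rf1 b a c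
  have h4 := glP_rf1 c a b
  have h5 := glP_rf1 c b a
  have c1 := glP_cyc (R := ℤ) c b a
  have c2 := glP_cyc (R := ℤ) c a b
  have c3 := glP_cyc (R := ℤ) a (rf c) (rf b)
  have c4 := glP_cyc (R := ℤ) (rf c) (rf b) a
  have c5 := glP_cyc (R := ℤ) b (rf c) (rf a)
  have c6 := glP_cyc (R := ℤ) (rf c) (rf a) b
  have c7 := glP_cyc (R := ℤ) c (rf b) (rf a)
  have c8 := glP_cyc (R := ℤ) c (rf a) (rf b)
  have c9 := glP_cyc (R := ℤ) (rf c) a b
  have c10 := glP_cyc (R := ℤ) (rf c) b a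
  have c11 := glP_cyc (R := ℤ) b (rf a) c
  have h6 := glP_rf1 a c b
  have c12 := glP_cyc (R := ℤ) a (rf b) c
  have h7 := glP_rf1 b c a
  unfold T7
  linarith

lemma rf_swap (a : I7 × I7) : rf (Prod.swap a) = Prod.swap (rf a) := rfl

lemma glP_swap (a b c : I7 × I7) : glP ℤ (Prod.swap a) (Prod.swap b) (Prod.swap c)
    = glP ℤ c b a := by
  unfold glP
  refine if_congr ?_ rfl rfl
  simp only [Prod.fst_swap, Prod.snd_swap]
  constructor
  · rintro ⟨h1, h2, h3⟩; exact ⟨h2.symm, h1.symm, h3.symm⟩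
  · rintro ⟨h1, h2, h3⟩; exact ⟨h2.symm, h1.symm, h3.symm⟩

lemma T7_swap (a b c : I7 × I7) : T7 (Prod.swap a) (Prod.swap b) (Prod.swap c)
    = - T7 a b c := by
  have h : T7 (Prod.swap a) (Prod.swap b) (Prod.swap c) = T7 c b a := by
    unfold T7
    simp only [rf_swap, glP_swap]
    ring
  rw [h, ← T7_anti, T7_cyc]

/-- matrix of a label -/
def FF (a : I7 × I7) : Matrix I7 I7 ℤ := EE ℤ a - EE ℤ (rf a)

lemma EE_mul' (l a b : I7 × I7) : (EE ℤ a * EE ℤ b) l.2 l.1 = glP ℤ l a b := by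
  rw [EE_mul]
  unfold glP
  refine if_congr ?_ rfl rfl
  constructor
  · rintro ⟨h1, h2, h3⟩; exact ⟨h1.symm, h2, h3⟩
  · rintro ⟨h1, h2, h3⟩; exact ⟨h1.symm, h2, h3⟩

lemma T7_eq (l a b : I7 × I7) : T7 l a b = (FF a * FF b - FF b * FF a) l.2 l.1 := by
  unfold FF
  have : (EE ℤ a - EE ℤ (rf a)) * (EE ℤ b - EE ℤ (rf b))
      - (EE ℤ b - EE ℤ (rf b)) * (EE ℤ a - EE ℤ (rf a))
      = EE ℤ a * EE ℤ b - EE ℤ (rf a) * EE ℤ b - EE ℤ a * EE ℤ (rf b)
        + EE ℤ (rf a) * EE ℤ (rf b) - EE ℤ b * EE ℤ a + EE ℤ (rf b) * EE ℤ a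
        + EE ℤ b * EE ℤ (rf a) - EE ℤ (rf b) * EE ℤ (rf a) := by
    noncomm_ring
  rw [this]
  simp only [Matrix.sub_apply, Matrix.add_apply, EE_mul']
  unfold T7
  rw [glP_rf1 l a b, glP_rf1 l (rf a) b, glP_rf1 l a (rf b), glP_rf1 l (rf a) (rf b)]
  simp only [rf_rf]
  ring

lemma FF_anti (a : I7 × I7) (i j : I7) : FF a j.bar i.bar = - FF a i j := by
  have h : ∀ i j : I7, i.bar = j ↔ i = j.bar := by
    intro i j
    constructor
    · rintro rfl; rw [I7.bar_bar]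
    · rintro rfl; rw [I7.bar_bar]
  have h' : ∀ i j : I7, i.bar = j.bar ↔ i = j := by
    intro i j
    rw [h, I7.bar_bar]
  simp only [FF, Matrix.sub_apply, EE, Matrix.of_apply, rf, h', neg_sub]
  congr 1
  · refine if_congr ?_ rfl rfl
    rw [h, h]
    tauto
  · refine if_congr ?_ rfl rfl
    tauto

lemma sum_bar (f : I7 → ℤ) : ∑ i, f (I7.bar i) = ∑ i, f i := by
  rw [I7.sum_eq, I7.sum_eq]
  simp only [I7.bar]
  ring

lemma br_anti (a b : I7 × I7) (i j : I7) : (FF a * FF b - FF b * FF a) i j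
    = - (FF a * FF b - FF b * FF a) j.bar i.bar := by
  have h : ∀ a b : I7 × I7, (FF a * FF b) i j = (FF b * FF a) j.bar i.bar := by
    intro a b
    rw [Matrix.mul_apply, Matrix.mul_apply, ← sum_bar]
    refine Finset.sum_congr rfl fun k _ => ?_
    have h1 := FF_anti b k.bar j
    have h2 := FF_anti a i k.bar
    rw [I7.bar_bar] at h1 h2
    rw [h1, h2]
    ring
  rw [Matrix.sub_apply, Matrix.sub_apply, h, h b a]
  ring

lemma sum_L7 (X Y : Matrix I7 I7 ℤ) (hX : ∀ i j, X i j = - X j.bar i.bar)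
    (hY : ∀ i j, Y i j = - Y j.bar i.bar) :
    2 * ∑ l : L7, X l.snd l.fst * Y l.fst l.snd = Matrix.trace (X * Y) := by
  have hz : ∀ i, X i i.bar = 0 := by
    intro i
    have := hX i i.bar
    rw [I7.bar_bar] at this
    linarith

  have x00 : X .j0 .j0 = - X .j6 .j6 := hX _ _
  have x01 : X .j0 .j1 = - X .j5 .j6 := hX _ _
  have x02 : X .j0 .j2 = - X .j4 .j6 := hX _ _
  have x03 : X .j0 .j3 = - X .j3 .j6 := hX _ _
  have x04 : X .j0 .j4 = - X .j2 .j6 := hX _ _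
  have x05 : X .j0 .j5 = - X .j1 .j6 := hX _ _
  have x10 : X .j1 .j0 = - X .j6 .j5 := hX _ _
  have x11 : X .j1 .j1 = - X .j5 .j5 := hX _ _
  have x12 : X .j1 .j2 = - X .j4 .j5 := hX _ _
  have x13 : X .j1 .j3 = - X .j3 .j5 := hX _ _
  have x14 : X .j1 .j4 = - X .j2 .j5 := hX _ _
  have x20 : X .j2 .j0 = - X .j6 .j4 := hX _ _
  have x21 : X .j2 .j1 = - X .j5 .j4 := hX _ _
  have x22 : X .j2 .j2 = - X .j4 .j4 := hX _ _
  have x23 : X .j2 .j3 = - X .j3 .j4 := hX _ _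
  have x30 : X .j3 .j0 = - X .j6 .j3 := hX _ _
  have x31 : X .j3 .j1 = - X .j5 .j3 := hX _ _
  have x32 : X .j3 .j2 = - X .j4 .j3 := hX _ _
  have x40 : X .j4 .j0 = - X .j6 .j2 := hX _ _
  have x41 : X .j4 .j1 = - X .j5 .j2 := hX _ _
  have x50 : X .j5 .j0 = - X .j6 .j1 := hX _ _

  have y00 : Y .j0 .j0 = - Y .j6 .j6 := hY _ _
  have y01 : Y .j0 .j1 = - Y .j5 .j6 := hY _ _
  have y02 : Y .j0 .j2 = - Y .j4 .j6 := hY _ _
  have y03 : Y .j0 .j3 = - Y .j3 .j6 := hY _ _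
  have y04 : Y .j0 .j4 = - Y .j2 .j6 := hY _ _
  have y05 : Y .j0 .j5 = - Y .j1 .j6 := hY _ _
  have y10 : Y .j1 .j0 = - Y .j6 .j5 := hY _ _
  have y11 : Y .j1 .j1 = - Y .j5 .j5 := hY _ _
  have y12 : Y .j1 .j2 = - Y .j4 .j5 := hY _ _
  have y13 : Y .j1 .j3 = - Y .j3 .j5 := hY _ _
  have y14 : Y .j1 .j4 = - Y .j2 .j5 := hY _ _
  have y20 : Y .j2 .j0 = - Y .j6 .j4 := hY _ _
  have y21 : Y .j2 .j1 = - Y .j5 .j4 := hY _ _
  have y22 : Y .j2 .j2 = - Y .j4 .j4 := hY _ _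
  have y23 : Y .j2 .j3 = - Y .j3 .j4 := hY _ _
  have y30 : Y .j3 .j0 = - Y .j6 .j3 := hY _ _
  have y31 : Y .j3 .j1 = - Y .j5 .j3 := hY _ _
  have y32 : Y .j3 .j2 = - Y .j4 .j3 := hY _ _
  have y40 : Y .j4 .j0 = - Y .j6 .j2 := hY _ _
  have y41 : Y .j4 .j1 = - Y .j5 .j2 := hY _ _
  have y50 : Y .j5 .j0 = - Y .j6 .j1 := hY _ _

  have z0 : X .j0 .j6 = 0 := hz _
  have z1 : X .j1 .j5 = 0 := hz _
  have z2 : X .j2 .j4 = 0 := hz _
  have z3 : X .j3 .j3 = 0 := hz _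
  have z4 : X .j4 .j2 = 0 := hz _
  have z5 : X .j5 .j1 = 0 := hz _
  have z6 : X .j6 .j0 = 0 := hz _

  have ht : Matrix.trace (X * Y) = ∑ i, ∑ j, X i j * Y j i := rfl
  rw [ht, L7.sum_eq]
  simp only [I7.sum_eq, L7.elems, List.map_cons, List.map_nil, List.sum_cons, List.sum_nil,
    L7.fst, L7.snd, x00, x01, x02, x03, x04, x05, x10, x11, x12, x13, x14, x20, x21, x22, x23, x30, x31, x32, x40, x41, x50,
    y00, y01, y02, y03, y04, y05, y10, y11, y12, y13, y14, y20, y21, y22, y23, y30, y31, y32, y40, y41, y50,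
    z0, z1, z2, z3, z4, z5, z6]
  ring

/-- coded positive part of `glP` -/
noncomputable def p7 (a1 a2 b1 b2 c1 c2 : I7) : ℕ :=
  cond (Nat.beq a2.idx b1.idx) (cond (Nat.beq b2.idx c1.idx)
    (cond (Nat.beq c2.idx a1.idx) 1 0) 0) 0

lemma p7_eq (a b c : I7 × I7) : glP ℤ a b c = (p7 a.1 a.2 b.1 b.2 c.1 c.2 : ℤ) := by
  unfold glP p7
  have h : ∀ (x y : I7) (n : ℕ), cond (Nat.beq x.idx y.idx) n 0 = if x = y then n else 0 := by
    intro x y n
    by_cases e : x = y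
    · subst e; rw [if_pos rfl, Nat.beq_refl]; rfl
    · rw [if_neg e]
      have : Nat.beq x.idx y.idx = false := by
        rw [← Bool.not_eq_true]
        exact fun h => e (I7.idx_inj _ _ (Nat.eq_of_beq_eq_true h))
      rw [this]; rfl
  rw [h, h, h]
  by_cases e1 : a.2 = b.1 <;> by_cases e2 : b.2 = c.1 <;> by_cases e3 : c.2 = a.1 <;>
    simp [e1, e2, e3]

/-- coded positive part -/
noncomputable def tp7 (a b c : L7) : ℕ :=
  Nat.add (Nat.add (p7 a.fst a.snd b.fst b.snd c.fst c.snd)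
    (p7 a.snd.bar a.fst.bar b.snd.bar b.fst.bar c.fst c.snd))
    (Nat.add (p7 a.snd.bar a.fst.bar b.fst b.snd c.snd.bar c.fst.bar)
    (p7 a.fst a.snd b.snd.bar b.fst.bar c.snd.bar c.fst.bar))

/-- coded negative part -/
noncomputable def tm7 (a b c : L7) : ℕ :=
  Nat.add (Nat.add (p7 a.snd.bar a.fst.bar b.fst b.snd c.fst c.snd)
    (p7 a.fst a.snd b.snd.bar b.fst.bar c.fst c.snd))
    (Nat.add (p7 a.fst a.snd b.fst b.snd c.snd.bar c.fst.bar)
    (p7 a.snd.bar a.fst.bar b.snd.bar b.fst.bar c.snd.bar c.fst.bar))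

lemma T7_code (a b c : L7) : T7 a.pr b.pr c.pr = (tp7 a b c : ℤ) - (tm7 a b c : ℤ) := by
  unfold T7
  simp only [p7_eq, L7.pr, rf]
  show _ = (((p7 _ _ _ _ _ _ + p7 _ _ _ _ _ _) + (p7 _ _ _ _ _ _ + p7 _ _ _ _ _ _) : ℕ) : ℤ)
    - (((p7 _ _ _ _ _ _ + p7 _ _ _ _ _ _) + (p7 _ _ _ _ _ _ + p7 _ _ _ _ _ _) : ℕ) : ℤ)
  push_cast
  ring

/-- coded equality -/
noncomputable def eq7 (a b : L7) : Bool :=
  cond (Nat.beq a.fst.idx b.fst.idx) (Nat.beq a.snd.idx b.snd.idx) false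

lemma L7.pr_inj : ∀ a b : L7, a.fst = b.fst → a.snd = b.snd → a = b := by decide +kernel

lemma eq7_iff (a b : L7) : eq7 a b = true ↔ a = b := by
  unfold eq7
  rw [Bool.cond_false_right, Bool.and_eq_true]
  constructor
  · rintro ⟨h1, h2⟩
    exact L7.pr_inj _ _ (I7.idx_inj _ _ (Nat.eq_of_beq_eq_true h1))
      (I7.idx_inj _ _ (Nat.eq_of_beq_eq_true h2))
  · rintro rfl
    exact ⟨Nat.beq_refl _, Nat.beq_refl _⟩

/-- roots of `so_7` -/
def roots7 : List L7 := [.s16, .s25, .s26, .s34, .s35, .s36, .s43, .s45, .s46, .s52, .s53, .s54, .s56, .s61, .s62, .s63, .s64, .s65]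

/-- Codes for `so_7`. -/
noncomputable def code7 : Code L7 where
  elems := L7.elems
  roots := roots7
  carts := [.s44, .s55, .s66]
  st := L7.st
  eq := eq7
  tp := tp7
  tm := tm7

lemma chkC7 : code7.chkC = true := by decide +kernel

lemma chkD7 : code7.chkD = true := by decide +kernel

lemma T7_sq (a b c : L7) : T7 a.pr b.pr c.pr ^ 2 = (code7.sq a b c : ℤ) := by
  rw [T7_code, LieData.sub_sq_eq]
  rfl

lemma T7_cube (a b c : L7) : T7 a.pr b.pr c.pr ^ 3 = T7 a.pr b.pr c.pr := by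
  have h := chkC7
  unfold Code.chkC at h
  simp only [allL_iff] at h
  have h1 := Nat.le_of_ble_eq_true (h c (L7.mem_elems c) a (L7.mem_elems a) b (L7.mem_elems b))
  have h2 := T7_sq a b c
  have h3 : code7.sq a b c = 0 ∨ code7.sq a b c = 1 := by omega
  rcases h3 with h3 | h3
  · rw [h3] at h2
    have : T7 a.pr b.pr c.pr = 0 := pow_eq_zero_iff (two_ne_zero) |>.1 (by simpa using h2)
    rw [this]; ring
  · rw [h3] at h2
    calc T7 a.pr b.pr c.pr ^ 3 = T7 a.pr b.pr c.pr ^ 2 * T7 a.pr b.pr c.pr := by ring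
      _ = T7 a.pr b.pr c.pr := by rw [h2]; simp

lemma T7_cart (a b z : L7) (hz : z ∈ code7.carts) (h : T7 a.pr b.pr z.pr ≠ 0) : b = a.st := by
  have h4 := chkD7
  unfold Code.chkD at h4
  simp only [allL_iff] at h4
  have := h4 z hz a (L7.mem_elems a) b (L7.mem_elems b)
  by_cases h' : Nat.beq (code7.sq a b z) 0 = true
  · exfalso
    apply h
    have h' := Nat.eq_of_beq_eq_true h'
    have h'' := T7_sq a b z
    rw [h'] at h''
    exact pow_eq_zero_iff (two_ne_zero) |>.1 (by simpa using h'')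
  · rw [Bool.not_eq_true] at h'
    rw [h'] at this
    exact (eq7_iff _ _).1 this

/-- the diagonal matrix -/
def x7 (y0 y1 y2 : ℤ) : I7 → ℤ
  | .j0 => -y2
  | .j1 => -y1
  | .j2 => -y0
  | .j3 => 0
  | .j4 => y0
  | .j5 => y1
  | .j6 => y2

/-- coordinates of the Cartan elements -/
def u7 (y0 y1 y2 : ℤ) : L7 → ℤ
  | .s44 => y0
  | .s55 => y1
  | .s66 => y2
  | _ => 0

lemma hair7 (y0 y1 y2 : ℤ) (a b : L7) : ∑ l : L7, T7 a.pr b.pr l.st.pr * u7 y0 y1 y2 l
    = if b = a.st then x7 y0 y1 y2 a.fst - x7 y0 y1 y2 a.snd else 0 := by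
  have e : ∑ l : L7, T7 a.pr b.pr l.st.pr * u7 y0 y1 y2 l
      = T7 a.pr b.pr (L7.pr .s44) * y0 + T7 a.pr b.pr (L7.pr .s55) * y1
        + T7 a.pr b.pr (L7.pr .s66) * y2 := by
    rw [L7.sum_eq]
    simp only [L7.elems, List.map_cons, List.map_nil, List.sum_cons, List.sum_nil, u7, L7.st]
    ring
  rw [e]
  by_cases h : b = a.st
  · rw [if_pos h, h]
    rw [T7_code, T7_code, T7_code]
    have key : ∀ a : L7, ((tp7 a a.st .s44 : ℤ) - tm7 a a.st .s44 = x7 1 0 0 a.fst - x7 1 0 0 a.snd)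
        ∧ ((tp7 a a.st .s55 : ℤ) - tm7 a a.st .s55 = x7 0 1 0 a.fst - x7 0 1 0 a.snd)
        ∧ ((tp7 a a.st .s66 : ℤ) - tm7 a a.st .s66 = x7 0 0 1 a.fst - x7 0 0 1 a.snd) := by
      decide +kernel
    obtain ⟨k1, k2, k3⟩ := key a
    rw [k1, k2, k3]
    have lin : ∀ i : I7, x7 y0 y1 y2 i = x7 1 0 0 i * y0 + x7 0 1 0 i * y1 + x7 0 0 1 i * y2 := by
      intro i
      cases i <;> simp [x7]
    rw [lin a.fst, lin a.snd]
    ring
  · rw [if_neg h]
    have h0 : ∀ z ∈ code7.carts, T7 a.pr b.pr z.pr = 0 := by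
      intro z hz
      by_contra h'
      exact h (T7_cart a b z hz h')
    rw [h0 .s44 (by decide), h0 .s55 (by decide), h0 .s66 (by decide)]
    ring

lemma pr_st (a : L7) : a.st.pr = Prod.swap a.pr := by
  unfold L7.pr
  rw [L7.fst_st, L7.snd_st]
  rfl

/-- The Lie algebra `so_7` with a diagonal matrix. -/
def soData (y0 y1 y2 : ℤ) : LieData ℤ L7 where
  star := L7.st
  star_star := L7.st_st
  T a b c := T7 a.pr b.pr c.pr
  cyc a b c := T7_cyc _ _ _
  anti a b c := T7_anti _ _ _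
  cube a b c := T7_cube a b c
  jacobi a b c d := by
    simp only [T7_eq, Finset.sum_add_distrib, pr_st, Prod.fst_swap, Prod.snd_swap]
    have h := trace_jacobi (FF a.pr) (FF b.pr) (FF c.pr) (FF d.pr)
    have h1 := sum_L7 _ _ (br_anti a.pr b.pr) (br_anti c.pr d.pr)
    have h2 := sum_L7 _ _ (br_anti b.pr c.pr) (br_anti a.pr d.pr)
    have h3 := sum_L7 _ _ (br_anti c.pr a.pr) (br_anti b.pr d.pr)
    rw [← h1, ← h2, ← h3] at h
    have e : ∀ l : L7, l.pr.2 = l.snd ∧ l.pr.1 = l.fst := fun l => ⟨rfl, rfl⟩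
    simp only [(e _).1, (e _).2]
    linarith
  u := u7 y0 y1 y2
  wt l := x7 y0 y1 y2 l.fst - x7 y0 y1 y2 l.snd
  hair a b := hair7 y0 y1 y2 a b

end Pool.Agent.H76.Dasbach
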