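import Pool.Agent.H76.Dasbach.Eval

/-!
# Evaluation by tables
-/

namespace Pool.Agent.H76.Dasbach

open Finset

/-- Tables of nonzero structure constants. -/
structure Tables (L : Type) where
  roots : List L
  st : L → L
  tq : L → List (L × L)
  tn : L → List L
  tk : L → List (L × ℕ)

namespace Tables

variable {L : Type} {R : Type} [CommSemiring R] (t : Tables L)

/-- bubble at a root -/
def fq (g h : L → R) (x : L) : R := ((t.tq x).map (fun lm => g lm.1 * h lm.2)).sum

/-- sum over the connected roots -/
def fn (q : L → R) (x : L) : R := ((t.tn x).map q).sum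

/-- Cartan part -/
def fk (g h : L → R) (x : L) : R :=
  ((t.tk x).map (fun lk => (lk.2 : R) * (g lk.1 * h (t.st lk.1)))).sum

/-- The value, up to sign. -/
def val (g h g' h' : L → R) : R :=
  (t.roots.map (fun x => t.fq g h x * (t.fn (t.fq g' h') x + t.fk g' h' x)
    + t.fq g' h' x * t.fk g h x)).sum

variable {R' : Type} [CommSemiring R'] (φ : R →+* R')

lemma map_fq (g h : L → R) (x : L) :
    φ (t.fq g h x) = t.fq (fun l => φ (g l)) (fun l => φ (h l)) x := by
  unfold fq
  rw [map_list_sum, List.map_map]
  congr 1
  refine List.map_congr_left fun lm _ => ?_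
  simp

lemma map_fn (q : L → R) (x : L) : φ (t.fn q x) = t.fn (fun l => φ (q l)) x := by
  unfold fn
  rw [map_list_sum, List.map_map]
  rfl

lemma map_fk (g h : L → R) (x : L) :
    φ (t.fk g h x) = t.fk (fun l => φ (g l)) (fun l => φ (h l)) x := by
  unfold fk
  rw [map_list_sum, List.map_map]
  congr 1
  refine List.map_congr_left fun lm _ => ?_
  simp

lemma map_val (g h g' h' : L → R) :
    φ (t.val g h g' h') = t.val (fun l => φ (g l)) (fun l => φ (h l)) (fun l => φ (g' l))
      (fun l => φ (h' l)) := by
  unfold val
  rw [map_list_sum, List.map_map]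
  congr 1
  refine List.map_congr_left fun x _ => ?_
  simp only [Function.comp, map_add, map_mul, map_fq, map_fn, map_fk]

end Tables

section sums

variable {L : Type} [Fintype L] [DecidableEq L] {R : Type} [CommRing R]

lemma sum_count_mul (s : List L) (F : L → R) : ∑ l, (s.count l : R) * F l = (s.map F).sum := by
  rw [Finset.sum_list_map_count]
  simp only [nsmul_eq_mul]
  symm
  refine Finset.sum_subset (Finset.subset_univ _) ?_
  intro x _ hx
  have : s.count x = 0 := by
    rw [List.count_eq_zero]
    simpa using hx
  rw [this]; simp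

lemma sum_coeff_mul (s : List (L × ℕ)) (F : L → R) :
    ∑ l, (((s.map (fun lk => if lk.1 = l then lk.2 else 0)).sum : ℕ) : R) * F l
      = (s.map (fun lk => (lk.2 : R) * F lk.1)).sum := by
  induction s with
  | nil => simp
  | cons a s ih =>
    simp only [List.map_cons, List.sum_cons, Nat.cast_add, add_mul, Finset.sum_add_distrib, ih]
    congr 1
    simp [ite_mul]

lemma sum_ind_mul (s : List L) (F : L → R) :
    ∑ l, (((s.map (fun y => if y = l then 1 else 0)).sum : ℕ) : R) * F l = (s.map F).sum := by
  induction s with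
  | nil => simp
  | cons a s ih =>
    simp only [List.map_cons, List.sum_cons, Nat.cast_add, add_mul, Finset.sum_add_distrib, ih]
    congr 1
    simp [ite_mul]

lemma sum_pair_mul (s : List (L × L)) (g h : L → R) :
    ∑ l, ∑ m, (((s.map (fun lm => if lm.1 = l ∧ lm.2 = m then 1 else 0)).sum : ℕ) : R)
      * (g l * h m) = (s.map (fun lm => g lm.1 * h lm.2)).sum := by
  induction s with
  | nil => simp
  | cons a s ih =>
    simp only [List.map_cons, List.sum_cons, Nat.cast_add, add_mul, Finset.sum_add_distrib, ih]
    congr 1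
    rw [Finset.sum_eq_single a.1]
    · rw [Finset.sum_eq_single a.2]
      · simp
      · intro b _ hb
        simp [Ne.symm hb]
      · intro h'; exact absurd (Finset.mem_univ _) h'
    · intro b _ hb
      refine Finset.sum_eq_zero fun m _ => ?_
      simp [Ne.symm hb]
    · intro h'; exact absurd (Finset.mem_univ _) h'

lemma sum_roots (cart : L → Prop) [DecidablePred cart] (s : List L) (hs : s.Nodup)
    (hm : ∀ x, x ∈ s ↔ ¬ cart x) (F : L → R) :
    ∑ x, (if cart x then 0 else F x) = (s.map F).sum := by
  rw [← sum_count_mul s F]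
  refine Finset.sum_congr rfl fun x _ => ?_
  by_cases h : cart x
  · rw [if_pos h, List.count_eq_zero_of_not_mem (by rw [hm]; simpa using h)]
    simp
  · rw [if_neg h, List.count_eq_one_of_mem hs (by rw [hm]; exact h)]
    simp

end sums

namespace LieData

variable {R : Type} [CommRing R] {L : Type} [Fintype L] [DecidableEq L] {D : LieData R L}
variable {cart : L → Prop} [DecidablePred cart]

/-- The tables are correct. -/
structure IsTables (D : LieData R L) (cart : L → Prop) [DecidablePred cart] (t : Tables L) :
    Prop where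
  nodup : t.roots.Nodup
  mem : ∀ x, x ∈ t.roots ↔ ¬ cart x
  st : ∀ x, t.st x = D.star x
  tq : ∀ x, ¬ cart x → ∀ l m, D.T l m x ^ 2 =
    (((t.tq x).map (fun lm => if lm.1 = l ∧ lm.2 = m then 1 else 0)).sum : ℕ)
  tn : ∀ x, ¬ cart x → ∀ z, (if cart z then 0 else D.nn x z)
    = (((t.tn x).map (fun y => if y = z then 1 else 0)).sum : ℕ)
  cdiag : ∀ a b z, cart z → D.T a b z ≠ 0 → b = D.star a
  tk : ∀ x, ¬ cart x → ∀ l, (∑ z, if cart z then D.T x (D.star x) z * D.T l (D.star l) z else 0)
    ^ 2 = (((t.tk x).map (fun lk => if lk.1 = l then lk.2 else 0)).sum : ℕ)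

lemma qq_eq {t : Tables L} (ht : D.IsTables cart t) (g h : L → R) {x : L} (hx : ¬ cart x) :
    D.qq g h x = t.fq g h x := by
  unfold qq Tables.fq
  rw [← sum_pair_mul (t.tq x) g h]
  refine Finset.sum_congr rfl fun l _ => Finset.sum_congr rfl fun m _ => ?_
  rw [ht.tq x hx l m]

lemma ck_eq {t : Tables L} (ht : D.IsTables cart t) (g h : L → R) {x : L} (hx : ¬ cart x) :
    D.ck cart g h x = t.fk g h x := by
  unfold ck Tables.fk
  rw [← sum_coeff_mul (t.tk x) (fun l => g l * h (t.st l))]
  refine Finset.sum_congr rfl fun l _ => ?_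
  rw [Finset.sum_eq_single (D.star l)]
  · rw [Finset.sum_eq_single x]
    · rw [ht.tk x hx, ht.st]
    · intro a _ ha
      have : ∀ z, (if cart z then D.T a (D.star x) z * D.T l (D.star l) z else 0) = 0 := by
        intro z
        split_ifs with hz
        · by_cases h0 : D.T a (D.star x) z = 0
          · rw [h0]; ring
          · exfalso
            have := ht.cdiag _ _ _ hz h0
            apply ha
            rw [← D.star_star a, ← this, D.star_star]
        · rfl
      simp [this]
    · intro h'; exact absurd (Finset.mem_univ _) h'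
  · intro m _ hm
    have : ∀ a, (∑ z, if cart z then D.T a (D.star x) z * D.T l m z else 0) = 0 := by
      intro a
      refine Finset.sum_eq_zero fun z _ => ?_
      split_ifs with hz
      · by_cases h0 : D.T l m z = 0
        · rw [h0]; ring
        · exact absurd (ht.cdiag _ _ _ hz h0) hm
      · rfl
    simp [this]
  · intro h'; exact absurd (Finset.mem_univ _) h'

/-- Evaluation by tables. -/
lemma core_eval_tables {t : Tables L} (hD : D.IsRooted cart) (ht : D.IsTables cart t)
    (g h g' h' : L → R) :
    (∑ x, ∑ y, D.bub g h x y * ∑ z, ∑ w, D.bub g' h' z w *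
        ∑ a, D.T (D.star x) a (D.star z) * D.T (D.star y) (D.star a) (D.star w))
      = - t.val g h g' h' := by
  rw [core_eval hD]
  unfold Tables.val
  rw [← sum_roots cart t.roots ht.nodup ht.mem, sub_sub, ← neg_add', ← add_assoc,
    ← Finset.sum_add_distrib, ← Finset.sum_add_distrib]
  congr 1
  refine Finset.sum_congr rfl fun x _ => ?_
  by_cases hx : cart x
  · simp [hx]
  · simp only [if_neg hx, qq_eq ht _ _ hx, ck_eq ht _ _ hx]
    have : (∑ z, if cart z then 0 else D.qq g' h' z * D.nn x z) = t.fn (t.fq g' h') x := by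
      unfold Tables.fn
      rw [← sum_ind_mul (t.tn x)]
      refine Finset.sum_congr rfl fun z _ => ?_
      rw [← ht.tn x hx z]
      split_ifs with hz
      · ring
      · rw [qq_eq ht _ _ hz]; ring
    rw [this]
    ring

/-- The value of the core graph with legs. -/
lemma V_core_eval {t : Tables L} (hD : D.IsRooted cart) (ht : D.IsTables cart t)
    (p q p' q' : ℕ) :
    MGraph.V D (mcore.addHairs (List.replicate p 0 ++ List.replicate q 1 ++
      List.replicate p' 2 ++ List.replicate q' 3)) (fun _ => 1)
      = - t.val (fun l => D.wt l ^ p) (fun l => D.wt l ^ q) (fun l => D.wt l ^ p')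
        (fun l => D.wt l ^ q') := by
  rw [MGraph.V_addHairs, ← core_eval_tables hD ht, ← core_sum,
    MGraph.V_eq D mcore _ (inferInstanceAs (Fintype (Fin 18)))
      (inferInstanceAs (DecidableEq (Fin 18)))]
  refine (LieData.Z_core D _).trans ?_
  refine Finset.sum_congr rfl fun x _ => Finset.sum_congr rfl fun y _ =>
    Finset.sum_congr rfl fun a _ => Finset.sum_congr rfl fun z _ =>
    Finset.sum_congr rfl fun w _ => Finset.sum_congr rfl fun l _ =>
    Finset.sum_congr rfl fun m _ => Finset.sum_congr rfl fun l' _ =>
    Finset.sum_congr rfl fun m' _ => ?_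
  congr 1
  simp only [List.map_append, List.map_replicate, List.prod_append, List.prod_replicate, mul_one]
  rfl

end LieData

end Pool.Agent.H76.Dasbach
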