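import Pool.Agent.H76.Dasbach.Defs

/-!
# Weight systems from metrized Lie algebras

A metrized Lie algebra in a basis `L` whose dual basis is the basis itself up to an involution
`star`, together with a semisimple element used at the legs.
-/

namespace Pool.Agent.H76.Dasbach

open Finset

/-- Structure constants. -/
structure LieData (R : Type) [CommRing R] (L : Type) [Fintype L] [DecidableEq L] where
  star : L → L
  star_star : ∀ a, star (star a) = a
  T : L → L → L → R
  cyc : ∀ a b c, T a b c = T b c a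
  anti : ∀ a b c, T b a c = - T a b c
  cube : ∀ a b c, T a b c ^ 3 = T a b c
  jacobi : ∀ a b c d, ∑ l, (T l a b * T (star l) c d + T l b c * T (star l) a d
    + T l c a * T (star l) b d) = 0
  u : L → R
  wt : L → R
  hair : ∀ a b, ∑ l, T a b (star l) * u l = if b = star a then wt a else 0

namespace LieData

variable {R : Type} [CommRing R] {L : Type} [Fintype L] [DecidableEq L] (D : LieData R L)

section raw

variable {H : Type} [Fintype H] [DecidableEq H]

/-- The factor of a half-edge. -/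
def vt (rot : Equiv.Perm H) (φ : H → L) (h : H) : R :=
  if rot h = h then D.u (φ h) else D.T (φ h) (φ (rot h)) (φ (rot (rot h)))

/-- Compatible labellings. -/
def Compat (opp : Equiv.Perm H) (φ : H → L) : Prop := ∀ h, φ (opp h) = D.star (φ h)

instance (opp : Equiv.Perm H) : DecidablePred (D.Compat opp) := fun φ => by
  unfold Compat; infer_instance

/-- The state sum. -/
def Z (rot opp : Equiv.Perm H) (Ω : (H → L) → R) : R :=
  ∑ φ : H → L, if D.Compat opp φ then (∏ h, D.vt rot φ h) * Ω φ else 0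

variable {D}

lemma compat_opp_symm {opp : Equiv.Perm H} {φ : H → L} (hφ : D.Compat opp φ) (h : H) :
    D.star (φ (opp h)) = φ h := by rw [hφ h, D.star_star]

/-- invariance under isomorphism -/
lemma Z_iso {H' : Type} [Fintype H'] [DecidableEq H'] (rot opp : Equiv.Perm H)
    (rot' opp' : Equiv.Perm H') (e : H ≃ H') (hr : ∀ h, e (rot h) = rot' (e h))
    (ho : ∀ h, e (opp h) = opp' (e h)) (Ω : (H → L) → R) :
    D.Z rot' opp' (fun ψ => Ω (ψ ∘ e)) = D.Z rot opp Ω := by
  unfold Z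
  refine Fintype.sum_equiv (Equiv.arrowCongr e.symm (Equiv.refl L)) _ _ ?_
  intro ψ
  have h1 : (Equiv.arrowCongr e.symm (Equiv.refl L)) ψ = ψ ∘ e := by
    ext h; simp [Equiv.arrowCongr]
  rw [h1]
  have h2 : D.Compat opp' ψ ↔ D.Compat opp (ψ ∘ e) := by
    constructor
    · intro h x; simp only [Function.comp]; rw [ho, h]
    · intro h x
      have := h (e.symm x)
      simp only [Function.comp, ho, Equiv.apply_symm_apply] at this
      exact this
  have h3 : ∏ h, D.vt rot' ψ h = ∏ h, D.vt rot (ψ ∘ e) h := by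
    symm
    refine Fintype.prod_equiv e _ _ ?_
    intro h
    unfold vt
    have : rot h = h ↔ rot' (e h) = e h := by
      rw [← hr]; exact (e.injective.eq_iff).symm
    by_cases hh : rot h = h
    · rw [if_pos hh, if_pos (this.1 hh)]; rfl
    · rw [if_neg hh, if_neg (fun h' => hh (this.2 h'))]
      simp only [Function.comp, hr]
  simp only [h2, h3]

omit [Fintype H] [DecidableEq H] in
lemma rot_facts {rot : Equiv.Perm H} (h3 : ∀ x, rot (rot (rot x)) = x) {h : H} (hh : rot h ≠ h) :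
    rot h ≠ h ∧ rot (rot h) ≠ h ∧ rot (rot h) ≠ rot h ∧ h ≠ rot h ∧ h ≠ rot (rot h) ∧
      rot h ≠ rot (rot h) := by
  have h1 : rot (rot h) ≠ h := by
    intro e
    have := h3 h
    rw [e] at this
    exact hh this
  have h2 : rot (rot h) ≠ rot h := by
    intro e
    exact hh (rot.injective e)
  exact ⟨hh, h1, h2, hh.symm, h1.symm, h2.symm⟩

/-- The relation AS. -/
lemma Z_as (rot opp : Equiv.Perm H) (h3 : ∀ x, rot (rot (rot x)) = x) {h : H} (hh : rot h ≠ h) :
    D.Z (Equiv.swap (rot h) (rot (rot h)) * rot * (Equiv.swap (rot h) (rot (rot h)))⁻¹) opp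
      (fun _ => 1) = - D.Z rot opp (fun _ => 1) := by
  obtain ⟨n1, n2, n3, n4, n5, n6⟩ := rot_facts h3 hh
  unfold Z
  rw [← Finset.sum_neg_distrib]
  refine Finset.sum_congr rfl ?_
  intro φ _
  split_ifs with hc
  swap
  · simp
  simp only [mul_one]
  generalize hrot' : Equiv.swap (rot h) (rot (rot h)) * rot *
    (Equiv.swap (rot h) (rot (rot h)))⁻¹ = rot'
  have r1 : rot' h = rot (rot h) := by
    rw [← hrot']
    simp [Equiv.swap_apply_of_ne_of_ne n4 n5]
  have r2 : rot' (rot (rot h)) = rot h := by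
    rw [← hrot']
    simp
  have r3 : rot' (rot h) = h := by
    rw [← hrot']
    simp [h3, Equiv.swap_apply_of_ne_of_ne n4 n5]
  have r4 : ∀ k, k ≠ h → k ≠ rot h → k ≠ rot (rot h) → rot' k = rot k := by
    intro k k1 k2 k3
    rw [← hrot']
    have e1 : rot k ≠ rot h := fun e => k1 (rot.injective e)
    have e2 : rot k ≠ rot (rot h) := fun e => k2 (rot.injective e)
    simp [Equiv.swap_apply_of_ne_of_ne k2 k3, Equiv.swap_apply_of_ne_of_ne e1 e2]
  rw [← Finset.prod_mul_prod_compl ({h, rot h, rot (rot h)} : Finset H),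
    ← Finset.prod_mul_prod_compl ({h, rot h, rot (rot h)} : Finset H)
      (fun k => D.vt rot φ k)]
  have hcompl : ∏ k ∈ ({h, rot h, rot (rot h)} : Finset H)ᶜ, D.vt rot' φ k
      = ∏ k ∈ ({h, rot h, rot (rot h)} : Finset H)ᶜ, D.vt rot φ k := by
    refine Finset.prod_congr rfl ?_
    intro k hk
    simp only [Finset.mem_compl, Finset.mem_insert, Finset.mem_singleton, not_or] at hk
    obtain ⟨k1, k2, k3⟩ := hk
    have e0 : rot k ≠ h := fun e => k3 (by rw [← e, h3])
    have e1 : rot k ≠ rot h := fun e => k1 (rot.injective e)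
    have e2 : rot k ≠ rot (rot h) := fun e => k2 (rot.injective e)
    unfold vt
    rw [r4 k k1 k2 k3, r4 (rot k) e0 e1 e2]
  rw [hcompl, ← neg_mul]
  congr 1
  rw [Finset.prod_insert (by simp [n4, n5]), Finset.prod_insert (by simp [n6]),
    Finset.prod_singleton, Finset.prod_insert (by simp [n4, n5]),
    Finset.prod_insert (by simp [n6]), Finset.prod_singleton]
  unfold vt
  rw [r1, r2, r3, r1, h3]
  rw [if_neg n2, if_neg n4, if_neg n6, if_neg n1, if_neg n3, if_neg n5]
  have c1 := D.cyc (φ h) (φ (rot h)) (φ (rot (rot h)))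
  have c2 := D.cyc (φ (rot h)) (φ (rot (rot h))) (φ h)
  have c3 := D.cyc (φ h) (φ (rot (rot h))) (φ (rot h))
  have c4 := D.cyc (φ (rot (rot h))) (φ (rot h)) (φ h)
  have a1 := D.anti (φ h) (φ (rot h)) (φ (rot (rot h)))
  rw [← c2, ← c1, ← c4, ← c3]
  rw [← D.cyc (φ (rot h)) (φ h) (φ (rot (rot h)))] at *
  rw [a1]
  ring

/-- The product of the factors when the two vertices `(h, p, q)` and `(h', r, s)` are singled
out. -/
lemma prod_six (rot rot' : Equiv.Perm H) (S : Finset H) {h p q h' r s : H}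
    (hS : S = {h, p, q, h', r, s})
    (hn : h ≠ p ∧ h ≠ q ∧ h ≠ h' ∧ h ≠ r ∧ h ≠ s ∧ p ≠ q ∧ p ≠ h' ∧ p ≠ r ∧ p ≠ s ∧
      q ≠ h' ∧ q ≠ r ∧ q ≠ s ∧ h' ≠ r ∧ h' ≠ s ∧ r ≠ s)
    (e1 : rot' h = p) (e2 : rot' p = q) (e3 : rot' q = h) (e4 : rot' h' = r) (e5 : rot' r = s)
    (e6 : rot' s = h') (hout : ∀ k, k ∉ S → rot' k = rot k) (hcl : ∀ k, k ∉ S → rot k ∉ S)
    (φ : H → L) :
    ∏ k, D.vt rot' φ k = D.T (φ h) (φ p) (φ q) * D.T (φ h') (φ r) (φ s)
      * ∏ k ∈ Sᶜ, D.vt rot φ k := by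
  obtain ⟨n1, n2, n3, n4, n5, n6, n7, n8, n9, n10, n11, n12, n13, n14, n15⟩ := hn
  rw [← Finset.prod_mul_prod_compl S]
  have hcompl : ∏ k ∈ Sᶜ, D.vt rot' φ k = ∏ k ∈ Sᶜ, D.vt rot φ k := by
    refine Finset.prod_congr rfl ?_
    intro k hk
    have hk' : k ∉ S := by simpa using hk
    unfold vt
    rw [hout k hk', hout (rot k) (hcl k hk')]
  rw [hcompl]
  congr 1
  rw [hS, Finset.prod_insert (by simp [n1, n2, n3, n4, n5]),
    Finset.prod_insert (by simp [n6, n7, n8, n9]),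
    Finset.prod_insert (by simp [n10, n11, n12]),
    Finset.prod_insert (by simp [n13, n14]), Finset.prod_insert (by simp [n15]),
    Finset.prod_singleton]
  unfold vt
  rw [e1, e2, e3, e1, e4, e5, e6, e4]
  rw [if_neg n1.symm, if_neg n6.symm, if_neg n2, if_neg n13.symm, if_neg n15.symm, if_neg n14]
  have c1 := D.cyc (φ h) (φ p) (φ q)
  have c2 := D.cyc (φ p) (φ q) (φ h)
  have c3 := D.cyc (φ h') (φ r) (φ s)
  have c4 := D.cyc (φ r) (φ s) (φ h')
  have q1 := D.cube (φ h) (φ p) (φ q)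
  have q2 := D.cube (φ h') (φ r) (φ s)
  rw [← c2, ← c1, ← c4, ← c3]
  calc _ = (D.T (φ h) (φ p) (φ q)) ^ 3 * (D.T (φ h') (φ r) (φ s)) ^ 3 := by ring
    _ = _ := by rw [q1, q2]

/-- The relation IHX. -/
lemma Z_ihx [CharZero R] [NoZeroDivisors R] [Nonempty L]
    (rot opp : Equiv.Perm H) (h3 : ∀ x, rot (rot (rot x)) = x)
    (hopp : ∀ x, opp (opp x) = x) (hne : ∀ x, opp x ≠ x) {h : H} (hh : rot h ≠ h)
    (hh' : rot (opp h) ≠ opp h) (m1 : opp h ≠ rot h) (m2 : opp h ≠ rot (rot h))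
    (τ : Equiv.Perm H)
    (hτ : τ = Equiv.swap (rot h) (rot (rot h)) * Equiv.swap (rot (rot h)) (rot (opp h))) :
    D.Z rot opp (fun _ => 1) + D.Z (τ * rot * τ⁻¹) opp (fun _ => 1)
      + D.Z (τ * τ * rot * (τ * τ)⁻¹) opp (fun _ => 1) = 0 := by
  obtain ⟨n1, n2, n3, n4, n5, n6⟩ := rot_facts h3 hh
  obtain ⟨k1, k2, k3, k4, k5, k6⟩ := rot_facts h3 hh'
  -- names
  set a := rot h with ha
  set b := rot a with hb
  set g := opp h with hg
  set c := rot g with hc
  set d := rot c with hd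
  have hrb : rot b = h := by rw [hb, ha, h3]
  have hrd : rot d = g := by rw [hd, hc, h3]
  have m0 : g ≠ h := hne h
  have f1 : c ≠ h := fun e => m2 (rot.injective (by rw [← hc, e, hrb]))
  have f2 : c ≠ a := fun e => m0 (rot.injective (by rw [← hc, e]))
  have f3 : c ≠ b := fun e => m1 (rot.injective (by rw [← hc, e]))
  have f4 : d ≠ h := fun e => f3 (rot.injective (by rw [← hd, e, hrb]))
  have f5 : d ≠ a := fun e => f1 (rot.injective (by rw [← hd, e]))
  have f6 : d ≠ b := fun e => f2 (rot.injective (by rw [← hd, e]))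
  have t1 : τ h = h := by
    rw [hτ]; simp [Equiv.swap_apply_of_ne_of_ne n5 f1.symm, Equiv.swap_apply_of_ne_of_ne n4 n5]
  have t2 : τ a = b := by
    rw [hτ]; simp [Equiv.swap_apply_of_ne_of_ne n6 f2.symm]
  have t3 : τ b = c := by
    rw [hτ]; simp [Equiv.swap_apply_of_ne_of_ne f2 f3]
  have t4 : τ c = a := by
    rw [hτ]; simp
  have t5 : τ g = g := by
    rw [hτ]; simp [Equiv.swap_apply_of_ne_of_ne m2 k4, Equiv.swap_apply_of_ne_of_ne m1 m2]
  have t6 : τ d = d := by
    rw [hτ]; simp [Equiv.swap_apply_of_ne_of_ne f6 k3, Equiv.swap_apply_of_ne_of_ne f5 f6]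
  have t7 : ∀ k, k ≠ a → k ≠ b → k ≠ c → τ k = k := by
    intro k x y z
    rw [hτ]; simp [Equiv.swap_apply_of_ne_of_ne y z, Equiv.swap_apply_of_ne_of_ne x y]
  have i1 : τ⁻¹ h = h := by rw [Equiv.Perm.inv_eq_iff_eq, t1]
  have i2 : τ⁻¹ b = a := by rw [Equiv.Perm.inv_eq_iff_eq, t2]
  have i3 : τ⁻¹ c = b := by rw [Equiv.Perm.inv_eq_iff_eq, t3]
  have i4 : τ⁻¹ a = c := by rw [Equiv.Perm.inv_eq_iff_eq, t4]
  have i5 : τ⁻¹ g = g := by rw [Equiv.Perm.inv_eq_iff_eq, t5]
  have i6 : τ⁻¹ d = d := by rw [Equiv.Perm.inv_eq_iff_eq, t6]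
  have i7 : ∀ k, k ≠ a → k ≠ b → k ≠ c → τ⁻¹ k = k := by
    intro k x y z
    rw [Equiv.Perm.inv_eq_iff_eq, t7 k x y z]
  set S : Finset H := {h, a, b, g, c, d} with hS
  have hcl : ∀ k, k ∉ S → rot k ∉ S := by
    intro k hk
    simp only [hS, Finset.mem_insert, Finset.mem_singleton, not_or] at hk ⊢
    obtain ⟨x1, x2, x3, x4, x5, x6⟩ := hk
    exact ⟨fun e => x3 (rot.injective (by rw [e, hrb])), fun e => x1 (rot.injective (by rw [e])),
      fun e => x2 (rot.injective (by rw [e])), fun e => x6 (rot.injective (by rw [e, hrd])),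
      fun e => x4 (rot.injective (by rw [e])), fun e => x5 (rot.injective (by rw [e]))⟩
  have hout1 : ∀ k, k ∉ S → (τ * rot * τ⁻¹) k = rot k := by
    intro k hk
    have hk2 := hcl k hk
    simp only [hS, Finset.mem_insert, Finset.mem_singleton, not_or] at hk hk2
    simp only [Equiv.Perm.mul_apply]
    rw [i7 k hk.2.1 hk.2.2.1 hk.2.2.2.2.1, t7 _ hk2.2.1 hk2.2.2.1 hk2.2.2.2.2.1]
  have hout2 : ∀ k, k ∉ S → (τ * τ * rot * (τ * τ)⁻¹) k = rot k := by
    intro k hk
    have hk2 := hcl k hk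
    simp only [hS, Finset.mem_insert, Finset.mem_singleton, not_or] at hk hk2
    simp only [mul_inv_rev, Equiv.Perm.mul_apply]
    rw [i7 k hk.2.1 hk.2.2.1 hk.2.2.2.2.1, i7 k hk.2.1 hk.2.2.1 hk.2.2.2.2.1,
      t7 _ hk2.2.1 hk2.2.2.1 hk2.2.2.2.2.1, t7 _ hk2.2.1 hk2.2.2.1 hk2.2.2.2.2.1]
  have P0 := fun φ : H → L => prod_six (D := D) rot rot S (h := h) (p := a) (q := b) (h' := g)
    (r := c) (s := d) hS ⟨n4, n5, m0.symm, f1.symm, f4.symm, n6, m1.symm, f2.symm, f5.symm,
      m2.symm, f3.symm, f6.symm, k4, k5, k6⟩ rfl rfl hrb rfl rfl hrd (fun _ _ => rfl) hcl φ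
  have P1 := fun φ : H → L => prod_six (D := D) rot (τ * rot * τ⁻¹) S (h := h) (p := b) (q := c)
    (h' := g) (r := a) (s := d) (by rw [hS]; ext x; simp; tauto)
    ⟨n5, f1.symm, m0.symm, n4, f4.symm, f3.symm, m2.symm, n6.symm, f6.symm, k4.symm, f2,
      k6, m1, k5, f5.symm⟩
    (by simp only [Equiv.Perm.mul_apply]; rw [i1, ← ha, t2])
    (by simp only [Equiv.Perm.mul_apply]; rw [i2, ← hb, t3])
    (by simp only [Equiv.Perm.mul_apply]; rw [i3, hrb, t1])
    (by simp only [Equiv.Perm.mul_apply]; rw [i5, ← hc, t4])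
    (by simp only [Equiv.Perm.mul_apply]; rw [i4, ← hd, t6])
    (by simp only [Equiv.Perm.mul_apply]; rw [i6, hrd, t5]) hout1 hcl φ
  have P2 := fun φ : H → L => prod_six (D := D) rot (τ * τ * rot * (τ * τ)⁻¹) S (h := h) (p := c)
    (q := a) (h' := g) (r := b) (s := d) (by rw [hS]; ext x; simp; tauto)
    ⟨f1.symm, n4, m0.symm, n5, f4.symm, f2, k4.symm, f3, k6, m1.symm, n6, f5.symm, m2, k5,
      f6.symm⟩
    (by simp only [mul_inv_rev, Equiv.Perm.mul_apply]; rw [i1, i1, ← ha, t2, t3])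
    (by simp only [mul_inv_rev, Equiv.Perm.mul_apply]; rw [i3, i2, ← hb, t3, t4])
    (by simp only [mul_inv_rev, Equiv.Perm.mul_apply]; rw [i4, i3, hrb, t1, t1])
    (by simp only [mul_inv_rev, Equiv.Perm.mul_apply]; rw [i5, i5, ← hc, t4, t2])
    (by simp only [mul_inv_rev, Equiv.Perm.mul_apply]; rw [i2, i4, ← hd, t6, t6])
    (by simp only [mul_inv_rev, Equiv.Perm.mul_apply]; rw [i6, i6, hrd, t5, t5]) hout2 hcl φ
  unfold Z
  rw [← Finset.sum_add_distrib, ← Finset.sum_add_distrib]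
  set Q : (H → L) → R := fun φ => ∏ k ∈ Sᶜ, D.vt rot φ k with hQ
  set J : (H → L) → R := fun φ => D.T (φ h) (φ a) (φ b) * D.T (φ g) (φ c) (φ d)
    + D.T (φ h) (φ b) (φ c) * D.T (φ g) (φ a) (φ d)
    + D.T (φ h) (φ c) (φ a) * D.T (φ g) (φ b) (φ d) with hJ
  have hsum : ∀ φ : H → L,
      ((if D.Compat opp φ then (∏ k, D.vt rot φ k) * 1 else 0)
        + (if D.Compat opp φ then (∏ k, D.vt (τ * rot * τ⁻¹) φ k) * 1 else 0))
        + (if D.Compat opp φ then (∏ k, D.vt (τ * τ * rot * (τ * τ)⁻¹) φ k) * 1 else 0)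
      = if D.Compat opp φ then J φ * Q φ else 0 := by
    intro φ
    split_ifs
    · rw [P0, P1, P2, hJ]; ring
    · simp
  rw [Finset.sum_congr rfl (fun φ _ => hsum φ), ← Finset.sum_filter]
  -- averaging over the label of the edge
  let upd : (H → L) → L → (H → L) := fun φ l =>
    Function.update (Function.update φ h l) g (D.star l)
  have u1 : ∀ φ l, upd φ l h = l := by
    intro φ l; simp [upd, Function.update_of_ne m0.symm]
  have u2 : ∀ φ l, upd φ l g = D.star l := by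
    intro φ l; simp [upd]
  have u3 : ∀ φ l k, k ≠ h → k ≠ g → upd φ l k = φ k := by
    intro φ l k x y; simp [upd, Function.update_of_ne x, Function.update_of_ne y]
  have hog : opp g = h := by rw [hg, hopp]
  have u4 : ∀ φ l, D.Compat opp φ → D.Compat opp (upd φ l) := by
    intro φ l hφ k
    by_cases x : k = h
    · rw [x, ← hg, u1, u2]
    · by_cases y : k = g
      · rw [y, hog, u1, u2, D.star_star]
      · have x' : opp k ≠ h := fun e => y (by rw [← hopp k, e])
        have y' : opp k ≠ g := fun e => x (by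
          have := congrArg opp e; rw [hopp, hog] at this; exact this)
        rw [u3 _ _ _ x' y', u3 _ _ _ x y, hφ k]
  have u5 : ∀ φ l, D.Compat opp φ → upd (upd φ l) (φ h) = φ := by
    intro φ l hφ
    ext k
    by_cases x : k = h
    · rw [x, u1]
    · by_cases y : k = g
      · rw [y, u2, hg, hφ h]
      · rw [u3 _ _ _ x y, u3 _ _ _ x y]
  set C : Finset (H → L) := Finset.univ.filter (fun φ => D.Compat opp φ) with hC
  have hkey : ∑ x ∈ C ×ˢ (Finset.univ : Finset L), J (upd x.1 x.2) * Q (upd x.1 x.2)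
      = ∑ x ∈ C ×ˢ (Finset.univ : Finset L), J x.1 * Q x.1 := by
    refine Finset.sum_bij' (fun x _ => (upd x.1 x.2, x.1 h)) (fun x _ => (upd x.1 x.2, x.1 h))
      ?_ ?_ ?_ ?_ ?_
    · rintro ⟨φ, l⟩ hx
      simp only [hC, Finset.mem_product, Finset.mem_filter, Finset.mem_univ, true_and,
        and_true] at hx ⊢
      exact u4 φ l hx
    · rintro ⟨φ, l⟩ hx
      simp only [hC, Finset.mem_product, Finset.mem_filter, Finset.mem_univ, true_and,
        and_true] at hx ⊢
      exact u4 φ l hx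
    · rintro ⟨φ, l⟩ hx
      simp only [hC, Finset.mem_product, Finset.mem_filter, Finset.mem_univ, true_and,
        and_true] at hx
      simp only [u5 φ l hx, u1]
    · rintro ⟨φ, l⟩ hx
      simp only [hC, Finset.mem_product, Finset.mem_filter, Finset.mem_univ, true_and,
        and_true] at hx
      simp only [u5 φ l hx, u1]
    · rintro ⟨φ, l⟩ hx
      rfl
  have hzero : ∑ x ∈ C ×ˢ (Finset.univ : Finset L), J (upd x.1 x.2) * Q (upd x.1 x.2) = 0 := by
    rw [Finset.sum_product]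
    refine Finset.sum_eq_zero ?_
    intro φ hφ
    have hQ' : ∀ l, Q (upd φ l) = Q φ := by
      intro l
      simp only [hQ]
      refine Finset.prod_congr rfl ?_
      intro k hk
      have hk' : k ∉ S := by simpa using hk
      have hk2 := hcl k hk'
      have hk3 := hcl _ hk2
      simp only [hS, Finset.mem_insert, Finset.mem_singleton, not_or] at hk' hk2 hk3
      unfold vt
      rw [u3 _ _ _ hk'.1 hk'.2.2.2.1, u3 _ _ _ hk2.1 hk2.2.2.2.1, u3 _ _ _ hk3.1 hk3.2.2.2.1]
    have hJ' : ∀ l, J (upd φ l) = D.T l (φ a) (φ b) * D.T (D.star l) (φ c) (φ d)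
      + D.T l (φ b) (φ c) * D.T (D.star l) (φ a) (φ d)
      + D.T l (φ c) (φ a) * D.T (D.star l) (φ b) (φ d) := by
      intro l
      simp only [hJ]
      rw [u1, u2, u3 _ _ a n1 m1.symm, u3 _ _ b n2 m2.symm, u3 _ _ c f1 k1, u3 _ _ d f4 k2]
    simp only [hQ', hJ']
    rw [← Finset.sum_mul, D.jacobi, zero_mul]
  rw [hkey, Finset.sum_product] at hzero
  simp only [Finset.sum_const, Finset.card_univ, nsmul_eq_mul] at hzero
  rw [← Finset.mul_sum] at hzero
  rcases mul_eq_zero.1 hzero with hz | hz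
  · exfalso
    exact Fintype.card_ne_zero (α := L) (by exact_mod_cast hz)
  · exact hz

end raw

end LieData

end Pool.Agent.H76.Dasbach
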